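import Mathlib

set_option autoImplicit false

/-! # An interface to the ring of integers of the cyclotomic field -/

namespace Pool.Agent.T9h29.CY

open Finset Polynomial

/-- What is needed of the ring of integers of the `n`-th cyclotomic field. -/
structure Cyc (n : ℕ) [NeZero n] (R : Type) [CommRing R] where
  z : R
  prim : IsPrimitiveRoot z n
  b : Module.Basis (Fin n.totient) ℤ R
  b_eq : ∀ i, b i = z ^ (i : ℕ)
  ev : ∀ (A : Type) [CommRing A] (y : A), (cyclotomic n A).IsRoot y → (R →+* A)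
  ev_z : ∀ (A : Type) [CommRing A] (y : A) (h : (cyclotomic n A).IsRoot y), ev A y h z = y
  nm : R →* ℤ
  /-- the norm is the product of the conjugates -/
  nm_eq : ∀ (σ : (ZMod n)ˣ → (R →+* R)), (∀ t : (ZMod n)ˣ, σ t z = z ^ (t : ZMod n).val) →
    ∀ α, ((nm α : ℤ) : R) = ∏ t, σ t α
  /-- divisibility of the norm -/
  nm_dvd : ∀ (p : ℕ) [Fact p.Prime] (S : Finset (R →+* ZMod p)) (α : R), (∀ φ ∈ S, φ α = 0) →
    (p : ℤ) ^ #S ∣ nm α
  /-- finitely many elements with bounded conjugates -/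
  fin : ∀ C : ℝ, {α : R | ∀ f : R →+* ℂ, ‖f α‖ ≤ C}.Finite

open NumberField IsCyclotomicExtension

section
variable (n : ℕ) [NeZero n] (K : Type) [Field K] [NumberField K] [IsCyclotomicExtension {n} ℚ K]

/-- the root of unity -/
noncomputable def z0 : 𝓞 K := (zeta_spec n ℚ K).toInteger

lemma z0_prim : IsPrimitiveRoot (z0 n K) n := (zeta_spec n ℚ K).toInteger_isPrimitiveRoot

/-- the power basis -/
noncomputable def pb0 : PowerBasis ℤ (𝓞 K) := (zeta_spec n ℚ K).integralPowerBasis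

lemma pb0_gen : (pb0 n K).gen = z0 n K := (zeta_spec n ℚ K).integralPowerBasis_gen

lemma pb0_dim : (pb0 n K).dim = n.totient := (zeta_spec n ℚ K).integralPowerBasis_dim

lemma pb0_min : minpoly ℤ (pb0 n K).gen = cyclotomic n ℤ := by
  rw [pb0_gen, cyclotomic_eq_minpoly (zeta_spec n ℚ K) (NeZero.pos n)]
  exact (minpoly.algebraMap_eq (B := 𝓞 K) (B' := K) (RingOfIntegers.coe_injective) (z0 n K)).symm

/-- evaluation -/
noncomputable def ev0 (A : Type) [CommRing A] (y : A) (h : (cyclotomic n A).IsRoot y) :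
    𝓞 K →+* A :=
  ((pb0 n K).lift y (by
    rw [pb0_min, aeval_def, eval₂_eq_eval_map, map_cyclotomic]
    exact h)).toRingHom

lemma ev0_z (A : Type) [CommRing A] (y : A) (h : (cyclotomic n A).IsRoot y) :
    ev0 n K A y h (z0 n K) = y := by
  unfold ev0
  rw [← pb0_gen]
  exact PowerBasis.lift_gen _ _ _

/-- the basis -/
noncomputable def b0 : Module.Basis (Fin n.totient) ℤ (𝓞 K) :=
  (pb0 n K).basis.reindex (finCongr (pb0_dim n K))

lemma b0_eq (i : Fin n.totient) : b0 n K i = z0 n K ^ (i : ℕ) := by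
  unfold b0
  rw [Module.Basis.reindex_apply, PowerBasis.coe_basis, pb0_gen]
  simp

lemma ring_ext {A : Type} [CommRing A] (f g : 𝓞 K →+* A) (h : f (z0 n K) = g (z0 n K)) :
    f = g := by
  have h1 : f.toIntAlgHom = g.toIntAlgHom := by
    apply (pb0 n K).algHom_ext
    rw [pb0_gen]
    exact h
  ext x
  exact DFunLike.congr_fun h1 x

lemma nm0_eq (σ : (ZMod n)ˣ → (𝓞 K →+* 𝓞 K))
    (hσ : ∀ t : (ZMod n)ˣ, σ t (z0 n K) = z0 n K ^ (t : ZMod n).val) (α : 𝓞 K) :
    ((Algebra.norm ℤ α : ℤ) : 𝓞 K) = ∏ t, σ t α := by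
  have : IsGalois ℚ K := IsCyclotomicExtension.isGalois {n} ℚ K
  have h1 : ∀ τ : Gal(K/ℚ), (τ (α : K)) = ((σ (Rat.galEquivZMod n K τ) α : 𝓞 K) : K) := by
    intro τ
    have h2 : RingOfIntegers.mapRingHom (τ : K →+* K) = σ (Rat.galEquivZMod n K τ) := by
      apply ring_ext n K
      rw [hσ]
      apply RingOfIntegers.ext
      have h3 := Rat.galEquivZMod_apply_of_pow_eq n K τ (zeta_spec n ℚ K).pow_eq_one
      exact h3
    rw [← h2]
    rfl
  apply RingOfIntegers.coe_injective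
  have h4 := Algebra.norm_eq_prod_automorphisms ℚ (α : K)
  rw [← Algebra.coe_norm_int] at h4
  rw [map_prod, ← Equiv.prod_comp (Rat.galEquivZMod n K).toEquiv]
  have h5 : (algebraMap (𝓞 K) K) ((Algebra.norm ℤ α : ℤ) : 𝓞 K) =
      (algebraMap ℚ K) ((Algebra.norm ℤ α : ℤ) : ℚ) := by
    rw [map_intCast, map_intCast]
  rw [h5, h4]
  exact prod_congr rfl fun τ _ => h1 τ

lemma nm0_dvd (p : ℕ) [hp : Fact p.Prime] (S : Finset (𝓞 K →+* ZMod p)) (α : 𝓞 K)
    (h : ∀ φ ∈ S, φ α = 0) : (p : ℤ) ^ #S ∣ Algebra.norm ℤ α := by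
  classical
  have hsurj : ∀ φ : 𝓞 K →+* ZMod p, Function.Surjective φ := ZMod.ringHom_surjective
  have hmax : ∀ φ : 𝓞 K →+* ZMod p, (RingHom.ker φ).IsMaximal := fun φ =>
    RingHom.ker_isMaximal_of_surjective φ (hsurj φ)
  have hnorm : ∀ φ : 𝓞 K →+* ZMod p, Ideal.absNorm (RingHom.ker φ) = p := by
    intro φ
    rw [Ideal.absNorm_apply, Submodule.cardQuot_apply]
    have e := RingHom.quotientKerEquivOfSurjective (hsurj φ)
    have := Nat.card_congr e.toEquiv
    rw [Nat.card_eq_fintype_card (α := ZMod p), ZMod.card] at this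
    exact this
  have hinj : ∀ φ ψ : 𝓞 K →+* ZMod p, RingHom.ker φ = RingHom.ker ψ → φ = ψ := by
    intro φ ψ hk
    ext x
    have h1 : x - (((φ x).val : ℕ) : 𝓞 K) ∈ RingHom.ker φ := by
      rw [RingHom.mem_ker, map_sub, map_natCast, ZMod.natCast_zmod_val, sub_self]
    rw [hk, RingHom.mem_ker, map_sub, map_natCast, ZMod.natCast_zmod_val] at h1
    exact (sub_eq_zero.mp h1).symm
  have hprod : ∏ φ ∈ S, RingHom.ker φ = ⨅ φ ∈ S, RingHom.ker φ := by
    apply Ideal.prod_eq_iInf_of_pairwise_isCoprime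
    intro φ _ ψ _ hne
    exact Ideal.isCoprime_of_isMaximal fun hk => hne (hinj φ ψ hk)
  have hmem : Ideal.span {α} ≤ ∏ φ ∈ S, RingHom.ker φ := by
    rw [hprod, Ideal.span_singleton_le_iff_mem]
    simp only [Submodule.mem_iInf, RingHom.mem_ker]
    exact h
  have h2 := Ideal.absNorm_dvd_absNorm_of_le hmem
  rw [map_prod, prod_congr rfl fun φ _ => hnorm φ, prod_const, Ideal.absNorm_span_singleton] at h2
  have h3 : ((p ^ #S : ℕ) : ℤ) ∣ Algebra.norm ℤ α := Int.natCast_dvd.mpr h2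
  exact_mod_cast h3

lemma fin0 (C : ℝ) : {α : 𝓞 K | ∀ f : 𝓞 K →+* ℂ, ‖f α‖ ≤ C}.Finite := by
  have h1 := Embeddings.finite_of_norm_le K ℂ C
  apply Set.Finite.of_finite_image (f := fun α : 𝓞 K => (α : K))
  · apply h1.subset
    rintro _ ⟨α, hα, rfl⟩
    refine ⟨RingOfIntegers.isIntegral_coe α, fun φ => ?_⟩
    exact hα (φ.comp (algebraMap (𝓞 K) K))
  · intro a _ b _ h
    exact RingOfIntegers.ext h

/-- the ring of integers -/
noncomputable def cyc : Cyc n (𝓞 K) where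
  z := z0 n K
  prim := z0_prim n K
  b := b0 n K
  b_eq := b0_eq n K
  ev := ev0 n K
  ev_z := ev0_z n K
  nm := Algebra.norm ℤ
  nm_eq := nm0_eq n K
  nm_dvd := fun p _ S α h => nm0_dvd K p S α h
  fin := fin0 K

end

end Pool.Agent.T9h29.CY
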