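import Mathlib
import Pool.Agent.T9h29.CY.Ring

set_option autoImplicit false

/-! # Consequences of the interface -/

namespace Pool.Agent.T9h29.CY

open Finset Polynomial

section

variable {n : ℕ} [NeZero n] {R : Type} [CommRing R] (Y : Cyc n R)

include Y in
lemma Cyc.ext {A : Type} [CommRing A] {f g : R →+* A} (h : f Y.z = g Y.z) : f = g := by
  have h1 : f.toAddMonoidHom.toIntLinearMap = g.toAddMonoidHom.toIntLinearMap := by
    apply Y.b.ext
    intro i
    rw [Y.b_eq]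
    change f _ = g _
    rw [map_pow, map_pow, h]
  ext x
  exact LinearMap.congr_fun h1 x

/-- evaluation at a primitive root of unity -/
noncomputable def Cyc.evp {A : Type} [CommRing A] [IsDomain A] {y : A} (hy : IsPrimitiveRoot y n) :
    R →+* A := Y.ev A y (hy.isRoot_cyclotomic (NeZero.pos n))

lemma Cyc.evp_z {A : Type} [CommRing A] [IsDomain A] {y : A} (hy : IsPrimitiveRoot y n) :
    Y.evp hy Y.z = y := Y.ev_z A y _

lemma pow_val_prim {A : Type} [CommRing A] {y : A} (hy : IsPrimitiveRoot y n) (t : (ZMod n)ˣ) :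
    IsPrimitiveRoot (y ^ (t : ZMod n).val) n :=
  hy.pow_of_coprime _ (ZMod.val_coe_unit_coprime t)

lemma pow_val_eq {A : Type} [CommRing A] {y : A} (hy : y ^ n = 1) (a b : ℕ)
    (h : (a : ZMod n) = b) : y ^ a = y ^ b := by
  rw [ZMod.natCast_eq_natCast_iff] at h
  rw [← Nat.mod_add_div a n, ← Nat.mod_add_div b n, pow_add, pow_add, pow_mul, pow_mul, hy, one_pow,
    one_pow, h]

lemma pow_val_mul {A : Type} [CommRing A] {y : A} (hy : y ^ n = 1) (s t : ZMod n) :
    (y ^ s.val) ^ t.val = y ^ (s * t).val := by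
  rw [← pow_mul]
  apply pow_val_eq hy
  push_cast
  simp

variable [IsDomain R]

/-- the automorphisms -/
noncomputable def Cyc.sg (t : (ZMod n)ˣ) : R →+* R := Y.evp (pow_val_prim Y.prim t)

lemma Cyc.sg_z (t : (ZMod n)ˣ) : Y.sg t Y.z = Y.z ^ (t : ZMod n).val := Y.evp_z _

lemma Cyc.z_pow : Y.z ^ n = 1 := Y.prim.pow_eq_one

lemma Cyc.sg_comp (s t : (ZMod n)ˣ) : (Y.sg s).comp (Y.sg t) = Y.sg (s * t) := by
  apply Y.ext
  rw [RingHom.comp_apply, Y.sg_z, Y.sg_z, map_pow, Y.sg_z, pow_val_mul Y.z_pow]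
  rfl

lemma Cyc.sg_sg (s t : (ZMod n)ˣ) (α : R) : Y.sg s (Y.sg t α) = Y.sg (s * t) α := by
  rw [← Y.sg_comp]; rfl

lemma Cyc.sg_one : Y.sg 1 = RingHom.id R := by
  apply Y.ext
  rw [Y.sg_z, RingHom.id_apply]
  rcases Nat.lt_or_ge 1 n with h | h
  · have : Fact (1 < n) := ⟨h⟩
    rw [Units.val_one, ZMod.val_one, pow_one]
  · have hn : n = 1 := le_antisymm h (NeZero.pos n)
    have h1 := Y.z_pow
    subst hn
    rw [pow_one] at h1
    rw [h1, one_pow]

lemma Cyc.sg_one_apply (α : R) : Y.sg 1 α = α := by rw [Y.sg_one]; rfl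

lemma Cyc.sg_inj (t : (ZMod n)ˣ) : Function.Injective (Y.sg t) := by
  intro a b h
  have := congrArg (Y.sg t⁻¹) h
  rwa [Y.sg_sg, Y.sg_sg, inv_mul_cancel, Y.sg_one_apply, Y.sg_one_apply] at this

lemma Cyc.nm_prod (α : R) : ((Y.nm α : ℤ) : R) = ∏ t, Y.sg t α := Y.nm_eq Y.sg Y.sg_z α

lemma Cyc.map_nm {A : Type} [CommRing A] (f : R →+* A) (α : R) :
    ((Y.nm α : ℤ) : A) = ∏ t, f (Y.sg t α) := by
  rw [← map_intCast f, Y.nm_prod, map_prod]

lemma Cyc.adj (α : R) : ∃ β, α * β = ((Y.nm α : ℤ) : R) := by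
  refine ⟨∏ t ∈ univ.erase 1, Y.sg t α, ?_⟩
  rw [Y.nm_prod, ← mul_prod_erase univ _ (mem_univ (1 : (ZMod n)ˣ)), Y.sg_one_apply]

end

section

variable {n : ℕ} [NeZero n] {R : Type} [CommRing R] (Y : Cyc n R)

lemma Cyc.dvd_iff (L : ℤ) (α : R) : (L : R) ∣ α ↔ ∀ i, L ∣ Y.b.repr α i := by
  constructor
  · rintro ⟨β, rfl⟩ i
    rw [← zsmul_eq_mul, map_zsmul]
    exact ⟨Y.b.repr β i, by simp⟩
  · intro h
    choose c hc using h
    refine ⟨∑ i, c i • Y.b i, ?_⟩
    rw [← Y.b.sum_repr α, mul_sum]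
    apply sum_congr rfl
    intro i _
    rw [hc i, ← zsmul_eq_mul, smul_smul]

/-- the constant coefficient -/
lemma Cyc.repr_int (k : ℤ) : Y.b.repr (k : R) ⟨0, Nat.totient_pos.mpr (NeZero.pos n)⟩ = k := by
  have h1 : (k : R) = k • Y.b ⟨0, Nat.totient_pos.mpr (NeZero.pos n)⟩ := by
    rw [Y.b_eq, pow_zero, zsmul_eq_mul, mul_one]
  rw [h1, map_zsmul, Module.Basis.repr_self]
  simp

include Y in
lemma Cyc.int_dvd (L k : ℤ) (h : (L : R) ∣ (k : R)) : L ∣ k := by
  have := (Y.dvd_iff L (k : R)).mp h ⟨0, Nat.totient_pos.mpr (NeZero.pos n)⟩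
  rwa [Y.repr_int] at this

include Y in
lemma Cyc.int_inj (k l : ℤ) (h : (k : R) = l) : k = l := by
  rw [← Y.repr_int k, h, Y.repr_int]

variable [IsDomain R]

lemma prod_sub_dvd {ι : Type*} (L : R) (s : Finset ι) (f g : ι → R)
    (h : ∀ i ∈ s, L ∣ f i - g i) : L ∣ ∏ i ∈ s, f i - ∏ i ∈ s, g i := by
  classical
  induction s using Finset.induction_on with
  | empty => simp
  | insert a s ha ih =>
    rw [prod_insert ha, prod_insert ha]
    have h1 := h a (mem_insert_self _ _)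
    have h2 := ih fun i hi => h i (mem_insert_of_mem hi)
    have : f a * ∏ i ∈ s, f i - g a * ∏ i ∈ s, g i =
        (f a - g a) * ∏ i ∈ s, f i + g a * (∏ i ∈ s, f i - ∏ i ∈ s, g i) := by ring
    rw [this]
    exact dvd_add (Dvd.dvd.mul_right h1 _) (Dvd.dvd.mul_left h2 _)

lemma Cyc.nm_per (L : ℤ) (α β : R) (h : (L : R) ∣ α - β) : L ∣ Y.nm α - Y.nm β := by
  apply Y.int_dvd
  push_cast
  rw [Y.nm_prod, Y.nm_prod]
  apply prod_sub_dvd
  intro t _
  rw [← map_sub]
  have := map_dvd (Y.sg t) h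
  rwa [map_intCast] at this

lemma Cyc.nm_ne_zero (α : R) (h : α ≠ 0) : Y.nm α ≠ 0 := by
  intro h0
  have h1 := Y.nm_prod α
  rw [h0, Int.cast_zero] at h1
  obtain ⟨t, _, ht⟩ := prod_eq_zero_iff.mp h1.symm
  exact h ((map_eq_zero_iff _ (Y.sg_inj t)).mp ht)

lemma Cyc.nm_zero : Y.nm 0 = 0 := by
  apply Y.int_inj
  rw [Y.nm_prod, Int.cast_zero]
  exact prod_eq_zero (mem_univ 1) (map_zero _)

/-- the intersection of the primes above a completely split prime -/
lemma Cyc.ker_inter (p : ℕ) [hp : Fact p.Prime] (y : ZMod p) (hy : IsPrimitiveRoot y n) (α : R)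
    (h : ∀ t : (ZMod n)ˣ, Y.evp (pow_val_prim hy t) α = 0) : ((p : ℤ) : R) ∣ α := by
  classical
  set P : (ZMod p)[X] := ∑ i : Fin n.totient, Polynomial.C ((Y.b.repr α i : ℤ) : ZMod p) *
    X ^ (i : ℕ) with hP
  have heval : ∀ t : (ZMod n)ˣ, P.eval (y ^ (t : ZMod n).val) = 0 := by
    intro t
    rw [← h t]
    conv_rhs => rw [← Y.b.sum_repr α]
    rw [hP, eval_finsetSum, map_sum]
    apply sum_congr rfl
    intro i _
    rw [eval_mul, eval_C, eval_pow, eval_X, map_zsmul, Y.b_eq, map_pow, Y.evp_z, zsmul_eq_mul]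
  have hinj : Function.Injective (fun t : (ZMod n)ˣ => y ^ (t : ZMod n).val) := by
    intro s t hst
    have := hy.pow_inj (ZMod.val_lt _) (ZMod.val_lt _) hst
    exact Units.ext (ZMod.val_injective n this)
  have hdeg : P.degree < (n.totient : ℕ) := by
    rw [hP]
    apply lt_of_le_of_lt (degree_sum_le _ _)
    rw [Finset.sup_lt_iff (WithBot.bot_lt_coe _)]
    intro i _
    exact lt_of_le_of_lt (degree_C_mul_X_pow_le _ _) (by exact_mod_cast i.2)
  have hP0 : P = 0 := by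
    by_contra hne
    have h1 : (univ.image (fun t : (ZMod n)ˣ => y ^ (t : ZMod n).val)) ⊆ P.roots.toFinset := by
      intro x hx
      rw [mem_image] at hx
      obtain ⟨t, _, rfl⟩ := hx
      rw [Multiset.mem_toFinset, mem_roots hne]
      exact heval t
    have h2 := card_le_card h1
    rw [card_image_of_injective _ hinj, card_univ, ZMod.card_units_eq_totient] at h2
    have h3 := (Multiset.toFinset_card_le P.roots).trans (card_roots' P)
    have h4 := (natDegree_lt_iff_degree_lt hne).mpr hdeg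
    omega
  rw [Y.dvd_iff]
  intro i
  have h1 : P.coeff i = ((Y.b.repr α i : ℤ) : ZMod p) := by
    rw [hP, finsetSum_coeff]
    simp only [coeff_C_mul, coeff_X_pow, mul_ite, mul_one, mul_zero]
    rw [sum_eq_single i]
    · simp
    · intro j _ hj
      rw [if_neg]
      intro hij
      exact hj (Fin.ext hij.symm)
    · intro hi; exact absurd (mem_univ i) hi
  rw [hP0, coeff_zero] at h1
  rw [← ZMod.intCast_zmod_eq_zero_iff_dvd]
  exact h1.symm

end

end Pool.Agent.T9h29.CY
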