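import Mathlib
import Pool.Agent.T9h29.CY.Ab

set_option autoImplicit false

/-! # The power residue symbol in characteristic `q` -/

namespace Pool.Agent.T9h29.CY

open Finset

/-- the exponents -/
def bb (n q : ℕ) (t : (ZMod n)ˣ) : ℕ := q * (-(t : ZMod n)).val / n

lemma bb_spec (n q : ℕ) [NeZero n] (u : (ZMod n)ˣ) (hu : (u : ZMod n) = q) (t : (ZMod n)ˣ) :
    n * bb n q t + (-((u * t : (ZMod n)ˣ) : ZMod n)).val = q * (-(t : ZMod n)).val := by
  unfold bb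
  have h1 : (-((u * t : (ZMod n)ˣ) : ZMod n)).val = (q * (-(t : ZMod n)).val) % n := by
    have h2 : (-((u * t : (ZMod n)ˣ) : ZMod n)) = ((q * (-(t : ZMod n)).val : ℕ) : ZMod n) := by
      push_cast
      rw [hu, ZMod.natCast_zmod_val]
      ring
    rw [h2, ZMod.val_natCast]
  rw [h1]
  exact Nat.div_add_mod _ _

section

variable {n : ℕ} [NeZero n] {R : Type} [CommRing R] [IsDomain R] (Y : Cyc n R)
  {k : Type} [Field k] {z : k} (hz : IsPrimitiveRoot z n)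

lemma Cyc.evp_sg (t : (ZMod n)ˣ) (α : R) :
    Y.evp hz (Y.sg t α) = Y.evp (pow_val_prim hz t) α := by
  have : (Y.evp hz).comp (Y.sg t) = Y.evp (pow_val_prim hz t) := by
    apply Y.ext
    rw [RingHom.comp_apply, Y.sg_z, map_pow, Y.evp_z, Y.evp_z]
  rw [← this]; rfl

/-- the symbol -/
noncomputable def Cyc.E (q : ℕ) (α : R) : k :=
  ∏ t : (ZMod n)ˣ, (Y.evp hz (Y.sg t⁻¹ α)) ^ bb n q t

lemma Cyc.E_mul (q : ℕ) (α β : R) : Y.E hz q (α * β) = Y.E hz q α * Y.E hz q β := by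
  unfold Cyc.E
  rw [← prod_mul_distrib]
  apply prod_congr rfl
  intro t _
  rw [map_mul, map_mul, mul_pow]

lemma Cyc.E_one (q : ℕ) : Y.E hz q 1 = 1 := by
  unfold Cyc.E
  apply prod_eq_one
  intro t _
  rw [map_one, map_one, one_pow]

variable {q : ℕ} [hq : Fact q.Prime] [CharP k q]

lemma Cyc.ev_per (f : R →+* k) (α β : R) (h : ((q : ℤ) : R) ∣ α - β) : f α = f β := by
  obtain ⟨γ, hγ⟩ := h
  rw [← sub_eq_zero, ← map_sub, hγ, map_mul]
  push_cast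
  rw [map_natCast, CharP.cast_eq_zero, zero_mul]

lemma Cyc.E_per (α β : R) (h : ((q : ℤ) : R) ∣ α - β) : Y.E hz q α = Y.E hz q β := by
  unfold Cyc.E
  apply prod_congr rfl
  intro t _
  congr 1
  apply Cyc.ev_per (q := q)
  rw [← map_sub]
  have := map_dvd (Y.sg t⁻¹) h
  rwa [map_intCast] at this

/-- Frobenius -/
lemma Cyc.frob (u : (ZMod n)ˣ) (hu : (u : ZMod n) = q) (α : R) :
    (Y.evp hz α) ^ q = Y.evp hz (Y.sg u α) := by
  have : (frobenius k q).comp (Y.evp hz) = (Y.evp hz).comp (Y.sg u) := by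
    apply Y.ext
    rw [RingHom.comp_apply, RingHom.comp_apply, Y.sg_z, map_pow, Y.evp_z, frobenius_def]
    apply pow_val_eq hz.pow_eq_one
    rw [ZMod.natCast_zmod_val, hu]
  have h1 := RingHom.congr_fun this α
  rw [RingHom.comp_apply, RingHom.comp_apply, frobenius_def] at h1
  exact h1

lemma Cyc.frob_pow (u : (ZMod n)ˣ) (hu : (u : ZMod n) = q) (i : ℕ) (α : R) :
    (Y.evp hz α) ^ (q ^ i) = Y.evp hz (Y.sg (u ^ i) α) := by
  induction i with
  | zero => rw [pow_zero, pow_one, pow_zero, Y.sg_one_apply]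
  | succ i ih =>
    rw [pow_succ, pow_mul, ih, Y.frob hz u hu, Y.sg_sg, ← pow_succ']

/-- nonvanishing -/
lemma Cyc.ne_of_nm (α : R) (h : ¬ (q : ℤ) ∣ Y.nm α) (t : (ZMod n)ˣ) :
    Y.evp hz (Y.sg t α) ≠ 0 := by
  intro h0
  apply h
  rw [← CharP.intCast_eq_zero_iff k q, Y.map_nm (Y.evp hz)]
  exact prod_eq_zero (mem_univ t) h0

lemma Cyc.E_pow (u : (ZMod n)ˣ) (hu : (u : ZMod n) = q) (α : R) (h : ¬ (q : ℤ) ∣ Y.nm α) :
    Y.E hz q α ^ n = 1 := by
  set X : k := ∏ t : (ZMod n)ˣ, (Y.evp hz (Y.sg t⁻¹ α)) ^ (-((u * t : (ZMod n)ˣ) : ZMod n)).val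
    with hX
  have hX0 : X ≠ 0 := by
    rw [hX, prod_ne_zero_iff]
    intro t _
    exact pow_ne_zero _ (Y.ne_of_nm hz α h _)
  apply mul_right_cancel₀ hX0
  rw [one_mul]
  have h1 : Y.E hz q α ^ n * X =
      ∏ t : (ZMod n)ˣ, (Y.evp hz (Y.sg t⁻¹ α)) ^ (q * (-(t : ZMod n)).val) := by
    unfold Cyc.E
    rw [hX, ← prod_pow, ← prod_mul_distrib]
    apply prod_congr rfl
    intro t _
    rw [← pow_mul, ← pow_add, ← bb_spec n q u hu t, mul_comm (bb n q t)]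
  have h2 : X = ∏ t : (ZMod n)ˣ, (Y.evp hz (Y.sg (u * t⁻¹) α)) ^ (-(t : ZMod n)).val := by
    rw [hX, ← Equiv.prod_comp (Equiv.mulLeft u⁻¹)]
    apply prod_congr rfl
    intro t _
    simp only [Equiv.coe_mulLeft, mul_inv_rev, inv_inv, mul_inv_cancel_left]
    rw [mul_comm t⁻¹ u]
  rw [h1]
  conv_rhs => rw [h2]
  apply prod_congr rfl
  intro t _
  rw [pow_mul, Y.frob hz u hu, Y.sg_sg]

end

end Pool.Agent.T9h29.CY
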