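import Mathlib
import Pool.Agent.T9h29.CY.Frob

set_option autoImplicit false

/-! # The Stickelberger sets of Jacobi sums -/

namespace Pool.Agent.T9h29.CY

open Finset

/-- the embeddings whose kernels divide the Jacobi sum `J(χ, χ ^ i)` -/
def Si (n : ℕ) [NeZero n] (i : ZMod n) : Finset (ZMod n)ˣ :=
  univ.filter (fun t : (ZMod n)ˣ => n ≤ (-(t : ZMod n)).val + (-((t : ZMod n) * i)).val)

lemma mem_Si (n : ℕ) [NeZero n] (i : ZMod n) (t : (ZMod n)ˣ) :
    t ∈ Si n i ↔ n ≤ (-(t : ZMod n)).val + (-((t : ZMod n) * i)).val := by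
  unfold Si; rw [mem_filter]; exact ⟨fun h => h.2, fun h => ⟨mem_univ _, h⟩⟩

lemma val_neg_mul (n : ℕ) [NeZero n] (t : ZMod n) (m : ℕ) :
    (-(t * (m : ZMod n))).val = ((-t).val * m) % n := by
  have : -(t * (m : ZMod n)) = (((-t).val * m : ℕ) : ZMod n) := by
    push_cast
    rw [ZMod.natCast_zmod_val]
    ring
  rw [this, ZMod.val_natCast]

lemma Si_zero (n : ℕ) [NeZero n] : Si n 0 = ∅ := by
  ext t
  rw [mem_Si, mul_zero, neg_zero, ZMod.val_zero, add_zero]
  have := ZMod.val_lt (-(t : ZMod n))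
  simp only [notMem_empty, iff_false, not_le]
  exact this

lemma Si_count (n : ℕ) [NeZero n] (t : (ZMod n)ˣ) (m : ℕ) :
    #((Ico 1 m).filter (fun i : ℕ => t ∈ Si n (i : ZMod n))) = m * (-(t : ZMod n)).val / n := by
  classical
  have hn := NeZero.pos n
  set v := (-(t : ZMod n)).val with hv
  have hvn : v < n := ZMod.val_lt _
  induction m with
  | zero => simp
  | succ m ih =>
    rcases Nat.eq_zero_or_pos m with rfl | hm
    · simp [Nat.div_eq_of_lt hvn]
    · have h1 : Ico 1 (m + 1) = insert m (Ico 1 m) := by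
        ext a; simp only [mem_Ico, mem_insert]; omega
      rw [h1, filter_insert]
      have h2 : (m + 1) * v / n = m * v / n + (if n ≤ (v * m) % n + v then 1 else 0) := by
        rw [add_mul, one_mul, Nat.add_div hn, Nat.div_eq_of_lt hvn, Nat.mod_eq_of_lt hvn,
          mul_comm v m]
        rw [add_zero]
      have h3 : t ∈ Si n (m : ZMod n) ↔ n ≤ (v * m) % n + v := by
        rw [mem_Si, val_neg_mul, ← hv, add_comm]
      rw [h2]
      by_cases h4 : n ≤ (v * m) % n + v
      · rw [if_pos (h3.mpr h4), if_pos h4, card_insert_of_notMem, ih]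
        intro h5
        rw [mem_filter, mem_Ico] at h5
        omega
      · rw [if_neg (fun h5 => h4 (h3.mp h5)), if_neg h4, ih, add_zero]

section

variable {n : ℕ} [NeZero n] {R : Type} [CommRing R] [IsDomain R] (Y : Cyc n R)
  {k : Type} [Field k] {z : k} (hz : IsPrimitiveRoot z n)

/-- the product of conjugates attached to `i` -/
noncomputable def Cyc.PS (Y : Cyc n R) (α : R) (i : ZMod n) : R := ∏ t ∈ Si n i, Y.sg t⁻¹ α

lemma Cyc.E_eq (q : ℕ) (α : R) :
    Y.E hz q α = ∏ i ∈ Ico 1 q, Y.evp hz (Y.PS α ((i : ℕ) : ZMod n)) := by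
  classical
  unfold Cyc.E Cyc.PS
  have h1 : ∀ i ∈ Ico 1 q, Y.evp hz (∏ t ∈ Si n ((i : ℕ) : ZMod n), Y.sg t⁻¹ α) =
      ∏ t : (ZMod n)ˣ, if t ∈ Si n ((i : ℕ) : ZMod n) then Y.evp hz (Y.sg t⁻¹ α) else 1 := by
    intro i _
    rw [map_prod]
    rw [prod_ite_mem, univ_inter]
  rw [prod_congr rfl h1, prod_comm]
  apply prod_congr rfl
  intro t _
  rw [prod_ite, prod_const_one, mul_one, prod_const, Si_count]
  rfl

end

end Pool.Agent.T9h29.CY
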