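import Mathlib
import Pool.Agent.T9h29.CY.Sti

set_option autoImplicit false

/-! # Powers of Gauss sums -/

namespace Pool.Agent.T9h29.CY

open Finset

section

variable {n : ℕ} [NeZero n] {R : Type} [CommRing R] [IsDomain R] (Y : Cyc n R)
  {p : ℕ} [hp : Fact p.Prime]

/-- the Jacobi sums -/
noncomputable def cI {R : Type} [CommRing R] (χ : MulChar (ZMod p) R) (i : ZMod n) : R :=
  if i = 0 then -1 else if i = -1 then -(χ (-1) * p) else jacobiSum χ (χ ^ i.val)

variable {χ : MulChar (ZMod p) R} {g : (ZMod p)ˣ} (hg : ∀ x, x ∈ Subgroup.zpowers g)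
  (hχ : χ g = Y.z)

include hg in
lemma exists_pow_gen (u : (ZMod p)ˣ) : ∃ i : ℕ, u = g ^ i := by
  have h := hg u
  rw [← mem_powers_iff_mem_zpowers] at h
  obtain ⟨i, hi⟩ := h
  exact ⟨i, hi.symm⟩

include hg hχ in
lemma comp_pow_iff {L : Type} [CommRing L] [IsDomain L] (f : R →+* L)
    (hf : IsPrimitiveRoot (f Y.z) n) (m : ℕ) : (χ.ringHomComp f) ^ m = 1 ↔ n ∣ m := by
  have hgm : ((χ.ringHomComp f) ^ m) g = f Y.z ^ m := by
    rw [MulChar.pow_apply_coe, MulChar.ringHomComp_apply, hχ]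
  constructor
  · intro h
    rw [h, MulChar.one_apply_coe] at hgm
    exact hf.dvd_of_pow_eq_one _ hgm.symm
  · intro h
    refine MulChar.ext fun u => ?_
    obtain ⟨i, rfl⟩ := exists_pow_gen hg u
    rw [MulChar.one_apply_coe, Units.val_pow_eq_pow_val, map_pow, hgm]
    obtain ⟨l, rfl⟩ := h
    rw [pow_mul, hf.pow_eq_one, one_pow, one_pow]

/-- the Jacobi sums of the reduced character -/
noncomputable def cJ {L : Type} [CommRing L] (n : ℕ) (c : MulChar (ZMod p) L) (m : ℕ) : L :=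
  if (m : ZMod n) = 0 then -1 else if (m : ZMod n) = -1 then -(c (-1) * p) else
    jacobiSum c (c ^ m)

lemma gauss_step {L : Type} [Field L] (c : MulChar (ZMod p) L) (hc : ∀ m : ℕ, c ^ m = 1 ↔ n ∣ m)
    (hn : 1 < n) (ψ : AddChar (ZMod p) L) (hψ : ψ.IsPrimitive) (m : ℕ) :
    gaussSum c ψ * gaussSum (c ^ m) ψ = cJ n c m * gaussSum (c ^ (m + 1)) ψ := by
  have hψ1 : ψ ≠ 1 := by
    have h1 : (AddChar.mulShift ψ 1) ≠ 1 := hψ one_ne_zero
    intro h2
    apply h1
    rw [h2]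
    ext x
    simp
  have hc1 : c ≠ 1 := by
    intro h
    have := (hc 1).mp (by rw [pow_one]; exact h)
    rw [Nat.dvd_one] at this
    omega
  unfold cJ
  by_cases h0 : (m : ZMod n) = 0
  · rw [if_pos h0]
    have h1 : c ^ m = 1 := (hc m).mpr ((ZMod.natCast_eq_zero_iff _ _).mp h0)
    rw [pow_succ, h1, one_mul, gaussSum_one_left hψ1]
    ring
  rw [if_neg h0]
  have h0' : c ^ m ≠ 1 := fun h => h0 ((ZMod.natCast_eq_zero_iff _ _).mpr ((hc m).mp h))
  by_cases h1 : (m : ZMod n) = -1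
  · rw [if_pos h1]
    have h2 : c ^ (m + 1) = 1 := by
      apply (hc _).mpr
      rw [← ZMod.natCast_eq_zero_iff]
      push_cast
      rw [h1, neg_add_cancel]
    have h3 : c ^ m = c⁻¹ := by
      rw [eq_inv_iff_mul_eq_one, ← pow_succ]
      exact h2
    have h4 : c⁻¹ (-1) * gaussSum c⁻¹ ψ⁻¹ = gaussSum c⁻¹ ψ := mul_gaussSum_inv_eq_gaussSum c⁻¹ ψ
    have h5 : c⁻¹ (-1) = c (-1) := by
      rw [MulChar.inv_apply']
      congr 1
      rw [inv_neg, inv_one]
    have h6 := gaussSum_mul_gaussSum_eq_card hc1 hψ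
    rw [ZMod.card] at h6
    rw [h2, h3, ← h4, gaussSum_one_left hψ1, h5]
    linear_combination c (-1) * h6
  · rw [if_neg h1]
    have h2 : c * c ^ m ≠ 1 := by
      intro h
      apply h1
      rw [← pow_succ'] at h
      have := (ZMod.natCast_eq_zero_iff _ _).mpr ((hc _).mp h)
      push_cast at this
      exact eq_neg_of_add_eq_zero_left this
    have h3 := jacobiSum_mul_nontrivial h2 ψ
    rw [pow_succ', ← h3, mul_comm]

lemma gauss_pow {L : Type} [Field L] (c : MulChar (ZMod p) L) (hc : ∀ m : ℕ, c ^ m = 1 ↔ n ∣ m)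
    (hn : 1 < n) (ψ : AddChar (ZMod p) L) (hψ : ψ.IsPrimitive) (m : ℕ) (hm : 1 ≤ m) :
    gaussSum c ψ ^ m = (∏ i ∈ Ico 1 m, cJ n c i) * gaussSum (c ^ m) ψ := by
  induction m, hm using Nat.le_induction with
  | base => simp
  | succ m hm ih =>
    rw [pow_succ', ih, prod_Ico_succ_top hm]
    have := gauss_step c hc hn ψ hψ m
    linear_combination (∏ i ∈ Ico 1 m, cJ n c i) * this

lemma gauss_rec {L : Type} [Field L] [IsAlgClosed L] (q : ℕ) [hq : Fact q.Prime] [CharP L q]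
    (c : MulChar (ZMod p) L) (hc : ∀ m : ℕ, c ^ m = 1 ↔ n ∣ m)
    (hn : 1 < n) (hqn : ¬ q ∣ n) (hpq : p ≠ q) :
    (c (q : ZMod p)) ^ q * ∏ i ∈ Ico 1 q, cJ n c i = 1 := by
  have hpk : ((p : ℕ) : L) ≠ 0 := by
    intro h
    rw [CharP.cast_eq_zero_iff L q] at h
    exact hpq ((Nat.prime_dvd_prime_iff_eq hq.out hp.out).1 h).symm
  have : NeZero ((p : ℕ) : L) := ⟨hpk⟩
  obtain ⟨ζ, hζ⟩ := HasEnoughRootsOfUnity.exists_primitiveRoot L p
  have : NeZero p := ⟨hp.out.ne_zero⟩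
  have hψ := AddChar.zmodChar_primitive_of_primitive_root p hζ
  set ψ : AddChar (ZMod p) L := AddChar.zmodChar p
    ((IsPrimitiveRoot.iff_def ζ p).mp hζ).left with hψd
  have hcopr : Nat.Coprime q p := (Nat.coprime_primes hq.out hp.out).2 (Ne.symm hpq)
  set a : (ZMod p)ˣ := ZMod.unitOfCoprime q hcopr with ha
  have hav : (a : ZMod p) = ((q : ℕ) : ZMod p) := ZMod.coe_unitOfCoprime q hcopr
  have hfrob : (c ^ q) a * gaussSum c ψ ^ q = gaussSum (c ^ q) ψ := by
    rw [gaussSum_frob, AddChar.pow_mulShift, ← hav]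
    exact gaussSum_mulShift (c ^ q) ψ a
  have hcq : c ^ q ≠ 1 := by
    intro h
    have h1 := (hc q).mp h
    rcases (Nat.dvd_prime hq.out).mp h1 with h2 | h2
    · omega
    · exact hqn (h2 ▸ dvd_rfl)
  have hG : gaussSum (c ^ q) ψ ≠ 0 := by
    apply gaussSum_ne_zero_of_nontrivial _ hcq hψ
    rw [ZMod.card]; exact hpk
  rw [gauss_pow c hc hn ψ hψ q hq.out.one_lt.le, MulChar.pow_apply_coe, hav] at hfrob
  apply mul_right_cancel₀ hG
  rw [one_mul, mul_assoc]
  exact hfrob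

include hg hχ in
lemma cJ_eq {L : Type} [CommRing L] [IsDomain L] (f : R →+* L)
    (hf : IsPrimitiveRoot (f Y.z) n) (m : ℕ) :
    cJ n (χ.ringHomComp f) m = f (cI χ (m : ZMod n)) := by
  unfold cJ cI
  by_cases h0 : (m : ZMod n) = 0
  · rw [if_pos h0, if_pos h0, map_neg, map_one]
  rw [if_neg h0, if_neg h0]
  by_cases h1 : (m : ZMod n) = -1
  · rw [if_pos h1, if_pos h1, map_neg f, map_mul f, MulChar.ringHomComp_apply, map_natCast]
  rw [if_neg h1, if_neg h1, ← jacobiSum_ringHomComp, ← MulChar.ringHomComp_pow]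
  congr 1
  have h2 : (χ.ringHomComp f) ^ n = 1 := (comp_pow_iff Y hg hχ f hf n).mpr dvd_rfl
  rw [ZMod.val_natCast]
  conv_lhs => rw [← Nat.mod_add_div m n, pow_add, pow_mul, h2, one_pow, mul_one]

include hg hχ in
theorem rec_cyc (hn : 1 < n) (q : ℕ) [hq : Fact q.Prime] (hqn : ¬ q ∣ n) (hpq : p ≠ q)
    {k : Type} [Field k] [CharP k q] {z : k} (hz : IsPrimitiveRoot z n) :
    (Y.evp hz (χ (q : ZMod p))) ^ q * ∏ i ∈ Ico 1 q, Y.evp hz (cI χ ((i : ℕ) : ZMod n)) = 1 := by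
  set L := AlgebraicClosure k with hL
  have hinj : Function.Injective (algebraMap k L) := (algebraMap k L).injective
  have hchar : CharP L q := charP_of_injective_algebraMap hinj q
  set f : R →+* L := (algebraMap k L).comp (Y.evp hz) with hf
  have hfz : IsPrimitiveRoot (f Y.z) n := by
    rw [hf, RingHom.comp_apply, Y.evp_z]
    exact hz.map_of_injective hinj
  have hc := comp_pow_iff Y hg hχ f hfz
  have h1 := gauss_rec (n := n) q (χ.ringHomComp f) hc hn hqn hpq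
  rw [prod_congr rfl fun i _ => cJ_eq Y hg hχ f hfz i] at h1
  apply hinj
  rw [map_mul, map_pow, map_prod, map_one, ← h1, MulChar.ringHomComp_apply]
  rfl

end

end Pool.Agent.T9h29.CY
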