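import Mathlib
import Pool.Agent.T9h29.CY.Frob

set_option autoImplicit false

/-! # The power residue symbol has exact order `n` -/

namespace Pool.Agent.T9h29.CY

open Finset Polynomial

lemma fixed_int {k : Type} [Field k] (q : ℕ) [hq : Fact q.Prime] [CharP k q] (x : k)
    (hx : x ^ q = x) : ∃ a : ℤ, (a : k) = x := by
  classical
  by_contra hcon
  push Not at hcon
  set P : k[X] := X ^ q - X with hP
  have hq1 : 1 < q := hq.out.one_lt
  have hP0 : P ≠ 0 := FiniteField.X_pow_card_sub_X_ne_zero k hq1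
  have hdeg : P.natDegree = q := FiniteField.X_pow_card_sub_X_natDegree_eq k hq1
  set S : Finset k := insert x ((range q).image (fun i : ℕ => (i : k))) with hS
  have hx' : x ∉ (range q).image (fun i : ℕ => (i : k)) := by
    intro h
    rw [mem_image] at h
    obtain ⟨i, _, hi⟩ := h
    exact hcon i (by exact_mod_cast hi)
  have hinj : Set.InjOn (fun i : ℕ => (i : k)) (range q : Finset ℕ) := by
    intro a ha b hb hab
    rw [mem_coe, mem_range] at ha hb
    have := (CharP.natCast_eq_natCast k q).mp hab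
    unfold Nat.ModEq at this
    rwa [Nat.mod_eq_of_lt ha, Nat.mod_eq_of_lt hb] at this
  have hcard : #S = q + 1 := by
    rw [hS, card_insert_of_notMem hx', card_image_of_injOn hinj, card_range]
  have hsub : S.val ⊆ P.roots := by
    intro y hy
    rw [mem_roots hP0, IsRoot.def, hP, eval_sub, eval_pow, eval_X, sub_eq_zero]
    rw [mem_val, hS, mem_insert, mem_image] at hy
    rcases hy with rfl | ⟨i, _, rfl⟩
    · exact hx
    · have := frobenius_def (R := k) q (i : k)
      rw [map_natCast] at this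
      exact this.symm
  have := card_le_degree_of_subset_roots hsub
  omega

section

variable {n : ℕ} [NeZero n] {R : Type} [CommRing R] [IsDomain R] (Y : Cyc n R)
  {k : Type} [Field k] {z : k} (hz : IsPrimitiveRoot z n)
  {q : ℕ} [hq : Fact q.Prime] [CharP k q]

include hz in
lemma Cyc.exists_g (u : (ZMod n)ˣ) (hu : (u : ZMod n) = q) :
    ∃ g : R, Y.evp hz g ≠ 0 ∧ ∀ t, t ∉ Subgroup.zpowers u → Y.evp hz (Y.sg t g) = 0 := by
  classical
  set S := (univ : Finset (ZMod n)ˣ).filter (fun t => t ∉ Subgroup.zpowers u) with hS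
  set m : k[X] := ∏ t ∈ S, (X - C (z ^ (t : ZMod n).val)) with hm
  have hfrob : m.map (frobenius k q) = m := by
    rw [hm, Polynomial.map_prod]
    apply prod_bij (fun t _ => u * t)
    · intro t ht
      rw [hS, mem_filter] at ht ⊢
      refine ⟨mem_univ _, fun h => ht.2 ?_⟩
      have := Subgroup.mul_mem _ (Subgroup.inv_mem _ (Subgroup.mem_zpowers u)) h
      rwa [inv_mul_cancel_left] at this
    · intro a _ b _ hab
      exact mul_left_cancel hab
    · intro b hb
      refine ⟨u⁻¹ * b, ?_, by simp⟩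
      rw [hS, mem_filter] at hb ⊢
      refine ⟨mem_univ _, fun h => hb.2 ?_⟩
      have := Subgroup.mul_mem _ (Subgroup.mem_zpowers u) h
      rwa [mul_inv_cancel_left] at this
    · intro t _
      rw [Polynomial.map_sub, map_X, map_C, frobenius_def, ← pow_mul]
      congr 2
      apply pow_val_eq hz.pow_eq_one
      push_cast
      rw [ZMod.natCast_zmod_val, ZMod.natCast_zmod_val, hu, mul_comm]
  have hcoef : ∀ i, ∃ a : ℤ, (a : k) = m.coeff i := by
    intro i
    apply fixed_int q
    have := congrArg (fun P : k[X] => P.coeff i) hfrob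
    simp only [coeff_map, frobenius_def] at this
    exact this
  choose a ha using hcoef
  set g : R := ∑ i ∈ range (m.natDegree + 1), (a i : R) * Y.z ^ i with hg
  have hev : ∀ t : (ZMod n)ˣ, Y.evp hz (Y.sg t g) = m.eval (z ^ (t : ZMod n).val) := by
    intro t
    rw [Y.evp_sg, hg, map_sum, eval_eq_sum_range]
    apply sum_congr rfl
    intro i _
    rw [map_mul, map_intCast, map_pow, Y.evp_z, ha]
  refine ⟨g, ?_, ?_⟩
  · have h1 := hev 1
    rw [Y.sg_one_apply] at h1
    rw [h1, hm, eval_prod, prod_ne_zero_iff]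
    intro t ht
    rw [hS, mem_filter] at ht
    rw [eval_sub, eval_X, eval_C, sub_ne_zero]
    intro h2
    have h3 := hz.pow_inj (ZMod.val_lt _) (ZMod.val_lt _) h2
    have h4 : (1 : (ZMod n)ˣ) = t := Units.ext (ZMod.val_injective n h3)
    rw [← h4] at ht
    exact ht.2 (Subgroup.one_mem _)
  · intro t ht
    rw [hev t, hm, eval_prod]
    apply prod_eq_zero (i := t)
    · rw [hS, mem_filter]; exact ⟨mem_univ _, ht⟩
    · rw [eval_sub, eval_X, eval_C, sub_self]

include hq in
/-- telescoping -/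
lemma tele (u : (ZMod n)ˣ) (hu : (u : ZMod n) = q) (f : ℕ) :
    n * ∑ i ∈ range f, q ^ i * bb n q (u⁻¹ ^ i) + (-(u : ZMod n)).val =
      q ^ f * (-((u * u⁻¹ ^ f : (ZMod n)ˣ) : ZMod n)).val := by
  induction f with
  | zero => simp
  | succ f ih =>
    rw [sum_range_succ, mul_add, add_right_comm, ih]
    have h1 := bb_spec n q u hu (u⁻¹ ^ f)
    have h2 : (-((u * u⁻¹ ^ (f + 1) : (ZMod n)ˣ) : ZMod n)).val =
        (-((u⁻¹ ^ f : (ZMod n)ˣ) : ZMod n)).val := by
      congr 3
      rw [pow_succ', mul_inv_cancel_left]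
    rw [h2, pow_succ]
    calc q ^ f * (-((u * u⁻¹ ^ f : (ZMod n)ˣ) : ZMod n)).val + n * (q ^ f * bb n q (u⁻¹ ^ f)) =
          q ^ f * (n * bb n q (u⁻¹ ^ f) + (-((u * u⁻¹ ^ f : (ZMod n)ˣ) : ZMod n)).val) := by ring
      _ = _ := by rw [h1]; ring

lemma Cyc.exists_beta [Finite k] (hn : 1 < n)
    (hsurj : Function.Surjective (Y.evp hz)) (u : (ZMod n)ˣ) (hu : (u : ZMod n) = q) :
    ∃ β : R, ¬ (q : ℤ) ∣ Y.nm β ∧ IsPrimitiveRoot (Y.E hz q β) n := by
  classical
  have hF : Fintype k := Fintype.ofFinite k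
  have hn1 : Fact (1 < n) := ⟨hn⟩
  obtain ⟨g, hg1, hg2⟩ := Y.exists_g hz (q := q) u hu
  set M := Fintype.card k - 1 with hM
  have hcard : 1 < Fintype.card k := Fintype.one_lt_card
  have hM0 : M ≠ 0 := by omega
  set e := g ^ M with he
  have he1 : Y.evp hz e = 1 := by
    rw [he, map_pow]
    exact FiniteField.pow_card_sub_one_eq_one _ hg1
  have he2 : ∀ t, t ∉ Subgroup.zpowers u → Y.evp hz (Y.sg t e) = 0 := by
    intro t ht
    rw [he, map_pow, map_pow, hg2 t ht, zero_pow hM0]
  obtain ⟨γ, hγ⟩ := (inferInstance : IsCyclic kˣ).exists_generator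
  have hγo : orderOf γ = M := by
    rw [orderOf_eq_card_of_forall_mem_zpowers hγ, Nat.card_eq_fintype_card, Fintype.card_units]
  obtain ⟨α, hα⟩ := hsurj γ
  set β := α * e + (1 - e) with hβ
  have hβ1 : Y.evp hz β = γ := by
    rw [hβ, map_add, map_mul, map_sub, he1, map_one, hα, mul_one, sub_self, add_zero]
  have hβ2 : ∀ t, t ∉ Subgroup.zpowers u → Y.evp hz (Y.sg t β) = 1 := by
    intro t ht
    rw [hβ, map_add, map_mul, map_sub, map_one, map_add, map_mul, map_sub, he2 t ht, map_one,
      mul_zero, sub_zero, zero_add]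
  have hβ3 : ∀ i : ℕ, Y.evp hz (Y.sg (u ^ i) β) = (γ : k) ^ (q ^ i) := by
    intro i
    rw [← Y.frob_pow hz u hu, hβ1]
  set f := orderOf u with hf
  have hf0 : 0 < f := orderOf_pos u
  -- the order of the generator
  have hMf : M = q ^ f - 1 := by
    apply Nat.dvd_antisymm
    · rw [← hγo]
      apply orderOf_dvd_of_pow_eq_one
      have h1 : ((γ : k)) ^ (q ^ f) = γ := by
        rw [← hβ1, Y.frob_pow hz u hu, hf, pow_orderOf_eq_one, Y.sg_one_apply]
      have h2 : 1 ≤ q ^ f := Nat.one_le_pow _ _ hq.out.pos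
      apply Units.ext
      rw [Units.val_pow_eq_pow_val, Units.val_one]
      apply mul_right_cancel₀ γ.ne_zero
      rw [← pow_succ, one_mul]
      have : q ^ f - 1 + 1 = q ^ f := by omega
      rw [this, h1]
    · obtain ⟨r, _, hr⟩ := FiniteField.card k q
      have hz0 : z ≠ 0 := hz.ne_zero (NeZero.ne n)
      have h1 : z ^ M = 1 := FiniteField.pow_card_sub_one_eq_one _ hz0
      have h2 : n ∣ q ^ (r : ℕ) - 1 := by
        have := hz.dvd_of_pow_eq_one _ h1
        rwa [hM, hr] at this
      have h3 : u ^ (r : ℕ) = 1 := by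
        apply Units.ext
        rw [Units.val_pow_eq_pow_val, Units.val_one, hu]
        have h4 : 1 ≤ q ^ (r : ℕ) := Nat.one_le_pow _ _ hq.out.pos
        have h5 : ((q ^ (r : ℕ) - 1 : ℕ) : ZMod n) = 0 := (ZMod.natCast_eq_zero_iff _ _).mpr h2
        rw [Nat.cast_sub h4, Nat.cast_one, sub_eq_zero] at h5
        push_cast at h5
        exact h5
      have h4 : f ∣ (r : ℕ) := orderOf_dvd_of_pow_eq_one h3
      rw [hM, hr]
      exact Nat.pow_sub_one_dvd_pow_sub_one q h4
  -- not divisible
  have hne : ¬ (q : ℤ) ∣ Y.nm β := by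
    intro h0
    rw [← CharP.intCast_eq_zero_iff k q, Y.map_nm (Y.evp hz), prod_eq_zero_iff] at h0
    obtain ⟨t, _, ht⟩ := h0
    by_cases htu : t ∈ Subgroup.zpowers u
    · rw [← mem_powers_iff_mem_zpowers] at htu
      obtain ⟨i, rfl⟩ := htu
      rw [hβ3] at ht
      exact pow_ne_zero _ γ.ne_zero ht
    · rw [hβ2 t htu] at ht
      exact one_ne_zero ht
  refine ⟨β, hne, ?_⟩
  -- the value of the symbol
  set e0 := ∑ i ∈ range f, q ^ i * bb n q (u⁻¹ ^ i) with he0
  have hE : Y.E hz q β = (γ : k) ^ e0 := by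
    unfold Cyc.E
    have h1 : ∏ t : (ZMod n)ˣ, (Y.evp hz (Y.sg t⁻¹ β)) ^ bb n q t =
        ∏ t ∈ (range f).image (fun i => u⁻¹ ^ i), (Y.evp hz (Y.sg t⁻¹ β)) ^ bb n q t := by
      symm
      apply prod_subset (subset_univ _)
      intro t _ ht
      rw [hβ2, one_pow]
      intro h2
      apply ht
      have h3 : t ∈ Subgroup.zpowers u := by
        have := Subgroup.inv_mem _ h2
        rwa [inv_inv] at this
      have h4 : t ∈ Subgroup.zpowers u⁻¹ := by rwa [Subgroup.zpowers_inv]
      rw [← mem_powers_iff_mem_zpowers, mem_powers_iff_mem_range_orderOf] at h4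
      rw [orderOf_inv] at h4
      exact h4
    rw [h1, prod_image]
    · rw [he0, ← prod_pow_eq_pow_sum]
      apply prod_congr rfl
      intro i _
      rw [inv_pow, inv_inv, hβ3, ← pow_mul]
    · intro a ha b hb hab
      rw [mem_coe, mem_range] at ha hb
      have h2 : u ^ a = u ^ b := by
        have h3 : u⁻¹ ^ a = u⁻¹ ^ b := hab
        rw [inv_pow, inv_pow] at h3
        exact inv_injective h3
      exact pow_injOn_Iio_orderOf (by rw [Set.mem_Iio]; exact ha) (by rw [Set.mem_Iio]; exact hb) h2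
  have htele : n * e0 + (-(u : ZMod n)).val = q ^ f * (-(u : ZMod n)).val := by
    have h1 := tele (n := n) (q := q) u hu f
    rw [← he0] at h1
    rw [h1]
    congr 2
    rw [hf, inv_pow, pow_orderOf_eq_one, inv_one, mul_one]
  set v := (-(u : ZMod n)).val with hv
  have hvn : v.Coprime n := by
    have := ZMod.val_coe_unit_coprime (-u)
    rwa [Units.val_neg] at this
  have hne0 : n * e0 = M * v := by
    have h2 : 1 ≤ q ^ f := Nat.one_le_pow _ _ hq.out.pos
    have h3 : M + 1 = q ^ f := by omega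
    rw [← h3] at htele
    have : (M + 1) * v = M * v + v := by ring
    omega
  rw [hE]
  refine ⟨?_, ?_⟩
  · rw [← pow_mul, mul_comm, hne0, pow_mul, ← hγo, ← Units.val_pow_eq_pow_val, pow_orderOf_eq_one,
      Units.val_one, one_pow]
  · intro l hl
    rw [← pow_mul, ← Units.val_pow_eq_pow_val] at hl
    have h1 : γ ^ (e0 * l) = 1 := Units.ext hl
    have h2 : M ∣ e0 * l := by rw [← hγo]; exact orderOf_dvd_of_pow_eq_one h1
    have h3 : M * n ∣ M * (v * l) := by
      obtain ⟨c, hc⟩ := h2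
      refine ⟨c, ?_⟩
      calc M * (v * l) = (M * v) * l := by ring
        _ = n * (e0 * l) := by rw [← hne0]; ring
        _ = _ := by rw [hc]; ring
    have h4 := Nat.dvd_of_mul_dvd_mul_left (Nat.pos_of_ne_zero hM0) h3
    exact hvn.symm.dvd_of_dvd_mul_left h4

end

end Pool.Agent.T9h29.CY
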