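import Mathlib
import Pool.Agent.T9h29.CY.Ord

set_option autoImplicit false

/-! # The residue fields -/

namespace Pool.Agent.T9h29.CY

open Finset

section

variable {n : ℕ} [NeZero n] {R : Type} [CommRing R] [IsDomain R] (Y : Cyc n R)

lemma Cyc.surj_of_cyc (q : ℕ) [hq : Fact q.Prime] {k : Type} [Field k] [Algebra (ZMod q) k]
    [IsCyclotomicExtension {n} (ZMod q) k] {z : k} (hz : IsPrimitiveRoot z n) :
    Function.Surjective (Y.evp hz) := by
  intro x
  have hx : x ∈ Algebra.adjoin (ZMod q) ({z} : Set k) := by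
    rw [IsCyclotomicExtension.adjoin_primitive_root_eq_top hz]
    trivial
  induction hx using Algebra.adjoin_induction with
  | mem x hx =>
    rw [Set.mem_singleton_iff] at hx
    exact ⟨Y.z, by rw [Y.evp_z, hx]⟩
  | algebraMap r =>
    refine ⟨((r.val : ℕ) : R), ?_⟩
    rw [map_natCast, ← map_natCast (algebraMap (ZMod q) k), ZMod.natCast_zmod_val]
  | add x y _ _ hx hy =>
    obtain ⟨a, rfl⟩ := hx
    obtain ⟨b, rfl⟩ := hy
    exact ⟨a + b, map_add _ _ _⟩
  | mul x y _ _ hx hy =>
    obtain ⟨a, rfl⟩ := hx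
    obtain ⟨b, rfl⟩ := hy
    exact ⟨a * b, map_mul _ _ _⟩

set_option backward.isDefEq.respectTransparency false in
lemma Cyc.exists_k (q : ℕ) [hq : Fact q.Prime] (hqn : ¬ q ∣ n) :
    ∃ (k : Type) (_ : Field k) (_ : Finite k) (_ : CharP k q) (z : k) (hz : IsPrimitiveRoot z n),
      Function.Surjective (Y.evp hz) := by
  have hne : NeZero ((n : ℕ) : ZMod q) := ⟨by rwa [Ne, ZMod.natCast_eq_zero_iff]⟩
  have h1 : Module.Finite (ZMod q) (CyclotomicField n (ZMod q)) :=
    IsCyclotomicExtension.finite {n} (ZMod q) _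
  refine ⟨CyclotomicField n (ZMod q), inferInstance, Module.finite_of_finite (ZMod q),
    charP_of_injective_algebraMap (algebraMap (ZMod q) (CyclotomicField n (ZMod q))).injective q,
    IsCyclotomicExtension.zeta n (ZMod q) _, IsCyclotomicExtension.zeta_spec n (ZMod q) _, ?_⟩
  exact Y.surj_of_cyc q _

end

end Pool.Agent.T9h29.CY
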