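import Mathlib
import Pool.Agent.R361.QF.Box
import Pool.Agent.T9h29.CY.Ab

set_option autoImplicit false

/-! # Boxes in several dimensions -/

namespace Pool.Agent.T9h29.CY

open Finset
open Pool.Agent.R361.QF (iv mem_iv iv_count)

/-- the box -/
noncomputable def bx (D Y : ℕ) : Finset (Fin D → ℤ) := Fintype.piFinset (fun _ => iv Y)

lemma mem_bx (D Y : ℕ) (z : Fin D → ℤ) : z ∈ bx D Y ↔ ∀ i, |z i| ≤ Y := by
  unfold bx
  rw [Fintype.mem_piFinset]
  exact forall_congr' fun i => mem_iv Y (z i)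

lemma prod_diff {ι : Type*} (s : Finset ι) (a b : ι → ℝ) (B η : ℝ) (hB : 0 ≤ B)
    (ha : ∀ i ∈ s, |a i| ≤ B) (hb : ∀ i ∈ s, |b i| ≤ B) (hab : ∀ i ∈ s, |a i - b i| ≤ η) :
    B * |∏ i ∈ s, a i - ∏ i ∈ s, b i| ≤ #s * B ^ #s * η := by
  classical
  induction s using Finset.induction_on with
  | empty => simp
  | insert j s hj ih =>
    rw [prod_insert hj, prod_insert hj, card_insert_of_notMem hj]
    have h1 := ha j (mem_insert_self _ _)
    have h3 := hab j (mem_insert_self _ _)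
    have h4 := ih (fun i hi => ha i (mem_insert_of_mem hi))
      (fun i hi => hb i (mem_insert_of_mem hi)) (fun i hi => hab i (mem_insert_of_mem hi))
    have hη : 0 ≤ η := (abs_nonneg _).trans h3
    have h5 : |∏ i ∈ s, b i| ≤ B ^ #s := by
      rw [abs_prod]
      calc ∏ i ∈ s, |b i| ≤ ∏ _i ∈ s, B := Finset.prod_le_prod (fun i _ => abs_nonneg _)
            (fun i hi => hb i (mem_insert_of_mem hi))
        _ = B ^ #s := by rw [prod_const]
    have e : a j * ∏ i ∈ s, a i - b j * ∏ i ∈ s, b i =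
        a j * (∏ i ∈ s, a i - ∏ i ∈ s, b i) + (a j - b j) * ∏ i ∈ s, b i := by ring
    rw [e]
    calc B * |a j * (∏ i ∈ s, a i - ∏ i ∈ s, b i) + (a j - b j) * ∏ i ∈ s, b i|
        ≤ B * (|a j * (∏ i ∈ s, a i - ∏ i ∈ s, b i)| + |(a j - b j) * ∏ i ∈ s, b i|) :=
          mul_le_mul_of_nonneg_left (abs_add_le _ _) hB
      _ = |a j| * (B * |∏ i ∈ s, a i - ∏ i ∈ s, b i|) + B * (|a j - b j| * |∏ i ∈ s, b i|) := by
          rw [abs_mul, abs_mul]; ring
      _ ≤ B * (#s * B ^ #s * η) + B * (η * B ^ #s) := by gcongr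
      _ = _ := by push_cast; ring

theorem bx_sum (D L : ℕ) [NeZero L] (Y : ℕ) (hL : L ≤ 2 * Y + 1) (F : (Fin D → ZMod L) → ℂ)
    (hF : ∀ x, ‖F x‖ ≤ 1) :
    ‖∑ z ∈ bx D Y, F (fun i => (z i : ZMod L)) - (((2 * Y + 1 : ℝ) / L) ^ D : ℝ) * ∑ x, F x‖ ≤
      D * 2 ^ D * (2 * Y + 1) ^ D * (L / (2 * Y + 1)) := by
  classical
  have hL0 : 0 < L := Nat.pos_of_ne_zero (NeZero.ne L)
  have hL0' : (0 : ℝ) < L := by exact_mod_cast hL0
  set c : ZMod L → ℝ := fun x => (#((iv Y).filter (fun a : ℤ => (a : ZMod L) = x)) : ℝ) with hc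
  have hcount : ∀ x, |c x - (2 * Y + 1) / L| ≤ 1 := fun x => iv_count L hL0 Y x
  have h1 : ∑ z ∈ bx D Y, F (fun i => (z i : ZMod L)) =
      ∑ x : Fin D → ZMod L, ((∏ i, c (x i) : ℝ) : ℂ) * F x := by
    rw [← sum_fiberwise (bx D Y) (fun z => (fun i => (z i : ZMod L)))]
    apply sum_congr rfl
    intro x _
    have h2 : ∀ z ∈ (bx D Y).filter (fun z => (fun i => (z i : ZMod L)) = x),
        F (fun i => (z i : ZMod L)) = F x := by
      intro z hz
      rw [mem_filter] at hz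
      rw [hz.2]
    rw [sum_congr rfl h2, sum_const, nsmul_eq_mul]
    congr 1
    have h3 : (bx D Y).filter (fun z => (fun i => (z i : ZMod L)) = x) =
        Fintype.piFinset (fun i => (iv Y).filter (fun a : ℤ => (a : ZMod L) = x i)) := by
      ext z
      simp only [bx, mem_filter, Fintype.mem_piFinset, funext_iff]
      exact ⟨fun h i => ⟨h.1 i, h.2 i⟩, fun h => ⟨fun i => (h i).1, fun i => (h i).2⟩⟩
    rw [h3, Fintype.card_piFinset]
    simp only [hc]
    push_cast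
    rfl
  set M : ℝ := 2 * Y + 1 with hM
  have hM0 : 0 < M := by positivity
  have hLM : (L : ℝ) ≤ M := by
    rw [hM]; exact_mod_cast hL
  set B : ℝ := 2 * M / L with hBd
  have hB0 : 0 < B := by positivity
  have hML1 : 1 ≤ M / L := by rw [le_div_iff₀ hL0']; linarith
  have hBML : M / L + 1 ≤ B := by
    rw [hBd, mul_div_assoc]; linarith
  rw [h1, mul_sum, ← sum_sub_distrib]
  have h4 : ∀ x ∈ (univ : Finset (Fin D → ZMod L)),
      ‖((∏ i, c (x i) : ℝ) : ℂ) * F x - (((M / L) ^ D : ℝ) : ℂ) * F x‖ ≤ D * B ^ D / B := by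
    intro x _
    rw [← sub_mul, ← Complex.ofReal_sub, norm_mul, Complex.norm_real, Real.norm_eq_abs]
    have h5 : |∏ i, c (x i) - (M / L) ^ D| ≤ D * B ^ D / B := by
      have h6 := prod_diff (univ : Finset (Fin D)) (fun i => c (x i)) (fun _ => M / L) B 1 hB0.le
        (fun i _ => by
          have h7 := hcount (x i)
          have h8 : |c (x i)| ≤ |M / L| + 1 := by
            have := abs_sub_abs_le_abs_sub (c (x i)) (M / L)
            linarith
          rw [abs_of_nonneg (by positivity : 0 ≤ M / L)] at h8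
          linarith) (fun i _ => by
          rw [abs_of_nonneg (by positivity : 0 ≤ M / L)]
          linarith) (fun i _ => hcount (x i))
      rw [prod_const, card_univ, Fintype.card_fin, mul_one] at h6
      rw [le_div_iff₀ hB0, mul_comm]
      exact h6
    calc |∏ i, c (x i) - (M / L) ^ D| * ‖F x‖ ≤ (D * B ^ D / B) * 1 :=
          mul_le_mul h5 (hF x) (norm_nonneg _) (by positivity)
      _ = _ := mul_one _
  refine (norm_sum_le _ _).trans ((sum_le_sum h4).trans ?_)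
  rw [sum_const, nsmul_eq_mul, card_univ, Fintype.card_fun, ZMod.card, Fintype.card_fin]
  push_cast
  have h5 : (L : ℝ) ^ D * (D * B ^ D / B) = D * (2 ^ D * M ^ D) * (L / (2 * M)) := by
    rw [hBd, div_pow, mul_pow]
    field_simp
  rw [h5]
  have h6 : (L : ℝ) / (2 * M) ≤ L / M := by
    apply div_le_div_of_nonneg_left hL0'.le hM0
    linarith
  calc (D : ℝ) * (2 ^ D * M ^ D) * (L / (2 * M)) ≤ D * (2 ^ D * M ^ D) * (L / M) :=
        mul_le_mul_of_nonneg_left h6 (by positivity)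
    _ = _ := by ring

/-! ### periodic functions on the ring -/

section

variable {n : ℕ} [NeZero n] {R : Type} [CommRing R] (Y : Cyc n R)

/-- the element with given coordinates -/
noncomputable def Cyc.el (v : Fin n.totient → ℤ) : R := ∑ i, v i • Y.b i

lemma Cyc.el_sub (v w : Fin n.totient → ℤ) : Y.el v - Y.el w = Y.el (fun i => v i - w i) := by
  unfold Cyc.el
  rw [← sum_sub_distrib]
  exact sum_congr rfl fun i _ => (sub_smul _ _ _).symm

lemma Cyc.repr_el (v : Fin n.totient → ℤ) (i : Fin n.totient) : Y.b.repr (Y.el v) i = v i := by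
  unfold Cyc.el
  rw [Module.Basis.repr_sum_self]

lemma Cyc.el_repr (α : R) : Y.el (fun i => Y.b.repr α i) = α := Y.b.sum_repr α

/-- periodic modulo `L` -/
def Pr (L : ℕ) (f : R → ℂ) : Prop := ∀ α β : R, ((L : ℤ) : R) ∣ α - β → f α = f β

/-- the lift of a residue class -/
noncomputable def Cyc.lf {L : ℕ} (x : Fin n.totient → ZMod L) : R :=
  Y.el (fun i => ((x i).val : ℤ))

/-- the complete sum -/
noncomputable def Cyc.cp (L : ℕ) [NeZero L] (f : R → ℂ) : ℂ :=
  ∑ x : Fin n.totient → ZMod L, f (Y.lf x)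

lemma Cyc.lf_dvd (L : ℕ) [NeZero L] (z : Fin n.totient → ℤ) :
    ((L : ℤ) : R) ∣ Y.el z - Y.lf (fun i => (z i : ZMod L)) := by
  rw [Y.dvd_iff]
  intro i
  unfold Cyc.lf
  rw [Y.el_sub, Y.repr_el, ← ZMod.intCast_zmod_eq_zero_iff_dvd]
  simp

theorem Cyc.bx_cp (L : ℕ) [NeZero L] (y : ℕ) (hL : L ≤ 2 * y + 1)
    (f : R → ℂ) (hf : Pr L f) (hb : ∀ α, ‖f α‖ ≤ 1) :
    ‖∑ z ∈ bx n.totient y, f (Y.el z) - (((2 * y + 1 : ℝ) / L) ^ n.totient : ℝ) * Y.cp L f‖ ≤
      n.totient * 2 ^ n.totient * (2 * y + 1) ^ n.totient * (L / (2 * y + 1)) := by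
  have h := bx_sum n.totient L y hL (fun x => f (Y.lf x)) (fun x => hb _)
  have h1 : ∑ z ∈ bx n.totient y, f (Y.el z) =
      ∑ z ∈ bx n.totient y, f (Y.lf (fun i => (z i : ZMod L))) :=
    sum_congr rfl fun z _ => hf _ _ (Y.lf_dvd L z)
  rw [h1]
  exact h

theorem Cyc.cp_zero [IsDomain R] (L : ℕ) [NeZero L] (f : R → ℂ) (hf : Pr L f)
    (β : R) (hβ : IsCoprime (Y.nm β) (L : ℤ)) (c : ℂ) (hc : c ≠ 1)
    (hfb : ∀ α, f (β * α) = c * f α) : Y.cp L f = 0 := by
  obtain ⟨β', hβ'⟩ := Y.adj β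
  set T : (Fin n.totient → ZMod L) → (Fin n.totient → ZMod L) := fun x i =>
    ((Y.b.repr (β * Y.lf x) i : ℤ) : ZMod L) with hT
  have hTd : ∀ x, ((L : ℤ) : R) ∣ β * Y.lf x - Y.lf (T x) := by
    intro x
    have := Y.lf_dvd L (fun i => Y.b.repr (β * Y.lf x) i)
    rwa [Y.el_repr] at this
  have hinj : Function.Injective T := by
    intro x y hxy
    have h1 : ((L : ℤ) : R) ∣ β * (Y.lf x - Y.lf y) := by
      have e : β * (Y.lf x - Y.lf y) = (β * Y.lf x - Y.lf (T x)) - (β * Y.lf y - Y.lf (T y)) := by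
        rw [hxy]; ring
      rw [e]
      exact dvd_sub (hTd x) (hTd y)
    have h2 : ((L : ℤ) : R) ∣ ((Y.nm β : ℤ) : R) * (Y.lf x - Y.lf y) := by
      rw [← hβ', mul_comm β, mul_assoc]
      exact Dvd.dvd.mul_left h1 _
    have h3 : ((L : ℤ) : R) ∣ Y.lf x - Y.lf y := by
      obtain ⟨u, v, huv⟩ := hβ
      have e : Y.lf x - Y.lf y = (u : R) * (((Y.nm β : ℤ) : R) * (Y.lf x - Y.lf y)) +
          ((L : ℤ) : R) * ((v : R) * (Y.lf x - Y.lf y)) := by
        have : ((u * Y.nm β + v * L : ℤ) : R) = 1 := by rw [huv, Int.cast_one]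
        push_cast at this
        push_cast
        linear_combination (-(Y.lf x - Y.lf y)) * this
      rw [e]
      exact dvd_add (Dvd.dvd.mul_left h2 _) (dvd_mul_right _ _)
    rw [Y.dvd_iff] at h3
    funext i
    have h4 := h3 i
    unfold Cyc.lf at h4
    rw [Y.el_sub, Y.repr_el, ← ZMod.intCast_zmod_eq_zero_iff_dvd] at h4
    push_cast at h4
    simpa [sub_eq_zero] using h4
  have hbij : Function.Bijective T := Finite.injective_iff_bijective.mp hinj
  have h1 : Y.cp L f = c * Y.cp L f := by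
    unfold Cyc.cp
    conv_lhs => rw [← Function.Bijective.sum_comp hbij (fun x => f (Y.lf x))]
    rw [mul_sum]
    apply sum_congr rfl
    intro x _
    rw [← hfb]
    exact (hf _ _ (hTd x)).symm
  have h2 : (1 - c) * Y.cp L f = 0 := by rw [sub_mul, one_mul, ← h1, sub_self]
  rcases mul_eq_zero.mp h2 with h3 | h3
  · exact absurd (sub_eq_zero.mp h3).symm hc
  · exact h3

end

end Pool.Agent.T9h29.CY
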