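import Mathlib
import Pool.Agent.T9h29.CY.Box

set_option autoImplicit false

/-! # The number of zeros of the norm form -/

namespace Pool.Agent.T9h29.CY

open Finset

lemma exists_root (n l : ℕ) (hn : 0 < n) [hl : Fact l.Prime] (h : n ∣ l - 1) :
    ∃ y : ZMod l, IsPrimitiveRoot y n := by
  obtain ⟨g, hg⟩ := (inferInstance : IsCyclic (ZMod l)ˣ).exists_generator
  have ho : orderOf g = l - 1 := by
    rw [orderOf_eq_card_of_forall_mem_zpowers hg, Nat.card_eq_fintype_card, ZMod.card_units]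
  have hl1 : 0 < l - 1 := by have := hl.out.one_lt; omega
  have h1 : IsPrimitiveRoot g (l - 1) := by rw [← ho]; exact IsPrimitiveRoot.orderOf g
  have h2 : IsPrimitiveRoot (g : ZMod l) (l - 1) := IsPrimitiveRoot.coe_units_iff.mpr h1
  obtain ⟨k, hk⟩ := h
  exact ⟨(g : ZMod l) ^ k, h2.pow hl1 (by rw [hk, mul_comm])⟩

section

variable {n : ℕ} [NeZero n] {R : Type} [CommRing R] (Y : Cyc n R)

open Classical in
/-- the number of zeros of the norm form modulo `L` -/
noncomputable def Cyc.zr (L : ℕ) [NeZero L] : ℕ :=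
  #((univ : Finset (Fin n.totient → ZMod L)).filter (fun x => (L : ℤ) ∣ Y.nm (Y.lf x)))

open Classical in
lemma Cyc.cp_dvd (L : ℕ) [NeZero L] :
    Y.cp L (fun α => if (L : ℤ) ∣ Y.nm α then (1 : ℂ) else 0) = Y.zr L := by
  unfold Cyc.cp Cyc.zr
  rw [sum_ite, sum_const_zero, add_zero, sum_const, nsmul_eq_mul, mul_one]

lemma Cyc.zr_one : Y.zr 1 = 1 := by
  classical
  unfold Cyc.zr
  rw [filter_true_of_mem (fun x _ => by simp), card_univ]
  simp

variable [IsDomain R]

lemma Cyc.nm_per_iff (m : ℕ) (α β : R) (h : ((m : ℤ) : R) ∣ α - β) :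
    (m : ℤ) ∣ Y.nm α ↔ (m : ℤ) ∣ Y.nm β := by
  have h1 := Y.nm_per m α β h
  constructor
  · intro h2
    have : Y.nm β = Y.nm α - (Y.nm α - Y.nm β) := by ring
    rw [this]; exact dvd_sub h2 h1
  · intro h2
    have : Y.nm α = Y.nm β + (Y.nm α - Y.nm β) := by ring
    rw [this]; exact dvd_add h2 h1

lemma Cyc.zr_mul (m k : ℕ) [NeZero m] [NeZero k] [NeZero (m * k)] (h : m.Coprime k) :
    Y.zr (m * k) = Y.zr m * Y.zr k := by
  classical
  unfold Cyc.zr
  rw [← card_product]
  set e := ZMod.chineseRemainder h with he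
  have he1 : ∀ r : ZMod (m * k), (e r).1 = ((r.val : ℕ) : ZMod m) ∧
      (e r).2 = ((r.val : ℕ) : ZMod k) := by
    intro r
    have h1 : e r = ((r.val : ℕ) : ZMod m × ZMod k) := by
      conv_lhs => rw [← ZMod.natCast_zmod_val r]
      rw [map_natCast]
    rw [h1]
    exact ⟨rfl, rfl⟩
  have hm : ∀ x : Fin n.totient → ZMod (m * k),
      ((m : ℤ) : R) ∣ Y.lf x - Y.lf (fun i => (e (x i)).1) := by
    intro x
    rw [Y.dvd_iff]
    intro i
    unfold Cyc.lf
    rw [Y.el_sub, Y.repr_el, ← ZMod.intCast_zmod_eq_zero_iff_dvd]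
    push_cast
    rw [(he1 (x i)).1]
    simp
  have hk : ∀ x : Fin n.totient → ZMod (m * k),
      ((k : ℤ) : R) ∣ Y.lf x - Y.lf (fun i => (e (x i)).2) := by
    intro x
    rw [Y.dvd_iff]
    intro i
    unfold Cyc.lf
    rw [Y.el_sub, Y.repr_el, ← ZMod.intCast_zmod_eq_zero_iff_dvd]
    push_cast
    rw [(he1 (x i)).2]
    simp
  have hco : IsCoprime (m : ℤ) (k : ℤ) := Nat.isCoprime_iff_coprime.mpr h
  have hiff : ∀ x : Fin n.totient → ZMod (m * k), ((m * k : ℕ) : ℤ) ∣ Y.nm (Y.lf x) ↔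
      (m : ℤ) ∣ Y.nm (Y.lf (fun i => (e (x i)).1)) ∧
      (k : ℤ) ∣ Y.nm (Y.lf (fun i => (e (x i)).2)) := by
    intro x
    rw [← Y.nm_per_iff m _ _ (hm x), ← Y.nm_per_iff k _ _ (hk x)]
    push_cast
    exact ⟨fun h1 => ⟨(dvd_mul_right _ _).trans h1, (dvd_mul_left _ _).trans h1⟩,
      fun h1 => hco.mul_dvd h1.1 h1.2⟩
  apply card_bij' (i := fun x _ => ((fun i => (e (x i)).1), (fun i => (e (x i)).2)))
    (j := fun y _ => (fun i => e.symm (y.1 i, y.2 i)))
  · intro x hx
    rw [mem_filter] at hx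
    rw [mem_product, mem_filter, mem_filter]
    have := (hiff x).mp hx.2
    exact ⟨⟨mem_univ _, this.1⟩, ⟨mem_univ _, this.2⟩⟩
  · intro y hy
    rw [mem_product, mem_filter, mem_filter] at hy
    rw [mem_filter]
    refine ⟨mem_univ _, ?_⟩
    rw [hiff]
    simp only [RingEquiv.apply_symm_apply]
    exact ⟨hy.1.2, hy.2.2⟩
  · intro x _
    simp
  · intro y _
    simp

/-- the density -/
noncomputable def den (D p : ℕ) : ℝ := 1 - (1 - 1 / (p : ℝ)) ^ D

lemma Cyc.zr_prime (l : ℕ) [hl : Fact l.Prime] (h : n ∣ l - 1) :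
    (Y.zr l : ℝ) = (l : ℝ) ^ n.totient * den n.totient l := by
  classical
  obtain ⟨y, hy⟩ := exists_root n l (NeZero.pos n) h
  set T : (Fin n.totient → ZMod l) → ((ZMod n)ˣ → ZMod l) := fun x t =>
    Y.evp (pow_val_prim hy t) (Y.lf x) with hT
  have hinj : Function.Injective T := by
    intro x x' hxx
    have h1 := Y.ker_inter l y hy (Y.lf x - Y.lf x') (by
      intro t
      rw [map_sub, sub_eq_zero]
      exact congrFun hxx t)
    rw [Y.dvd_iff] at h1
    funext i
    have h4 := h1 i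
    unfold Cyc.lf at h4
    rw [Y.el_sub, Y.repr_el, ← ZMod.intCast_zmod_eq_zero_iff_dvd] at h4
    push_cast at h4
    simpa [sub_eq_zero] using h4
  have hbij : Function.Bijective T := by
    rw [Fintype.bijective_iff_injective_and_card]
    refine ⟨hinj, ?_⟩
    rw [Fintype.card_fun, Fintype.card_fun, Fintype.card_fin, ZMod.card_units_eq_totient]
  have hnm : ∀ x, (l : ℤ) ∣ Y.nm (Y.lf x) ↔ ∃ t, T x t = 0 := by
    intro x
    rw [← ZMod.intCast_zmod_eq_zero_iff_dvd, Y.map_nm (Y.evp hy), prod_eq_zero_iff]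
    simp only [mem_univ, true_and]
    apply exists_congr
    intro t
    have : (Y.evp hy).comp (Y.sg t) = Y.evp (pow_val_prim hy t) := by
      apply Y.ext
      rw [RingHom.comp_apply, Y.sg_z, map_pow, Y.evp_z, Y.evp_z]
    rw [hT]
    simp only
    rw [← this]
    rfl
  have hcard : Y.zr l + (l - 1) ^ n.totient = l ^ n.totient := by
    unfold Cyc.zr
    have h1 := card_filter_add_card_filter_not (s := (univ : Finset (Fin n.totient → ZMod l)))
      (fun x => (l : ℤ) ∣ Y.nm (Y.lf x))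
    rw [card_univ, Fintype.card_fun, ZMod.card, Fintype.card_fin] at h1
    rw [← h1]
    congr 1
    have h2 : #((univ : Finset (Fin n.totient → ZMod l)).filter
        (fun x => ¬ (l : ℤ) ∣ Y.nm (Y.lf x))) =
        #(Fintype.piFinset (fun _ : (ZMod n)ˣ => (univ : Finset (ZMod l)).erase 0)) := by
      apply card_bij (fun x _ => T x)
      · intro x hx
        rw [mem_filter, hnm] at hx
        rw [Fintype.mem_piFinset]
        intro t
        rw [mem_erase]
        exact ⟨fun h0 => hx.2 ⟨t, h0⟩, mem_univ _⟩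
      · intro x _ x' _ hxx
        exact hinj hxx
      · intro w hw
        rw [Fintype.mem_piFinset] at hw
        obtain ⟨x, hx⟩ := hbij.2 w
        refine ⟨x, ?_, hx⟩
        rw [mem_filter, hnm]
        refine ⟨mem_univ _, ?_⟩
        rintro ⟨t, ht⟩
        rw [hx] at ht
        exact (mem_erase.mp (hw t)).1 ht
    rw [h2, Fintype.card_piFinset, prod_const, card_univ, ZMod.card_units_eq_totient,
      card_erase_of_mem (mem_univ _), card_univ, ZMod.card]
  have h3 : (Y.zr l : ℝ) + ((l : ℝ) - 1) ^ n.totient = (l : ℝ) ^ n.totient := by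
    have := congrArg (fun k : ℕ => (k : ℝ)) hcard
    push_cast at this
    rw [Nat.cast_sub hl.out.one_le] at this
    exact_mod_cast this
  have hl0 : (l : ℝ) ≠ 0 := by exact_mod_cast hl.out.ne_zero
  rw [den, mul_sub, ← mul_pow, mul_sub, mul_one_div_cancel hl0, mul_one, mul_one]
  linarith

end

end Pool.Agent.T9h29.CY
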