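import Mathlib
import Pool.Agent.T9h29.CY.Gau
import Pool.Agent.T9h29.CY.Kf
import Pool.Agent.T9h29.CY.Zer
import Pool.Agent.R361.QF.Gi

set_option autoImplicit false

/-! # The symbols and the reciprocity law -/

namespace Pool.Agent.T9h29.CY

open Finset
open Pool.Agent.R361.QF (lf lf_pow lf_mul lf_one lf_val lf_prim lf_ne)

/-- the symbol data at a prime `q` -/
structure SymAt {n : ℕ} [NeZero n] {R : Type} [CommRing R] [IsDomain R] (Y : Cyc n R) {ζ : ℂ}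
    (hζ : IsPrimitiveRoot ζ n) (q : ℕ) (ψ : R → ℂ) (τ : (ZMod n → R) → ℂ) : Prop where
  one : ψ 1 = 1
  mul : ∀ α β, ψ (α * β) = ψ α * ψ β
  per : Pr q ψ
  val : ∀ α, ψ α = 0 ∨ ψ α ^ n = 1
  ne : ∀ α, ¬ (q : ℤ) ∣ Y.nm α → ψ α ≠ 0
  gen : ∃ β : R, ¬ (q : ℤ) ∣ Y.nm β ∧ IsPrimitiveRoot (ψ β) n
  tau : ∀ κ, τ κ ^ n = 1
  recip : ∀ (p : ℕ) [Fact p.Prime], p ≠ q → ∀ (χ : MulChar (ZMod p) R) (g : (ZMod p)ˣ),
    (∀ x, x ∈ Subgroup.zpowers g) → χ g = Y.z → ∀ (α : R) (κ : ZMod n → R),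
    ¬ (q : ℤ) ∣ Y.nm α → (∀ i, κ i * cI χ i = Y.PS α i) →
      Y.evp hζ (χ (q : ZMod p)) = τ κ * ψ α

section

variable {n : ℕ} [NeZero n] {R : Type} [CommRing R] [IsDomain R] (Y : Cyc n R)

lemma exists_sym {ζ : ℂ} (hζ : IsPrimitiveRoot ζ n) (hn : 1 < n) (q : ℕ)
    [hq : Fact q.Prime] (hqn : ¬ q ∣ n) :
    ∃ (ψ : R → ℂ) (τ : (ZMod n → R) → ℂ), SymAt Y hζ q ψ τ := by
  classical
  obtain ⟨k, hk1, hk2, hk3, z, hz, hsurj⟩ := Y.exists_k q hqn
  have hn0 : 0 < n := NeZero.pos n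
  have hn1 : Fact (1 < n) := ⟨hn⟩
  have hcop : q.Coprime n := (Nat.Prime.coprime_iff_not_dvd hq.out).mpr hqn
  set u : (ZMod n)ˣ := ZMod.unitOfCoprime q hcop with hu
  have huq : (u : ZMod n) = q := ZMod.coe_unitOfCoprime q hcop
  set e : ℕ := ((u⁻¹ : (ZMod n)ˣ) : ZMod n).val with he
  set e' : ℕ := ((-u⁻¹ : (ZMod n)ˣ) : ZMod n).val with he'
  have hee : n ∣ e + e' := by
    rw [← ZMod.natCast_eq_zero_iff]
    push_cast
    rw [he, he', ZMod.natCast_zmod_val, ZMod.natCast_zmod_val, Units.val_neg, add_neg_cancel]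
  have he'c : e'.Coprime n := ZMod.val_coe_unit_coprime _
  have hqe : ((q * e : ℕ) : ZMod n) = 1 := by
    push_cast
    rw [he, ZMod.natCast_zmod_val, ← huq, Units.mul_inv]
  have hEn : ∀ α, ¬ (q : ℤ) ∣ Y.nm α → Y.E hz q α ^ n = 1 := Y.E_pow hz u huq
  have hEn' : ∀ α, ¬ (q : ℤ) ∣ Y.nm α → (Y.E hz q α ^ e') ^ n = 1 := by
    intro α hα
    rw [← pow_mul, mul_comm, pow_mul, hEn α hα, one_pow]
  set ψ : R → ℂ := fun α => if (q : ℤ) ∣ Y.nm α then 0 else lf z ζ (Y.E hz q α ^ e') with hψ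
  set lam : (ZMod n → R) → k := fun κ => ∏ i ∈ Ico 1 q, Y.evp hz (κ ((i : ℕ) : ZMod n)) with hlam
  set τ : (ZMod n → R) → ℂ := fun κ => if lam κ ^ n = 1 then lf z ζ (lam κ ^ e) else 1 with hτ
  refine ⟨ψ, τ, ?_, ?_, ?_, ?_, ?_, ?_, ?_, ?_⟩
  · have h1 : ¬ (q : ℤ) ∣ Y.nm 1 := by
      rw [map_one]
      intro h
      have := Int.isUnit_iff.mp (isUnit_of_dvd_one h)
      have hq2 := hq.out.two_le
      omega
    simp only [hψ]
    rw [if_neg h1, Y.E_one, one_pow, lf_one hz hζ hn0]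
  · intro α β
    simp only [hψ]
    rw [map_mul]
    by_cases h1 : (q : ℤ) ∣ Y.nm α
    · rw [if_pos (Dvd.dvd.mul_right h1 _), if_pos h1, zero_mul]
    by_cases h2 : (q : ℤ) ∣ Y.nm β
    · rw [if_pos (Dvd.dvd.mul_left h2 _), if_pos h2, mul_zero]
    have h3 : ¬ (q : ℤ) ∣ Y.nm α * Y.nm β := by
      intro h
      rcases (Nat.prime_iff_prime_int.mp hq.out).dvd_or_dvd h with h | h
      · exact h1 h
      · exact h2 h
    rw [if_neg h1, if_neg h2, if_neg h3, Y.E_mul, mul_pow]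
    exact lf_mul hz hζ hn0 (Or.inr (hEn' α h1)) (Or.inr (hEn' β h2))
  · intro α β h
    simp only [hψ]
    have h1 := Y.nm_per_iff q α β h
    rw [Y.E_per hz α β h]
    by_cases h2 : (q : ℤ) ∣ Y.nm α
    · rw [if_pos h2, if_pos (h1.mp h2)]
    · rw [if_neg h2, if_neg (fun h3 => h2 (h1.mpr h3))]
  · intro α
    simp only [hψ]
    split_ifs with h1
    · left; rfl
    · exact lf_val hz hζ hn0 (Or.inr (hEn' α h1))
  · intro α hα
    simp only [hψ]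
    rw [if_neg hα]
    exact lf_ne hz hζ hn0 (hEn' α hα)
  · obtain ⟨β, hβ1, hβ2⟩ := Y.exists_beta hz (q := q) hn hsurj u huq
    refine ⟨β, hβ1, ?_⟩
    simp only [hψ]
    rw [if_neg hβ1]
    exact lf_prim hz hζ hn0 (hβ2.pow_of_coprime e' he'c)
  · intro κ
    simp only [hτ]
    split_ifs with h1
    · have h2 : (lam κ ^ e) ^ n = 1 := by rw [← pow_mul, mul_comm, pow_mul, h1, one_pow]
      rcases lf_val hz hζ hn0 (Or.inr h2) with h3 | h3
      · exact absurd h3 (lf_ne hz hζ hn0 h2)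
      · exact h3
    · rw [one_pow]
  · intro p hp hpq χ g hg hχ α κ hα hκ
    have h1 := rec_cyc Y hg hχ hn q hqn hpq hz
    have hcopr : Nat.Coprime q p := (Nat.coprime_primes hq.out hp.out).2 (Ne.symm hpq)
    obtain ⟨i, hi⟩ := exists_pow_gen hg (ZMod.unitOfCoprime q hcopr)
    have hχq : χ ((q : ℕ) : ZMod p) = Y.z ^ i := by
      rw [← ZMod.coe_unitOfCoprime q hcopr, hi, Units.val_pow_eq_pow_val, map_pow, hχ]
    rw [hχq, map_pow, Y.evp_z]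
    rw [hχq, map_pow, Y.evp_z] at h1
    have hE : Y.E hz q α = lam κ * ∏ i ∈ Ico 1 q, Y.evp hz (cI χ ((i : ℕ) : ZMod n)) := by
      rw [Y.E_eq, hlam, ← prod_mul_distrib]
      apply prod_congr rfl
      intro j _
      rw [← hκ, map_mul]
    have hl : (z ^ i) ^ q * Y.E hz q α = lam κ := by
      rw [hE]
      linear_combination (lam κ) * h1
    have hln : lam κ ^ n = 1 := by
      rw [← hl, mul_pow, hEn α hα, mul_one, ← pow_mul, ← pow_mul,
        show i * (q * n) = n * (i * q) by ring, pow_mul, hz.pow_eq_one, one_pow]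
    have hx : lam κ ^ e * Y.E hz q α ^ e' = z ^ i := by
      rw [← hl, mul_pow, mul_assoc, ← pow_add]
      obtain ⟨c, hc⟩ := hee
      rw [hc, pow_mul, hEn α hα, one_pow, mul_one, ← pow_mul, ← pow_mul]
      apply pow_val_eq hz.pow_eq_one
      rw [Nat.cast_mul, hqe, mul_one]
    simp only [hψ, hτ]
    rw [if_neg hα, if_pos hln, ← lf_mul hz hζ hn0 (Or.inr (by
      rw [← pow_mul, mul_comm, pow_mul, hln, one_pow])) (Or.inr (hEn' α hα)), hx, lf_pow hz hζ hn0]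

/-- the symbols exist for all primes not dividing `n` -/
lemma exists_syms {ζ : ℂ} (hζ : IsPrimitiveRoot ζ n) (hn : 1 < n) :
    ∃ (ψ : ℕ → R → ℂ) (τ : ℕ → (ZMod n → R) → ℂ), ∀ q : ℕ, q.Prime → ¬ q ∣ n →
      SymAt Y hζ q (ψ q) (τ q) := by
  classical
  have h1 : ∀ q : ℕ, ∃ (ψ : R → ℂ) (τ : (ZMod n → R) → ℂ), q.Prime → ¬ q ∣ n →
      SymAt Y hζ q ψ τ := by
    intro q
    by_cases hq : q.Prime
    · by_cases hqn : q ∣ n
      · exact ⟨fun _ => 0, fun _ => 0, fun _ h => absurd hqn h⟩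
      · have : Fact q.Prime := ⟨hq⟩
        obtain ⟨ψ, τ, h⟩ := exists_sym Y hζ hn q hqn
        exact ⟨ψ, τ, fun _ _ => h⟩
    · exact ⟨fun _ => 0, fun _ => 0, fun h => absurd h hq⟩
  choose ψ τ h using h1
  exact ⟨ψ, τ, h⟩

end

end Pool.Agent.T9h29.CY
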