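import Mathlib
import Pool.Agent.R361.AC.Main
import Pool.Agent.T9h29.CY.Box

set_option autoImplicit false

/-! # Anti-concentration for products of conjugate values -/

namespace Pool.Agent.T9h29.CY

open Finset Filter Topology
open Pool.Agent.R361.AC (rt rt_pow rt_surj norm_of_pow patterns equi factorization_subprod
  sum_biUnion_le' norm_le_one zero_of_not_coprime ms_bound cheb summable_tausq tausq_tail
  smooth_approx binom_small)
open scoped ComplexConjugate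

/-- the value of the product of the Euler factors -/
noncomputable def GJ (J : Finset ℕ) (z : ℂ) (q : ℕ) : ℝ := ∏ j ∈ J, ‖1 - z ^ j / q‖⁻¹

lemma one_sub_ne (z : ℂ) (hz : ‖z‖ = 1) (q : ℕ) (hq : 1 < q) : 1 - z / q ≠ 0 := by
  intro h0
  have hq0 : (q : ℂ) ≠ 0 := by exact_mod_cast (by omega : q ≠ 0)
  have h1 : z = q := (div_eq_one_iff_eq hq0).mp (sub_eq_zero.mp h0).symm
  rw [h1, Complex.norm_natCast] at hz
  have : q = 1 := by exact_mod_cast hz
  omega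

lemma GJ_pos (J : Finset ℕ) (z : ℂ) (hz : ‖z‖ = 1) (q : ℕ) (hq : 1 < q) : 0 < GJ J z q := by
  unfold GJ
  apply prod_pos
  intro j _
  rw [inv_pos, norm_pos_iff]
  apply one_sub_ne _ _ q hq
  rw [norm_pow, hz, one_pow]

open Polynomial in
/-- the polynomial giving the product -/
noncomputable def PJ (J : Finset ℕ) (z : ℂ) : Polynomial ℂ :=
  ∏ j ∈ J, ((1 - Polynomial.C (z ^ j) * X) * (1 - Polynomial.C (conj z ^ j) * X))

lemma PJ_eval (J : Finset ℕ) (z : ℂ) (q : ℕ) :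
    (PJ J z).eval ((q : ℂ)⁻¹) = (((∏ j ∈ J, ‖1 - z ^ j / q‖) ^ 2 : ℝ) : ℂ) := by
  unfold PJ
  rw [Polynomial.eval_prod, ← prod_pow]
  push_cast
  apply prod_congr rfl
  intro j _
  simp only [Polynomial.eval_mul, Polynomial.eval_sub, Polynomial.eval_one, Polynomial.eval_C,
    Polynomial.eval_X]
  rw [← Complex.mul_conj']
  congr 1
  rw [map_sub, map_one, map_div₀, map_pow, Complex.conj_natCast, div_eq_mul_inv]

lemma PJ_ne (h : ℕ) (hh : 0 < h) (J : Finset ℕ) (hJ : ∀ j ∈ J, j.Coprime (2 * h)) (hJ1 : 1 ∈ J)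
    (z w : ℂ) (hz : z ^ h = 1) (hw : w ^ h = -1) : PJ J z ≠ PJ J w := by
  intro heq
  have hzn : ‖z‖ = 1 := norm_of_pow h hh z hz
  have hz0 : z ≠ 0 := by intro h0; rw [h0, norm_zero] at hzn; norm_num at hzn
  have h1 : (PJ J z).eval z⁻¹ = 0 := by
    unfold PJ
    rw [Polynomial.eval_prod]
    apply prod_eq_zero hJ1
    simp only [Polynomial.eval_mul, Polynomial.eval_sub, Polynomial.eval_one, Polynomial.eval_C,
      Polynomial.eval_X, pow_one]
    rw [mul_inv_cancel₀ hz0, sub_self, zero_mul]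
  rw [heq] at h1
  unfold PJ at h1
  rw [Polynomial.eval_prod, prod_eq_zero_iff] at h1
  obtain ⟨j, hj, hj0⟩ := h1
  simp only [Polynomial.eval_mul, Polynomial.eval_sub, Polynomial.eval_one, Polynomial.eval_C,
    Polynomial.eval_X] at hj0
  have hodd : Odd j := by
    have := Nat.Coprime.coprime_dvd_right (dvd_mul_right 2 h) (hJ j hj)
    rwa [Nat.coprime_two_right] at this
  have hwn : ‖w‖ = 1 := by
    apply norm_of_pow (h * 2) (by omega) w
    rw [pow_mul, hw]; norm_num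
  have key : ∀ u : ℂ, u ^ h = -1 → 1 - u ^ j * z⁻¹ = 0 → False := by
    intro u hu h2
    have h3 : u ^ j = z := by
      have := sub_eq_zero.mp h2
      field_simp at this
      exact this.symm
    have h4 : (u ^ j) ^ h = 1 := by rw [h3, hz]
    rw [← pow_mul, mul_comm, pow_mul, hu, hodd.neg_one_pow] at h4
    norm_num at h4
  rcases mul_eq_zero.mp hj0 with h2 | h2
  · exact key w hw h2
  · apply key (conj w) _ h2
    rw [← map_pow, hw, map_neg, map_one]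

/-- for large `q` the values at `rt (r,false)` and `rt (r,true)` differ -/
lemma GJ_ne (h : ℕ) (hh : 0 < h) (ζ : ℂ) (hζ : IsPrimitiveRoot ζ (2 * h)) (J : Finset ℕ)
    (hJ : ∀ j ∈ J, j.Coprime (2 * h)) (hJ1 : 1 ∈ J) :
    ∃ q0 : ℕ, ∀ q ≥ q0, ∀ r : Fin h, GJ J (rt ζ h (r, false)) q ≠ GJ J (rt ζ h (r, true)) q := by
  have hζh : ζ ^ h = -1 := by
    have h3 : (ζ ^ h) ^ 2 = 1 := by rw [← pow_mul, mul_comm, hζ.pow_eq_one]
    rcases mul_self_eq_one_iff.mp ((sq _).symm.trans h3) with h4 | h4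
    · exfalso
      have := (hζ.pow_eq_one_iff_dvd h).mp h4
      have := Nat.le_of_dvd hh this
      omega
    · exact h4
  have hone : ∀ r : Fin h, ∃ q0 : ℕ, ∀ q ≥ q0,
      GJ J (rt ζ h (r, false)) q ≠ GJ J (rt ζ h (r, true)) q := by
    intro r
    have hzh : rt ζ h (r, false) ^ h = 1 := by
      unfold rt
      rw [← pow_mul]
      simp only [Bool.false_eq_true, if_false, add_zero]
      rw [show 2 * (r : ℕ) * h = 2 * h * r by ring, pow_mul, hζ.pow_eq_one, one_pow]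
    have hwh : rt ζ h (r, true) ^ h = -1 := by
      unfold rt
      rw [← pow_mul]
      simp only [if_true]
      rw [show (2 * (r : ℕ) + 1) * h = 2 * h * r + h by ring, pow_add, pow_mul, hζ.pow_eq_one,
        one_pow, one_mul, hζh]
    set P := PJ J (rt ζ h (r, false)) - PJ J (rt ζ h (r, true)) with hP
    have hP0 : P ≠ 0 := sub_ne_zero.mpr (PJ_ne h hh J hJ hJ1 _ _ hzh hwh)
    have hfin : {q : ℕ | P.eval ((q : ℂ)⁻¹) = 0}.Finite := by
      apply Set.Finite.of_finite_image (f := fun q : ℕ => ((q : ℂ)⁻¹))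
      · apply (P.roots.toFinset.finite_toSet).subset
        rintro _ ⟨q, hq, rfl⟩
        rw [mem_coe, Multiset.mem_toFinset, Polynomial.mem_roots hP0]
        exact hq
      · intro a _ b _ hab
        simpa using hab
    obtain ⟨b, hb⟩ := hfin.bddAbove
    refine ⟨b + 1, fun q hq heq => ?_⟩
    have h1 : q ∈ {q : ℕ | P.eval ((q : ℂ)⁻¹) = 0} := by
      rw [Set.mem_ofPred_eq, hP, Polynomial.eval_sub, PJ_eval, PJ_eval, sub_eq_zero]
      have : ∏ j ∈ J, ‖1 - rt ζ h (r, false) ^ j / (q : ℂ)‖ =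
          ∏ j ∈ J, ‖1 - rt ζ h (r, true) ^ j / (q : ℂ)‖ := by
        unfold GJ at heq
        rw [prod_inv_distrib, prod_inv_distrib] at heq
        exact inv_injective heq
      rw [this]
    have := hb h1
    omega
  choose q0 hq0 using hone
  refine ⟨univ.sup q0, fun q hq r => hq0 r q ((le_sup (mem_univ r)).trans hq)⟩

lemma gapJ (h : ℕ) (hh : 0 < h) (ζ : ℂ) (hζ : IsPrimitiveRoot ζ (2 * h)) (J : Finset ℕ)
    (K : Finset ℕ) (hK : ∀ q ∈ K, 1 < q ∧ ∀ r : Fin h,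
      GJ J (rt ζ h (r, false)) q ≠ GJ J (rt ζ h (r, true)) q) :
    ∃ δ : ℝ, 0 < δ ∧ ∀ q ∈ K, ∀ r : Fin h,
      (1 + δ) * GJ J (rt ζ h (r, false)) q ≤ GJ J (rt ζ h (r, true)) q ∨
      (1 + δ) * GJ J (rt ζ h (r, true)) q ≤ GJ J (rt ζ h (r, false)) q := by
  have key : ∀ u v : ℝ, 0 < u → u < v → ∀ᶠ δ in 𝓝[>] (0 : ℝ), (1 + δ) * u ≤ v := by
    intro u v hu huv
    have h1 : Tendsto (fun δ : ℝ => (1 + δ) * u) (𝓝[>] (0 : ℝ)) (𝓝 ((1 + 0) * u)) := by
      apply tendsto_nhdsWithin_of_tendsto_nhds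
      exact ((continuous_const.add continuous_id).mul continuous_const).tendsto 0
    rw [add_zero, one_mul] at h1
    filter_upwards [h1.eventually_lt_const huv] with δ hδ
    exact hδ.le
  have hpos : ∀ q ∈ K, ∀ z, 0 < GJ J (rt ζ h z) q := fun q hq z =>
    GJ_pos J _ (norm_of_pow (2 * h) (by omega) _ (rt_pow ζ h hζ z)) q (hK q hq).1
  have h2 : ∀ᶠ δ in 𝓝[>] (0 : ℝ), ∀ q ∈ K, ∀ r : Fin h,
      (1 + δ) * GJ J (rt ζ h (r, false)) q ≤ GJ J (rt ζ h (r, true)) q ∨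
      (1 + δ) * GJ J (rt ζ h (r, true)) q ≤ GJ J (rt ζ h (r, false)) q := by
    rw [Filter.eventually_all_finset]
    intro q hq
    rw [Filter.eventually_all]
    intro r
    rcases lt_or_gt_of_ne ((hK q hq).2 r) with h5 | h5
    · filter_upwards [key _ _ (hpos q hq _) h5] with δ hδ
      exact Or.inl hδ
    · filter_upwards [key _ _ (hpos q hq _) h5] with δ hδ
      exact Or.inr hδ
  obtain ⟨δ, h3, h4⟩ := (h2.and self_mem_nhdsWithin).exists
  exact ⟨δ, h4, h3⟩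

/-- primes beyond a given bound and not dividing `Q` -/
lemma primes_far (Q : ℕ) (hQ : 0 < Q) (q0 m : ℕ) : ∃ K : Finset ℕ, #K = m ∧
    ∀ q ∈ K, q.Prime ∧ ¬ q ∣ Q ∧ q0 ≤ q := by
  have h1 : {q : ℕ | q.Prime ∧ ¬ q ∣ Q ∧ q0 ≤ q}.Infinite := by
    apply Set.infinite_of_not_bddAbove
    rintro ⟨b, hb⟩
    obtain ⟨p, hp, hpp⟩ := Nat.exists_infinite_primes (b + Q + q0 + 1)
    have h2 : p ∈ {q : ℕ | q.Prime ∧ ¬ q ∣ Q ∧ q0 ≤ q} := by
      refine ⟨hpp, fun h => ?_, by omega⟩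
      have := Nat.le_of_dvd hQ h
      omega
    have := hb h2
    omega
  obtain ⟨K, hK, hKc⟩ := h1.exists_subset_card_eq m
  exact ⟨K, hKc, fun q hq => hK hq⟩

open Classical in
theorem pattern_countJ {ι : Type*} (h : ℕ) (hh : 0 < h) (ζ : ℂ) (hζ : IsPrimitiveRoot ζ (2 * h))
    (Q : ℕ) (J : Finset ℕ)
    (Ψ : ι → ℕ →*₀ ℂ) (hΨ : ∀ a q, q.Prime → Ψ a q = 0 ∨ (Ψ a q) ^ (2 * h) = 1)
    (A : Finset ι) (W : ι → ℝ) (hW : ∀ a, 0 ≤ W a) (N : ℕ) (e : ℝ) (he : 0 ≤ e)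
    (hcorr : ∀ n n', 1 ≤ n → n ≤ N → 1 ≤ n' → n' ≤ N → n.Coprime Q → n'.Coprime Q →
      (∃ q, q.Prime ∧ ¬ n.factorization q ≡ n'.factorization q [MOD 2 * h]) →
      ‖∑ a ∈ A, (W a : ℂ) * Ψ a n * conj (Ψ a n')‖ ≤ e)
    (s : Finset ℕ) (hs : ∀ q ∈ s, q.Prime) (hsQ : ∀ q ∈ s, ¬ q ∣ Q)
    (hNs : ∏ q ∈ s, q ^ (2 * h) ≤ N) (K : Finset ℕ) (hKs : K ⊆ s) (δ : ℝ) (hδ : 0 < δ)
    (hgap : ∀ q ∈ K, ∀ r : Fin h,
      (1 + δ) * GJ J (rt ζ h (r, false)) q ≤ GJ J (rt ζ h (r, true)) q ∨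
      (1 + δ) * GJ J (rt ζ h (r, true)) q ≤ GJ J (rt ζ h (r, false)) q) (b : ℝ) :
    (∑ a ∈ A.filter (fun a => (∀ q ∈ s, Ψ a q ≠ 0) ∧ b ≤ ∏ q ∈ s, GJ J (Ψ a q) q ∧
      ∏ q ∈ s, GJ J (Ψ a q) q < (1 + δ) * b), W a) * 2 ^ #K ≤
      ((#K).choose (#K / 2) : ℝ) * ((∑ a ∈ A, W a) + (2 * h : ℝ) ^ #s * e) := by
  have hd : 0 < 2 * h := by omega
  set G : s → Fin h × Bool → ℝ := fun q z => GJ J (rt ζ h z) q with hG
  have hG0 : ∀ q z, 0 < G q z := by
    intro q z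
    exact GJ_pos J _ (norm_of_pow (2 * h) (by omega) _ (rt_pow ζ h hζ z)) q
      (hs q q.2).one_lt
  set K' : Finset s := K.subtype (· ∈ s) with hK'
  have hK'c : #K' = #K := by
    rw [hK', card_subtype, filter_true_of_mem]
    exact fun q hq => hKs hq
  have hpat := patterns h G hG0 K' δ hδ (by
    intro q hq r
    rw [hK', mem_subtype] at hq
    exact hgap q hq r) b
  rw [hK'c, Fintype.card_coe] at hpat
  set Bad := univ.filter (fun x : s → Fin h × Bool => b ≤ ∏ q, G q (x q) ∧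
      ∏ q, G q (x q) < (1 + δ) * b) with hBad
  set WT := ∑ a ∈ A, W a with hWT
  have hWT0 : 0 ≤ WT := sum_nonneg fun a _ => hW a
  -- each pattern
  have hd0 : (0 : ℝ) < ((2 * h : ℕ) : ℝ) ^ #s := by positivity
  have hone : ∀ x : s → Fin h × Bool,
      ∑ a ∈ A.filter (fun a => ∀ q : s, Ψ a q = rt ζ h (x q)), W a ≤
        (WT + (2 * h : ℝ) ^ #s * e) / ((2 * h : ℕ) : ℝ) ^ #s := by
    intro x
    rw [le_div_iff₀ hd0]
    have h1 := equi A W hW Ψ (2 * h) hd s (fun a q hq => hΨ a q (hs q hq)) e ?_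
      (fun q => rt ζ h (x q)) (fun q => rt_pow ζ h hζ _)
    · rw [abs_of_nonneg he] at h1
      refine h1.trans (le_of_eq ?_)
      push_cast
      rfl
    · rintro v hv ⟨q0, hq0⟩
      have h2 := hcorr (∏ q : s, (q : ℕ) ^ (v q)) 1 ?_ ?_ le_rfl ?_ ?_ ?_ ?_
      · simpa using h2
      · exact Nat.one_le_iff_ne_zero.mpr
          (prod_ne_zero_iff.mpr fun q _ => pow_ne_zero _ (hs q q.2).ne_zero)
      · refine le_trans ?_ hNs
        rw [← prod_coe_sort s (fun q => q ^ (2 * h))]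
        apply Finset.prod_le_prod'
        intro q _
        exact Nat.pow_le_pow_right (hs q q.2).pos (hv q).le
      · refine le_trans ?_ hNs
        exact Nat.one_le_iff_ne_zero.mpr
          (prod_ne_zero_iff.mpr fun q hq => pow_ne_zero _ (hs q hq).ne_zero)
      · apply Nat.Coprime.prod_left
        intro q _
        apply Nat.Coprime.pow_left
        exact (Nat.Prime.coprime_iff_not_dvd (hs q q.2)).mpr (hsQ q q.2)
      · exact Nat.coprime_one_left Q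
      · refine ⟨q0, hs q0 q0.2, ?_⟩
        rw [factorization_subprod s hs v q0, Nat.factorization_one]
        simp only [Finsupp.coe_zero, Pi.zero_apply]
        intro h3
        have h4 := hv q0
        unfold Nat.ModEq at h3
        rw [Nat.mod_eq_of_lt h4, Nat.zero_mod] at h3
        exact hq0 h3
  -- covering
  have hcov : (∑ a ∈ A.filter (fun a => (∀ q ∈ s, Ψ a q ≠ 0) ∧
      b ≤ ∏ q ∈ s, GJ J (Ψ a q) q ∧ ∏ q ∈ s, GJ J (Ψ a q) q < (1 + δ) * b), W a) ≤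
      ∑ x ∈ Bad, ∑ a ∈ A.filter (fun a => ∀ q : s, Ψ a q = rt ζ h (x q)), W a := by
    have h1 : A.filter (fun a => (∀ q ∈ s, Ψ a q ≠ 0) ∧
      b ≤ ∏ q ∈ s, GJ J (Ψ a q) q ∧ ∏ q ∈ s, GJ J (Ψ a q) q < (1 + δ) * b) ⊆
      Bad.biUnion (fun x => A.filter (fun a => ∀ q : s, Ψ a q = rt ζ h (x q))) := by
      intro a ha
      rw [mem_filter] at ha
      obtain ⟨haA, ha1, ha2, ha3⟩ := ha
      have h2 : ∀ q : s, ∃ z, rt ζ h z = Ψ a q := by
        intro q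
        apply rt_surj ζ h hh hζ
        rcases hΨ a q (hs q q.2) with h3 | h3
        · exact absurd h3 (ha1 q q.2)
        · exact h3
      choose x hx using h2
      have h3 : ∏ q ∈ s, GJ J (Ψ a q) q = ∏ q, G q (x q) := by
        rw [← prod_coe_sort s]
        apply prod_congr rfl
        intro q _
        simp only [hG]
        rw [hx q]
      rw [mem_biUnion]
      refine ⟨x, ?_, ?_⟩
      · rw [hBad, mem_filter]
        rw [h3] at ha2 ha3
        exact ⟨mem_univ _, ha2, ha3⟩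
      · rw [mem_filter]
        exact ⟨haA, fun q => (hx q).symm⟩
    refine (sum_le_sum_of_subset_of_nonneg h1 fun a _ _ => hW a).trans ?_
    exact sum_biUnion_le' Bad _ W hW
  set S1 := ∑ a ∈ A.filter (fun a => (∀ q ∈ s, Ψ a q ≠ 0) ∧
      b ≤ ∏ q ∈ s, GJ J (Ψ a q) q ∧ ∏ q ∈ s, GJ J (Ψ a q) q < (1 + δ) * b), W a with hS1
  have h5 : S1 ≤ #Bad * ((WT + (2 * h : ℝ) ^ #s * e) / ((2 * h : ℕ) : ℝ) ^ #s) := by
    refine hcov.trans ?_
    rw [← nsmul_eq_mul, ← sum_const]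
    exact sum_le_sum fun x _ => hone x
  have h6 : (#Bad : ℝ) * 2 ^ #K ≤ ((2 * h : ℕ) : ℝ) ^ #s * ((#K).choose (#K / 2) : ℝ) := by
    exact_mod_cast hpat
  have h7 : 0 ≤ WT + (2 * h : ℝ) ^ #s * e := by positivity
  calc S1 * 2 ^ #K ≤ #Bad * ((WT + (2 * h : ℝ) ^ #s * e) / ((2 * h : ℕ) : ℝ) ^ #s) * 2 ^ #K :=
        mul_le_mul_of_nonneg_right h5 (by positivity)
    _ = (#Bad * 2 ^ #K) * ((WT + (2 * h : ℝ) ^ #s * e) / ((2 * h : ℕ) : ℝ) ^ #s) := by ring
    _ ≤ (((2 * h : ℕ) : ℝ) ^ #s * ((#K).choose (#K / 2) : ℝ)) *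
        ((WT + (2 * h : ℝ) ^ #s * e) / ((2 * h : ℕ) : ℝ) ^ #s) :=
        mul_le_mul_of_nonneg_right h6 (by positivity)
    _ = _ := by field_simp

end Pool.Agent.T9h29.CY
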