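import Mathlib
import Pool.Agent.T9h29.CY.Anti
import Pool.Agent.R361.AC.Count

set_option autoImplicit false

/-! # The anti-concentration theorem for products -/

namespace Pool.Agent.T9h29.CY

open Finset Filter Topology
open Pool.Agent.R361.AC (rt rt_pow rt_surj norm_of_pow patterns equi factorization_subprod
  sum_biUnion_le' norm_le_one zero_of_not_coprime ms_bound cheb summable_tausq tausq_tail
  smooth_approx binom_small)
open scoped ComplexConjugate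

/-- the primes up to `y` prime to `Q` -/
noncomputable def sy (Q y : ℕ) : Finset ℕ := (Icc 1 y).filter (fun q => q.Prime ∧ ¬ q ∣ Q)

/-- the short sum -/
noncomputable def DD {ι : Type*} (Ψ : ι → ℕ →*₀ ℂ) (N : ℕ) (a : ι) : ℂ := ∑ n ∈ Icc 1 N, Ψ a n / n

/-- the finite Euler product -/
noncomputable def EE {ι : Type*} (Ψ : ι → ℕ →*₀ ℂ) (Q y : ℕ) (a : ι) : ℂ :=
  ∏ q ∈ sy Q y, (1 - Ψ a q / q)⁻¹

open Classical in
theorem factor_approx {ι : Type*} (h : ℕ) (hh : 0 < h)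
    (Q : ℕ) (Ψ : ι → ℕ →*₀ ℂ)
    (hΨ : ∀ a q, q.Prime → Ψ a q = 0 ∨ (Ψ a q) ^ (2 * h) = 1)
    (hΨQ : ∀ a q, q.Prime → q ∣ Q → Ψ a q = 0)
    (A : ℕ → Finset ι) (W : ℕ → ι → ℝ) (hW : ∀ x a, 0 ≤ W x a)
    (N : ℕ → ℕ) (hN : Tendsto N atTop atTop)
    (M : ℕ → ℝ) (hM : ∀ᶠ x in atTop, 0 < M x)
    (C : ℝ) (hC0 : 0 < C) (hC : ∀ᶠ x in atTop, ∑ a ∈ A x, W x a ≤ C * M x)
    (e : ℕ → ℝ) (he0 : ∀ x, 0 ≤ e x)
    (he : ∀ θ : ℝ, 0 < θ → ∀ᶠ x in atTop, (1 + Real.log (N x)) ^ 2 * e x ≤ θ * M x)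
    (hcorr : ∀ᶠ x in atTop, ∀ n n', 1 ≤ n → n ≤ N x → 1 ≤ n' → n' ≤ N x → n.Coprime Q →
      n'.Coprime Q → (∃ q, q.Prime ∧ ¬ n.factorization q ≡ n'.factorization q [MOD 2 * h]) →
      ‖∑ a ∈ A x, (W x a : ℂ) * Ψ a n * conj (Ψ a n')‖ ≤ e x)
    (ε : ℝ) (hε : 0 < ε) :
    ∃ R : ℝ, 1 ≤ R ∧ ∀ R' ≥ R, ∀ η' : ℝ, 0 < η' → ∃ y0 : ℕ, ∀ y ≥ y0, ∀ᶠ x in atTop,
      ∑ a ∈ (A x).filter (fun a => ¬ (‖DD Ψ (N x) a‖ < R' ∧
        ‖DD Ψ (N x) a - EE Ψ Q y a‖ ≤ η')), W x a ≤ ε * M x := by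
  obtain ⟨C2, hC2, hC2'⟩ : ∃ C2 : ℝ, 0 < C2 ∧ ∀ N : ℕ,
      ∑ m ∈ Ioc 0 N, ((m * m).divisors.card : ℝ) / ((m : ℝ) * m) ≤ C2 := by
    refine ⟨(∑' m : ℕ, ((m * m).divisors.card : ℝ) / ((m : ℝ) * m)) + 1, ?_, fun N => ?_⟩
    · have : 0 ≤ ∑' m : ℕ, ((m * m).divisors.card : ℝ) / ((m : ℝ) * m) :=
        tsum_nonneg fun m => by positivity
      linarith
    · have := summable_tausq.sum_le_tsum (Ioc 0 N) (fun m _ => by positivity)
      linarith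
  set R : ℝ := 4 * (C2 * C + 1) / ε with hR
  have hR0 : 0 < R := by positivity
  refine ⟨R + 1, by linarith, fun R' hR' η' hη'0 => ?_⟩
  obtain ⟨y0, hy0⟩ := tausq_tail (ε * η' ^ 2 / (32 * C)) (by positivity)
  refine ⟨y0, fun y hy => ?_⟩
  set s := sy Q y with hs
  have hsp : ∀ q ∈ s, q.Prime := fun q hq => (mem_filter.mp hq).2.1
  have hsQ : ∀ q ∈ s, ¬ q ∣ Q := fun q hq => (mem_filter.mp hq).2.2
  obtain ⟨N0, hN0⟩ := smooth_approx s hsp (η' / 2) (by positivity)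
  filter_upwards [hM, hC, he 1 one_pos, he (ε * η' ^ 2 / 32) (by positivity), hcorr,
    hN.eventually_ge_atTop N0] with x hMx hCx he1 he2 hcorrx hNx
  set WT := ∑ a ∈ A x, W x a with hWT
  have hWT0 : 0 ≤ WT := sum_nonneg fun a _ => hW x a
  set S0 := (Icc 1 (N x)).filter (fun n => n.Coprime Q) with hS0
  set S1 := S0.filter (fun n => n ∉ Nat.factoredNumbers s) with hS1
  set V : ι → ℂ := fun a => ∑ n ∈ S1, Ψ a n / n with hV
  have hz : ∀ a n, ¬ n.Coprime Q → Ψ a n = 0 := fun a n hn' =>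
    zero_of_not_coprime (Ψ a) Q (hΨQ a) n hn'
  have hDS0 : ∀ a, DD Ψ (N x) a = ∑ n ∈ S0, Ψ a n / n := by
    intro a
    simp only [DD, hS0]
    rw [sum_filter]
    apply sum_congr rfl
    intro m _
    split_ifs with h1
    · rfl
    · rw [hz a m h1, zero_div]
  have hDV : ∀ a, DD Ψ (N x) a = (∑ n ∈ (Icc 1 (N x)).filter (fun n => n ∈ Nat.factoredNumbers s),
      Ψ a n / n) + V a := by
    intro a
    rw [hDS0, hV]
    simp only
    rw [← sum_filter_add_sum_filter_not S0 (fun n => n ∈ Nat.factoredNumbers s)]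
    congr 1
    simp only [hS0]
    rw [filter_filter, sum_filter, sum_filter]
    apply sum_congr rfl
    intro m _
    by_cases h1 : m.Coprime Q
    · by_cases h2 : m ∈ Nat.factoredNumbers s
      · rw [if_pos ⟨h1, h2⟩, if_pos h2]
      · rw [if_neg (fun h => h2 h.2), if_neg h2]
    · rw [hz a m h1, zero_div, ite_self, ite_self]
  have hDE : ∀ a, ‖DD Ψ (N x) a - EE Ψ Q y a‖ ≤ ‖V a‖ + η' / 2 := by
    intro a
    let f : ℕ →* ℂ :=
      { toFun := fun n => Ψ a n / n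
        map_one' := by simp
        map_mul' := fun m n => by push_cast; rw [map_mul]; rw [mul_div_mul_comm] }
    have h1 := hN0 (N x) hNx f (by
      intro m
      change ‖Ψ a m / m‖ ≤ _
      rw [norm_div, Complex.norm_natCast]
      exact div_le_div_of_nonneg_right (norm_le_one (Ψ a) (2 * h) (by omega) (hΨ a) m)
        (Nat.cast_nonneg _))
    have h2 : DD Ψ (N x) a - EE Ψ Q y a = V a + ((∑ n ∈ (Icc 1 (N x)).filter
        (fun n => n ∈ Nat.factoredNumbers s), f n) - ∏ p ∈ s, (1 - f p)⁻¹) := by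
      rw [hDV]
      change _ = V a + ((∑ n ∈ (Icc 1 (N x)).filter
        (fun n => n ∈ Nat.factoredNumbers s), Ψ a n / n) - ∏ p ∈ s, (1 - Ψ a p / p)⁻¹)
      unfold EE
      ring
    rw [h2]
    exact (norm_add_le _ _).trans (add_le_add le_rfl h1)
  -- mean squares
  have hms0 : ∑ a ∈ A x, W x a * ‖DD Ψ (N x) a‖ ^ 2 ≤ (C2 * C + 1) * M x := by
    have h1 := ms_bound h hh Q Ψ hΨ (A x) (W x) (hW x) (N x) (e x) (he0 x) hcorrx S0
      (filter_subset _ _) (fun n hn' => (mem_filter.mp hn').2) 0 (fun _ _ m _ hm => hm)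
    simp only [hDS0]
    refine h1.trans ?_
    have h2 : (∑ m ∈ Ioc 0 (N x), ((m * m).divisors.card : ℝ) / ((m : ℝ) * m)) * WT ≤
        C2 * (C * M x) := mul_le_mul (hC2' _) hCx hWT0 hC2.le
    linarith
  have hms1 : ∑ a ∈ A x, W x a * ‖V a‖ ^ 2 ≤ ε * η' ^ 2 / 16 * M x := by
    have h1 := ms_bound h hh Q Ψ hΨ (A x) (W x) (hW x) (N x) (e x) (he0 x) hcorrx S1
      ((filter_subset _ _).trans (filter_subset _ _))
      (fun n hn' => (mem_filter.mp (mem_filter.mp hn').1).2) y ?_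
    · refine h1.trans ?_
      have h2 : (∑ m ∈ Ioc y (N x), ((m * m).divisors.card : ℝ) / ((m : ℝ) * m)) * WT ≤
          ε * η' ^ 2 / (32 * C) * (C * M x) :=
        mul_le_mul (hy0 y hy _) hCx hWT0 (by positivity)
      have h3 : ε * η' ^ 2 / (32 * C) * (C * M x) = ε * η' ^ 2 / 32 * M x := by
        field_simp
      linarith
    · intro m hm k hk hk0
      rw [hS1, mem_filter, hS0, mem_filter, mem_Icc] at hm
      obtain ⟨⟨hm1, hm2⟩, hm3⟩ := hm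
      rw [Nat.mem_factoredNumbers'] at hm3
      push Not at hm3
      obtain ⟨p, hp, hpm, hps⟩ := hm3
      have hpy : y < p := by
        by_contra hcon
        push Not at hcon
        apply hps
        rw [hs, sy, mem_filter, mem_Icc]
        refine ⟨⟨hp.one_le, hcon⟩, hp, fun hpQ => ?_⟩
        exact Nat.Prime.not_coprime_iff_dvd.mpr ⟨p, hp, hpm, hpQ⟩ hm2
      have h4 : p ∣ k * k := hpm.trans hk
      have h5 : p ∣ k := by
        rcases hp.dvd_mul.mp h4 with h | h <;> exact h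
      exact lt_of_lt_of_le hpy (Nat.le_of_dvd hk0 h5)
  set B1 := (A x).filter (fun a => R ≤ ‖DD Ψ (N x) a‖ ^ 2) with hB1
  set B2 := (A x).filter (fun a => (η' / 2) ^ 2 ≤ ‖V a‖ ^ 2) with hB2
  have hb1 : ∑ a ∈ B1, W x a ≤ ε / 4 * M x := by
    have h1 := cheb (A x) (W x) (hW x) (fun a => ‖DD Ψ (N x) a‖ ^ 2) (fun a => sq_nonneg _) R B1
      (filter_subset _ _) (fun a ha => (mem_filter.mp ha).2)
    have h2 := h1.trans hms0
    rw [← mul_le_mul_iff_right₀ hR0]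
    refine h2.trans (le_of_eq ?_)
    rw [hR]
    field_simp
  have hb2 : ∑ a ∈ B2, W x a ≤ ε / 4 * M x := by
    have h1 := cheb (A x) (W x) (hW x) (fun a => ‖V a‖ ^ 2) (fun a => sq_nonneg _)
      ((η' / 2) ^ 2) B2 (filter_subset _ _) (fun a ha => (mem_filter.mp ha).2)
    have h2 := h1.trans hms1
    have h3 : (0 : ℝ) < (η' / 2) ^ 2 := by positivity
    rw [← mul_le_mul_iff_right₀ h3]
    refine h2.trans (le_of_eq ?_)
    ring
  have hsub : (A x).filter (fun a => ¬ (‖DD Ψ (N x) a‖ < R' ∧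
        ‖DD Ψ (N x) a - EE Ψ Q y a‖ ≤ η')) ⊆ B1 ∪ B2 := by
    intro a ha
    rw [mem_filter] at ha
    obtain ⟨haA, ha1⟩ := ha
    rw [mem_union]
    by_contra hcon
    push Not at hcon
    obtain ⟨h1, h2⟩ := hcon
    apply ha1
    have h1' : ‖DD Ψ (N x) a‖ ^ 2 < R := by
      by_contra hc; exact h1 (mem_filter.mpr ⟨haA, not_lt.mp hc⟩)
    have h2' : ‖V a‖ ^ 2 < (η' / 2) ^ 2 := by
      by_contra hc; exact h2 (mem_filter.mpr ⟨haA, not_lt.mp hc⟩)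
    have hV1 : ‖V a‖ < η' / 2 := lt_of_pow_lt_pow_left₀ 2 (by positivity) h2'
    constructor
    · refine lt_of_lt_of_le ?_ hR'
      apply lt_of_pow_lt_pow_left₀ 2 (by positivity)
      have h7 : R ≤ (R + 1) ^ 2 := by
        have : (R + 1) ^ 2 = R + (R ^ 2 + R + 1) := by ring
        rw [this]
        have : 0 ≤ R ^ 2 + R + 1 := by positivity
        linarith
      exact h1'.trans_le h7
    · linarith [hDE a]
  refine (sum_le_sum_of_subset_of_nonneg hsub fun a _ _ => hW x a).trans ?_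
  have h2 := sum_union_inter (s₁ := B1) (s₂ := B2) (f := W x)
  have h4 : 0 ≤ ∑ b ∈ B1 ∩ B2, W x b := sum_nonneg fun b _ => hW x b
  have : 0 < ε * M x := by positivity
  linarith

/-- the power of a completely multiplicative function -/
noncomputable def pw {ι : Type*} (Ψ : ι → ℕ →*₀ ℂ) (j : ℕ) (hj : j ≠ 0) (a : ι) : ℕ →*₀ ℂ :=
  (powMonoidWithZeroHom hj).comp (Ψ a)

lemma pw_apply {ι : Type*} (Ψ : ι → ℕ →*₀ ℂ) (j : ℕ) (hj : j ≠ 0) (a : ι) (n : ℕ) :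
    pw Ψ j hj a n = (Ψ a n) ^ j := rfl

/-- the short sum of a power -/
noncomputable def Dj {ι : Type*} (Ψ : ι → ℕ →*₀ ℂ) (N : ℕ) (j : ℕ) (a : ι) : ℂ :=
  ∑ n ∈ Icc 1 N, (Ψ a n) ^ j / n

lemma DD_pw {ι : Type*} (Ψ : ι → ℕ →*₀ ℂ) (j : ℕ) (hj : j ≠ 0) (N : ℕ) (a : ι) :
    DD (pw Ψ j hj) N a = Dj Ψ N j a := rfl

lemma prod_diff' {ι : Type*} (s : Finset ι) (a b : ι → ℝ) (B η : ℝ) (hB : 1 ≤ B)
    (ha : ∀ i ∈ s, |a i| ≤ B) (hb : ∀ i ∈ s, |b i| ≤ B) (hab : ∀ i ∈ s, |a i - b i| ≤ η) :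
    |∏ i ∈ s, a i - ∏ i ∈ s, b i| ≤ #s * B ^ #s * η :=
  le_trans (le_mul_of_one_le_left (abs_nonneg _) hB)
    (prod_diff s a b B η (by linarith) ha hb hab)

open Classical in
/-- **Anti-concentration for products.** -/
theorem almostJ {ι : Type*} (h : ℕ) (hh : 0 < h)
    (Q : ℕ) (hQ : 0 < Q) (J : Finset ℕ) (hJ : ∀ j ∈ J, j.Coprime (2 * h)) (hJ1 : 1 ∈ J)
    (Ψ : ι → ℕ →*₀ ℂ)
    (hΨ : ∀ a q, q.Prime → Ψ a q = 0 ∨ (Ψ a q) ^ (2 * h) = 1)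
    (hΨQ : ∀ a q, q.Prime → q ∣ Q → Ψ a q = 0)
    (A : ℕ → Finset ι) (W : ℕ → ι → ℝ) (hW : ∀ x a, 0 ≤ W x a)
    (N : ℕ → ℕ) (hN : Tendsto N atTop atTop)
    (M : ℕ → ℝ) (hM : ∀ᶠ x in atTop, 0 < M x)
    (C : ℝ) (hC0 : 0 < C) (hC : ∀ᶠ x in atTop, ∑ a ∈ A x, W x a ≤ C * M x)
    (e : ℕ → ℝ) (he0 : ∀ x, 0 ≤ e x)
    (he : ∀ θ : ℝ, 0 < θ → ∀ᶠ x in atTop, (1 + Real.log (N x)) ^ 2 * e x ≤ θ * M x)
    (hcorr : ∀ j ∈ J, ∀ᶠ x in atTop, ∀ n n', 1 ≤ n → n ≤ N x → 1 ≤ n' → n' ≤ N x → n.Coprime Q →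
      n'.Coprime Q → (∃ q, q.Prime ∧ ¬ n.factorization q ≡ n'.factorization q [MOD 2 * h]) →
      ‖∑ a ∈ A x, (W x a : ℂ) * (Ψ a n) ^ j * conj ((Ψ a n') ^ j)‖ ≤ e x)
    (T : Set ℝ) (hT0 : ∀ t ∈ T, 0 < t) (hTf : ∀ R, (T ∩ Set.Iic R).Finite)
    (ε : ℝ) (hε : 0 < ε) :
    ∃ R : ℝ, 0 < R ∧ ∃ η : ℝ, 0 < η ∧ ∃ y : ℕ, ∀ᶠ x in atTop,
      ∑ a ∈ (A x).filter (fun a => (∀ q, q.Prime → ¬ q ∣ Q → q ≤ y → Ψ a q ≠ 0) ∧
        ((∃ j ∈ J, R ≤ ‖Dj Ψ (N x) j a‖) ∨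
          ∃ t ∈ T, |∏ j ∈ J, ‖Dj Ψ (N x) j a‖ - t| ≤ η)), W x a ≤ ε * M x := by
  obtain ⟨ζ, hζ⟩ : ∃ ζ : ℂ, IsPrimitiveRoot ζ (2 * h) :=
    ⟨_, Complex.isPrimitiveRoot_exp (2 * h) (by omega)⟩
  have hJ0 : ∀ j ∈ J, j ≠ 0 := by
    rintro j hj rfl
    have := hJ 0 hj
    rw [Nat.coprime_zero_left] at this
    omega
  set m := #J with hm
  have hm0 : 0 < m := card_pos.mpr ⟨1, hJ1⟩
  -- the individual factors
  have hfac : ∀ j : J, ∃ R : ℝ, 1 ≤ R ∧ ∀ R' ≥ R, ∀ η' : ℝ, 0 < η' → ∃ y0 : ℕ, ∀ y ≥ y0,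
      ∀ᶠ x in atTop, ∑ a ∈ (A x).filter (fun a => ¬ (‖DD (pw Ψ j (hJ0 j j.2)) (N x) a‖ < R' ∧
        ‖DD (pw Ψ j (hJ0 j j.2)) (N x) a - EE (pw Ψ j (hJ0 j j.2)) Q y a‖ ≤ η')), W x a ≤
        ε / (2 * m) * M x := by
    intro j
    apply factor_approx h hh Q (pw Ψ j (hJ0 j j.2)) _ _ A W hW N hN M hM C hC0 hC e he0 he
    · exact hcorr j j.2
    · positivity
    · intro a q hq
      rw [pw_apply]
      rcases hΨ a q hq with h1 | h1
      · left; rw [h1, zero_pow (hJ0 j j.2)]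
      · right; rw [← pow_mul, mul_comm, pow_mul, h1, one_pow]
    · intro a q hq hqQ
      rw [pw_apply, hΨQ a q hq hqQ, zero_pow (hJ0 j j.2)]
  choose Rj hRj1 hRj using hfac
  set R : ℝ := 1 + ∑ j : J, Rj j with hR
  have hRge : ∀ j, Rj j ≤ R := by
    intro j
    have := single_le_sum (f := Rj) (fun i _ => (zero_le_one.trans (hRj1 i))) (mem_univ j)
    linarith
  have hR1 : 1 ≤ R := by
    have : 0 ≤ ∑ j : J, Rj j := sum_nonneg fun i _ => zero_le_one.trans (hRj1 i)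
    linarith
  have hfin := hTf (R ^ m + 1)
  set TR := hfin.toFinset with hTR
  have hTRpos : ∀ t ∈ TR, 0 < t := by
    intro t ht
    rw [hTR, Set.Finite.mem_toFinset] at ht
    exact hT0 t ht.1
  obtain ⟨t0, ht0, ht0'⟩ : ∃ t0 : ℝ, 0 < t0 ∧ ∀ t ∈ TR, t0 ≤ t := by
    rcases TR.eq_empty_or_nonempty with h1 | h1
    · exact ⟨1, one_pos, fun t ht => by rw [h1] at ht; simp at ht⟩
    · refine ⟨TR.min' h1, hTRpos _ (min'_mem _ _), fun t ht => min'_le _ _ ht⟩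
  set ε1 : ℝ := ε / (4 * (C + 1) * (#TR + 1)) with hε1
  have hε10 : 0 < ε1 := by positivity
  obtain ⟨n, hn⟩ := binom_small ε1 hε10
  have hn := hn n le_rfl
  obtain ⟨q0, hq0⟩ := GJ_ne h hh ζ hζ J hJ hJ1
  obtain ⟨K, hKc, hK⟩ := primes_far Q hQ q0 (2 * n)
  obtain ⟨δ0, hδ0, hgap⟩ := gapJ h hh ζ hζ J K
    (fun q hq => ⟨(hK q hq).1.one_lt, hq0 q (hK q hq).2.2⟩)
  set θ0 : ℝ := δ0 / (4 * (1 + δ0)) with hθ0
  have hθ00 : 0 < θ0 := by positivity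
  have hθ0e : θ0 * (4 * (1 + δ0)) = δ0 := by rw [hθ0]; field_simp
  have hθ01 : θ0 ≤ 1 / 4 := by
    rw [hθ0, div_le_iff₀ (by positivity)]; linarith
  have hθδ : 1 + θ0 < (1 + δ0) * (1 - θ0) := by nlinarith
  set η : ℝ := min 1 (θ0 * t0 / 2) with hη
  have hη0 : 0 < η := lt_min one_pos (by positivity)
  set η' : ℝ := min 1 (θ0 * t0 / (2 * (m * (R + 1) ^ m))) with hη'
  have hη'0 : 0 < η' := lt_min one_pos (by positivity)
  have hy0 : ∀ j : J, ∃ y0 : ℕ, ∀ y ≥ y0,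
      ∀ᶠ x in atTop, ∑ a ∈ (A x).filter (fun a => ¬ (‖DD (pw Ψ j (hJ0 j j.2)) (N x) a‖ < R ∧
        ‖DD (pw Ψ j (hJ0 j j.2)) (N x) a - EE (pw Ψ j (hJ0 j j.2)) Q y a‖ ≤ η')), W x a ≤
        ε / (2 * m) * M x := fun j => hRj j R (hRge j) η' hη'0
  choose yj hyj using hy0
  set y := max (univ.sup yj) (K.sup id) with hy
  have hyge : ∀ j, yj j ≤ y := fun j => (le_sup (mem_univ j)).trans (le_max_left _ _)
  set s := sy Q y with hs
  have hsp : ∀ q ∈ s, q.Prime := fun q hq => (mem_filter.mp hq).2.1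
  have hsQ : ∀ q ∈ s, ¬ q ∣ Q := fun q hq => (mem_filter.mp hq).2.2
  have hKs : K ⊆ s := by
    intro q hq
    rw [hs, sy, mem_filter, mem_Icc]
    exact ⟨⟨(hK q hq).1.one_le, le_trans (le_sup (f := id) hq) (le_max_right _ _)⟩,
      (hK q hq).1, (hK q hq).2.1⟩
  refine ⟨R, by linarith, η, hη0, y, ?_⟩
  have hd0 : (0 : ℝ) < (2 * h : ℝ) ^ #s := by positivity
  have hall : ∀ᶠ x in atTop, ∀ j : J,
      ∑ a ∈ (A x).filter (fun a => ¬ (‖DD (pw Ψ j (hJ0 j j.2)) (N x) a‖ < R ∧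
        ‖DD (pw Ψ j (hJ0 j j.2)) (N x) a - EE (pw Ψ j (hJ0 j j.2)) Q y a‖ ≤ η')), W x a ≤
        ε / (2 * m) * M x := by
    rw [Filter.eventually_all]
    exact fun j => hyj j y (hyge j)
  filter_upwards [hM, hC, hcorr 1 hJ1, hall,
    hN.eventually_ge_atTop (∏ q ∈ s, q ^ (2 * h)),
    he (1 / (2 * h : ℝ) ^ #s) (by positivity)] with x hMx hCx hcorrx hallx hNx2 he3
  have hlog : 0 ≤ Real.log (N x) := Real.log_natCast_nonneg _
  have he3' : (2 * h : ℝ) ^ #s * e x ≤ M x := by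
    have h1 : e x ≤ (1 + Real.log (N x)) ^ 2 * e x :=
      le_mul_of_one_le_left (he0 x) (one_le_pow₀ (by linarith))
    have h2 := mul_le_mul_of_nonneg_left (h1.trans he3) hd0.le
    refine h2.trans (le_of_eq ?_)
    field_simp
  set WT := ∑ a ∈ A x, W x a with hWT
  have hWT0 : 0 ≤ WT := sum_nonneg fun a _ => hW x a
  -- the exceptional sets
  set Bj : J → Finset ι := fun j =>
    (A x).filter (fun a => ¬ (‖DD (pw Ψ j (hJ0 j j.2)) (N x) a‖ < R ∧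
        ‖DD (pw Ψ j (hJ0 j j.2)) (N x) a - EE (pw Ψ j (hJ0 j j.2)) Q y a‖ ≤ η')) with hBj
  set B3 : ℝ → Finset ι := fun t => (A x).filter (fun a => (∀ q ∈ s, Ψ a q ≠ 0) ∧
      (1 - θ0) * t ≤ ∏ q ∈ s, GJ J (Ψ a q) q ∧
      ∏ q ∈ s, GJ J (Ψ a q) q < (1 + δ0) * ((1 - θ0) * t)) with hB3
  have hb3 : ∀ t, ∑ a ∈ B3 t, W x a ≤ ε1 * ((C + 1) * M x) := by
    intro t
    have h1 := pattern_countJ h hh ζ hζ Q J Ψ hΨ (A x) (W x) (hW x) (N x) (e x) (he0 x)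
      (by simpa only [pow_one] using hcorrx)
      s hsp hsQ hNx2 K hKs δ0 hδ0 hgap ((1 - θ0) * t)
    rw [hKc] at h1
    have h2 : 2 * n / 2 = n := by omega
    rw [h2] at h1
    have h3 : WT + (2 * h : ℝ) ^ #s * e x ≤ (C + 1) * M x := by linarith
    have h4 : (0 : ℝ) < 2 ^ (2 * n) := by positivity
    rw [← mul_le_mul_iff_left₀ h4]
    calc (∑ a ∈ B3 t, W x a) * 2 ^ (2 * n) ≤ ((2 * n).choose n : ℝ) *
          (WT + (2 * h : ℝ) ^ #s * e x) := h1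
      _ ≤ (ε1 * 2 ^ (2 * n)) * ((C + 1) * M x) := by
          apply mul_le_mul hn h3 _ (by positivity)
          have := mul_nonneg hd0.le (he0 x)
          linarith
      _ = _ := by ring
  have hEprod : ∀ a, ∏ j : J, ‖EE (pw Ψ j (hJ0 j j.2)) Q y a‖ = ∏ q ∈ s, GJ J (Ψ a q) q := by
    intro a
    simp only [EE, norm_prod, norm_inv]
    rw [Finset.prod_comm]
    apply prod_congr rfl
    intro q _
    unfold GJ
    rw [← prod_coe_sort J]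
    rfl
  have hDprod : ∀ a, ∏ j : J, ‖DD (pw Ψ j (hJ0 j j.2)) (N x) a‖ = ∏ j ∈ J, ‖Dj Ψ (N x) j a‖ := by
    intro a
    rw [← prod_coe_sort J]
    rfl
  have hsub : (A x).filter (fun a => (∀ q, q.Prime → ¬ q ∣ Q → q ≤ y → Ψ a q ≠ 0) ∧
        ((∃ j ∈ J, R ≤ ‖Dj Ψ (N x) j a‖) ∨
          ∃ t ∈ T, |∏ j ∈ J, ‖Dj Ψ (N x) j a‖ - t| ≤ η)) ⊆
        (univ.biUnion Bj) ∪ TR.biUnion B3 := by
    intro a ha
    rw [mem_filter] at ha
    obtain ⟨haA, ha1, ha2⟩ := ha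
    rw [mem_union]
    by_cases hB : a ∈ univ.biUnion Bj
    · exact Or.inl hB
    right
    rw [mem_biUnion] at hB
    push Not at hB
    have hgood : ∀ j : J, ‖DD (pw Ψ j (hJ0 j j.2)) (N x) a‖ < R ∧
        ‖DD (pw Ψ j (hJ0 j j.2)) (N x) a - EE (pw Ψ j (hJ0 j j.2)) Q y a‖ ≤ η' := by
      intro j
      have h1 := hB j (mem_univ j)
      by_contra hcon
      exact h1 (mem_filter.mpr ⟨haA, hcon⟩)
    rcases ha2 with ⟨j, hj, hjR⟩ | ⟨t, htT, ht⟩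
    · exfalso
      have h1 := (hgood ⟨j, hj⟩).1
      rw [DD_pw] at h1
      exact absurd hjR (not_le.mpr h1)
    have hη1 : η ≤ 1 := min_le_left _ _
    have hη2 : η ≤ θ0 * t0 / 2 := min_le_right _ _
    have hη'1 : η' ≤ 1 := min_le_left _ _
    have hη'2 : η' * (2 * (m * (R + 1) ^ m)) ≤ θ0 * t0 := by
      have : η' ≤ θ0 * t0 / (2 * (m * (R + 1) ^ m)) := min_le_right _ _
      rwa [le_div_iff₀ (by positivity)] at this
    have hDE1 : ∀ j : J, |‖DD (pw Ψ j (hJ0 j j.2)) (N x) a‖ -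
        ‖EE (pw Ψ j (hJ0 j j.2)) Q y a‖| ≤ η' := fun j =>
      (abs_norm_sub_norm_le _ _).trans (hgood j).2
    have hdiff := prod_diff' (univ : Finset J) (fun j => ‖DD (pw Ψ j (hJ0 j j.2)) (N x) a‖)
      (fun j => ‖EE (pw Ψ j (hJ0 j j.2)) Q y a‖) (R + 1) η' (by linarith)
      (fun j _ => by rw [abs_of_nonneg (norm_nonneg _)]; linarith [(hgood j).1])
      (fun j _ => by
        rw [abs_of_nonneg (norm_nonneg _)]
        have h1 := (abs_le.mp (hDE1 j)).1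
        linarith [(hgood j).1]) (fun j _ => hDE1 j)
    rw [hEprod, hDprod, card_univ, Fintype.card_coe, ← hm] at hdiff
    have hDle : ∏ j ∈ J, ‖Dj Ψ (N x) j a‖ ≤ R ^ m := by
      rw [hm, ← prod_const]
      apply Finset.prod_le_prod (fun j _ => norm_nonneg _)
      intro j hj
      exact (hgood ⟨j, hj⟩).1.le
    have htR : t ∈ TR := by
      rw [hTR, Set.Finite.mem_toFinset]
      refine ⟨htT, ?_⟩
      rw [Set.mem_Iic]
      have := (abs_le.mp ht).1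
      linarith
    have hkey : |∏ q ∈ s, GJ J (Ψ a q) q - t| ≤ θ0 * t0 := by
      have h6 : ∏ q ∈ s, GJ J (Ψ a q) q - t =
          -(∏ j ∈ J, ‖Dj Ψ (N x) j a‖ - ∏ q ∈ s, GJ J (Ψ a q) q) +
          (∏ j ∈ J, ‖Dj Ψ (N x) j a‖ - t) := by ring
      rw [h6]
      refine (abs_add_le _ _).trans ?_
      rw [abs_neg]
      have h7 : (m : ℝ) * (R + 1) ^ m * η' ≤ θ0 * t0 / 2 := by linarith
      linarith
    have ht0t := ht0' t htR
    have htp := hTRpos t htR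
    have hkey2 := abs_le.mp hkey
    have hk3 : θ0 * t0 ≤ θ0 * t := mul_le_mul_of_nonneg_left ht0t hθ00.le
    have hk4 : (1 + θ0) * t < (1 + δ0) * (1 - θ0) * t := mul_lt_mul_of_pos_right hθδ htp
    rw [mem_biUnion]
    refine ⟨t, htR, ?_⟩
    rw [hB3, mem_filter]
    refine ⟨haA, ?_, ?_, ?_⟩
    · intro q hq
      rw [hs, sy, mem_filter, mem_Icc] at hq
      exact ha1 q hq.2.1 hq.2.2 hq.1.2
    · have : (1 - θ0) * t = t - θ0 * t := by ring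
      rw [this]
      linarith [hkey2.1]
    · have e1 : (1 + θ0) * t = t + θ0 * t := by ring
      have e2 : (1 + δ0) * ((1 - θ0) * t) = (1 + δ0) * (1 - θ0) * t := by ring
      rw [e2]
      rw [e1] at hk4
      linarith [hkey2.2]
  refine (sum_le_sum_of_subset_of_nonneg hsub fun a _ _ => hW x a).trans ?_
  have h1 := sum_union_inter (s₁ := univ.biUnion Bj) (s₂ := TR.biUnion B3) (f := W x)
  have h3 : 0 ≤ ∑ b ∈ (univ.biUnion Bj) ∩ TR.biUnion B3, W x b :=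
    sum_nonneg fun b _ => hW x b
  have h5 := sum_biUnion_le' TR B3 (W x) (hW x)
  have h6 := sum_biUnion_le' univ Bj (W x) (hW x)
  have hlast : ∑ t ∈ TR, ∑ a ∈ B3 t, W x a ≤ ε / 4 * M x := by
    calc ∑ t ∈ TR, ∑ a ∈ B3 t, W x a ≤ ∑ _t ∈ TR, ε1 * ((C + 1) * M x) :=
          sum_le_sum fun t _ => hb3 t
      _ = #TR * (ε1 * ((C + 1) * M x)) := by rw [sum_const, nsmul_eq_mul]
      _ ≤ (#TR + 1) * (ε1 * ((C + 1) * M x)) := by
          apply mul_le_mul_of_nonneg_right (by linarith) (by positivity)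
      _ = ε / 4 * M x := by
          rw [hε1]; field_simp
  have hlast2 : ∑ j : J, ∑ a ∈ Bj j, W x a ≤ ε / 2 * M x := by
    calc ∑ j : J, ∑ a ∈ Bj j, W x a ≤ ∑ _j : J, ε / (2 * m) * M x :=
          sum_le_sum fun j _ => hallx j
      _ = m * (ε / (2 * m) * M x) := by
          rw [sum_const, nsmul_eq_mul, card_univ, Fintype.card_coe]
      _ = ε / 2 * M x := by
          have : (m : ℝ) ≠ 0 := by exact_mod_cast hm0.ne'
          field_simp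
  have : 0 < ε * M x := by positivity
  linarith

end Pool.Agent.T9h29.CY
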