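import Mathlib

set_option autoImplicit false

/-! # Sums over primes congruent to one, near `s = 1` -/

namespace Pool.Agent.T9h29.CY

open Finset Filter Topology
open ArithmeticFunction ArithmeticFunction.vonMangoldt

/-- the von Mangoldt function on the class of one -/
noncomputable def rr (n : ℕ) : ℕ → ℝ := residueClass (1 : ZMod n)

/-- divided by the logarithm -/
noncomputable def gg (n : ℕ) (m : ℕ) : ℝ := rr n m / Real.log m

lemma LS_real (f : ℕ → ℝ) {s : ℝ} (hs : 1 < s) :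
    LSeries (fun n => (f n : ℂ)) (s : ℂ) = ((∑' n : ℕ, f n * (n : ℝ) ^ (-s) : ℝ) : ℂ) := by
  rw [LSeries, Complex.ofReal_tsum]
  apply tsum_congr
  intro n
  rcases Nat.eq_zero_or_pos n with h0 | h0
  · subst h0
    rw [LSeries.term_zero, Nat.cast_zero, Real.zero_rpow (by linarith), mul_zero,
      Complex.ofReal_zero]
  · rw [LSeries.term_of_ne_zero h0.ne', Complex.ofReal_mul,
      Complex.ofReal_cpow (Nat.cast_nonneg n)]
    push_cast
    rw [Complex.cpow_neg, div_eq_mul_inv]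

lemma rr_nonneg (n m : ℕ) : 0 ≤ rr n m := residueClass_nonneg _ m

lemma rr_le (n m : ℕ) : rr n m ≤ vonMangoldt m := residueClass_le _ m

lemma gg_nonneg (n m : ℕ) : 0 ≤ gg n m := div_nonneg (rr_nonneg n m) (Real.log_natCast_nonneg m)

lemma gg_le_one (n m : ℕ) : gg n m ≤ 1 := by
  unfold gg
  rcases le_or_gt (Real.log m) 0 with h | h
  · have : Real.log m = 0 := le_antisymm h (Real.log_natCast_nonneg m)
    rw [this, div_zero]; exact zero_le_one
  · rw [div_le_one h]
    exact (rr_le n m).trans vonMangoldt_le_log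

lemma log_mul_gg (n m : ℕ) : Real.log m * gg n m = rr n m := by
  unfold gg
  rcases le_or_gt (Real.log m) 0 with h | h
  · have h0 : Real.log m = 0 := le_antisymm h (Real.log_natCast_nonneg m)
    have h1 := (rr_le n m).trans vonMangoldt_le_log
    rw [h0] at h1 ⊢
    rw [zero_mul]
    exact (le_antisymm h1 (rr_nonneg n m)).symm
  · field_simp

lemma summable_rr (n : ℕ) {s : ℝ} (hs : 1 < s) : Summable (fun m : ℕ => rr n m * (m : ℝ) ^ (-s)) := by
  have hbase : Summable (fun n : ℕ => (2/(s-1)) * (n:ℝ) ^ (-((s+1)/2))) := by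
    have := (Real.summable_nat_rpow (p := -((s+1)/2))).mpr (by linarith)
    exact this.mul_left _
  refine Summable.of_nonneg_of_le (fun m => mul_nonneg (rr_nonneg n m) (by positivity))
    (fun m => ?_) hbase
  rcases Nat.eq_zero_or_pos m with h0 | h0
  · subst h0
    rw [Nat.cast_zero, Real.zero_rpow (by linarith), Real.zero_rpow (by linarith)]; simp
  · have hn0 : (0:ℝ) < m := by exact_mod_cast h0
    have hlog : Real.log m ≤ 2/(s-1) * (m:ℝ) ^ ((s-1)/2) := by
      have := Real.log_le_rpow_div hn0.le (ε := (s-1)/2) (by linarith)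
      calc _ ≤ _ := this
        _ = _ := by have : s - 1 ≠ 0 := by linarith
                    field_simp
    calc rr n m * (m : ℝ) ^ (-s) ≤ (2/(s-1) * (m:ℝ) ^ ((s-1)/2)) * (m : ℝ) ^ (-s) := by
          apply mul_le_mul_of_nonneg_right _ (by positivity)
          exact (rr_le n m).trans (vonMangoldt_le_log.trans hlog)
      _ = (2/(s-1)) * (m:ℝ) ^ (-((s+1)/2)) := by
        rw [mul_assoc, ← Real.rpow_add hn0]; congr 2; ring

lemma summable_gg (n : ℕ) {s : ℝ} (hs : 1 < s) : Summable (fun m : ℕ => gg n m * (m : ℝ) ^ (-s)) := by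
  refine Summable.of_nonneg_of_le (fun m => mul_nonneg (gg_nonneg n m) (by positivity))
    (fun m => ?_) ((Real.summable_nat_rpow (p := -s)).mpr (by linarith))
  exact mul_le_of_le_one_left (by positivity) (gg_le_one n m)

/-- the sum of `gg` -/
noncomputable def GG (n : ℕ) (s : ℝ) : ℝ := ∑' m : ℕ, gg n m * (m : ℝ) ^ (-s)
/-- the sum of `rr` -/
noncomputable def RR (n : ℕ) (s : ℝ) : ℝ := ∑' m : ℕ, rr n m * (m : ℝ) ^ (-s)

lemma GG_deriv (n : ℕ) {s : ℝ} (hs : 1 < s) : HasDerivAt (GG n) (-(RR n s)) s := by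
  have h1 : LSeries.abscissaOfAbsConv (fun m => (gg n m : ℂ)) ≤ 1 := by
    apply LSeries.abscissaOfAbsConv_le_of_le_const
    refine ⟨1, fun m _ => ?_⟩
    rw [Complex.norm_real, Real.norm_eq_abs, abs_of_nonneg (gg_nonneg n m)]
    exact gg_le_one n m
  have h2 : LSeries.abscissaOfAbsConv (fun m => (gg n m : ℂ)) < ((s : ℂ)).re := by
    refine h1.trans_lt ?_
    rw [Complex.ofReal_re]
    exact_mod_cast hs
  have h3 := (LSeries_hasDerivAt h2).real_of_complex
  have h4 : LSeries.logMul (fun m => (gg n m : ℂ)) = fun m => (rr n m : ℂ) := by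
    funext m
    unfold LSeries.logMul
    rw [← log_mul_gg n m]
    push_cast
    rfl
  rw [h4, LS_real _ hs] at h3
  have h5 : (-((∑' m : ℕ, rr n m * (m : ℝ) ^ (-s) : ℝ) : ℂ)).re = -(RR n s) := by
    rw [← Complex.ofReal_neg, Complex.ofReal_re]; rfl
  rw [h5] at h3
  refine h3.congr_of_eventuallyEq ?_
  filter_upwards [lt_mem_nhds hs] with x hx
  rw [LS_real _ hx, Complex.ofReal_re]
  rfl

lemma RR_bound (n : ℕ) [NeZero n] : ∃ C : ℝ, 0 ≤ C ∧ ∀ s : ℝ, 1 < s → s ≤ 2 →
    |RR n s - (n.totient : ℝ)⁻¹ / (s - 1)| ≤ C := by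
  have hc : ContinuousOn (fun x : ℝ => LFunctionResidueClassAux (1 : ZMod n) (x:ℂ))
      (Set.Icc 1 2) :=
    (continuousOn_LFunctionResidueClassAux (1 : ZMod n)).comp
      Complex.continuous_ofReal.continuousOn (fun x hx => by simpa using hx.1)
  obtain ⟨C, hC⟩ := isCompact_Icc.exists_bound_of_continuousOn hc
  refine ⟨C, (norm_nonneg _).trans (hC 1 ⟨le_refl _, one_le_two⟩), ?_⟩
  intro s hs hs2
  have h1 := hC s ⟨hs.le, hs2⟩
  have h2 := eqOn_LFunctionResidueClassAux (q := n) (a := 1) isUnit_one (x := (s:ℂ))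
    (by simpa using hs)
  rw [h2] at h1
  have e1 : (fun m : ℕ => ((residueClass (1 : ZMod n) m : ℝ) : ℂ)) =
      fun m : ℕ => ((rr n m : ℝ) : ℂ) := rfl
  simp only at h1
  rw [e1, LS_real _ hs] at h1
  have e2 : ((∑' m : ℕ, rr n m * (m:ℝ) ^ (-s) : ℝ) : ℂ) -
      ((n.totient : ℕ) : ℂ)⁻¹ / ((s:ℂ) - 1) =
      ((RR n s - (n.totient : ℝ)⁻¹ / (s - 1) : ℝ) : ℂ) := by
    unfold RR
    push_cast
    rfl
  rw [e2, Complex.norm_real] at h1
  exact h1

lemma GG_bound (n : ℕ) [NeZero n] : ∃ C : ℝ, 0 ≤ C ∧ ∀ s : ℝ, 1 < s → s ≤ 2 →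
    |GG n s + (n.totient : ℝ)⁻¹ * Real.log (s - 1)| ≤ C := by
  obtain ⟨C, hC0, hC⟩ := RR_bound n
  set H : ℝ → ℝ := fun s => GG n s + (n.totient : ℝ)⁻¹ * Real.log (s - 1) with hH
  refine ⟨C + |H 2|, by positivity, fun s hs hs2 => ?_⟩
  have hder : ∀ x ∈ Set.Icc s 2, HasDerivWithinAt H (-(RR n x) + (n.totient : ℝ)⁻¹ * (1 / (x - 1)))
      (Set.Icc s 2) x := by
    intro x hx
    have hx1 : 1 < x := lt_of_lt_of_le hs hx.1
    apply HasDerivAt.hasDerivWithinAt
    apply (GG_deriv n hx1).add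
    apply HasDerivAt.const_mul
    have h1 : HasDerivAt (fun y : ℝ => y - 1) 1 x := (hasDerivAt_id x).sub_const 1
    exact h1.log (by linarith)
  have hbd : ∀ x ∈ Set.Icc s 2, ‖-(RR n x) + (n.totient : ℝ)⁻¹ * (1 / (x - 1))‖ ≤ C := by
    intro x hx
    have hx1 : 1 < x := lt_of_lt_of_le hs hx.1
    have := hC x hx1 hx.2
    rw [Real.norm_eq_abs, ← abs_neg]
    refine le_trans (le_of_eq ?_) this
    congr 1
    ring
  have h1 := (convex_Icc s 2).norm_image_sub_le_of_norm_hasDerivWithin_le hder hbd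
    (Set.right_mem_Icc.mpr hs2) (Set.left_mem_Icc.mpr hs2)
  rw [Real.norm_eq_abs, Real.norm_eq_abs] at h1
  have h2 : |s - 2| ≤ 1 := by rw [abs_le]; constructor <;> linarith
  have h3 : C * |s - 2| ≤ C * 1 := mul_le_mul_of_nonneg_left h2 hC0
  have h4 := abs_sub_abs_le_abs_sub (H s) (H 2)
  change |H s| ≤ _
  linarith

/-- the primes -/
noncomputable def Ls (n Q R : ℕ) : Finset ℕ :=
  (Icc 1 R).filter (fun p => p.Prime ∧ n ∣ p - 1 ∧ ¬ p ∣ Q)

lemma mem_Ls (n Q R p : ℕ) : p ∈ Ls n Q R ↔ p ≤ R ∧ p.Prime ∧ n ∣ p - 1 ∧ ¬ p ∣ Q := by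
  unfold Ls
  rw [mem_filter, mem_Icc]
  constructor
  · rintro ⟨⟨h1, h2⟩, h3⟩; exact ⟨h2, h3⟩
  · rintro ⟨h1, h2⟩; exact ⟨⟨h2.1.one_le, h1⟩, h2⟩

lemma cls_iff (n p : ℕ) (hp : 1 ≤ p) : ((p : ℕ) : ZMod n) = 1 ↔ n ∣ p - 1 := by
  have h : ((1 : ℕ) : ZMod n) = 1 := Nat.cast_one
  rw [← h, ZMod.natCast_eq_natCast_iff, Nat.ModEq.comm]
  exact (Nat.modEq_iff_dvd' hp)

lemma rr_prime (n p : ℕ) (hp : p.Prime) (h : n ∣ p - 1) : rr n p = Real.log p := by
  unfold rr residueClass
  rw [Set.indicator_of_mem, vonMangoldt_apply_prime hp]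
  exact (cls_iff n p hp.one_le).mpr h

lemma rr_zero (n p : ℕ) (hp : 1 ≤ p) (h : ¬ n ∣ p - 1) : rr n p = 0 := by
  unfold rr residueClass
  apply Set.indicator_of_notMem
  exact fun h1 => h ((cls_iff n p hp).mp h1)

lemma gg_prime (n p : ℕ) (hp : p.Prime) (h : n ∣ p - 1) : gg n p = 1 := by
  unfold gg
  rw [rr_prime n p hp h, div_self]
  exact (Real.log_pos (by exact_mod_cast hp.one_lt)).ne'

lemma Ls_upper (n Q R : ℕ) {s : ℝ} (hs : 1 < s) :
    ∑ p ∈ Ls n Q R, (p : ℝ) ^ (-s) ≤ GG n s := by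
  unfold GG
  have h1 : ∑ p ∈ Ls n Q R, (p : ℝ) ^ (-s) = ∑ p ∈ Ls n Q R, gg n p * (p : ℝ) ^ (-s) := by
    apply sum_congr rfl
    intro p hp
    rw [mem_Ls] at hp
    rw [gg_prime n p hp.2.1 hp.2.2.1, one_mul]
  rw [h1]
  exact (summable_gg n hs).sum_le_tsum _ fun m _ => mul_nonneg (gg_nonneg n m) (by positivity)

lemma Ls_lower (n Q : ℕ) (hQ : Q ≠ 0) : ∃ C : ℝ, 0 ≤ C ∧ ∀ R : ℕ, 1 < R → ∀ s : ℝ, 1 < s →
    GG n s - C - 1 / Real.log R * RR n s ≤ ∑ p ∈ Ls n Q R, (p : ℝ) ^ (-s) := by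
  have hsum : Summable (fun m : ℕ => (if m.Prime then 0 else rr n m) / (m : ℝ)) :=
    summable_residueClass_non_primes_div (1 : ZMod n)
  have hlog2 : 0 < Real.log 2 := Real.log_pos (by norm_num)
  set h : ℕ → ℝ := fun m => (if m.Prime then 0 else rr n m) / (m : ℝ) * (1 / Real.log 2) with hh
  have hhs : Summable h := hsum.mul_right _
  have hh0 : ∀ m, 0 ≤ h m := by
    intro m
    simp only [hh]
    have : 0 ≤ (if m.Prime then 0 else rr n m) := by
      split_ifs
      · exact le_rfl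
      · exact rr_nonneg n m
    positivity
  refine ⟨∑' m, h m + #Q.primeFactors, add_nonneg (tsum_nonneg hh0) (Nat.cast_nonneg _), ?_⟩
  intro R hR s hs
  have hR1 : (1 : ℝ) < R := by exact_mod_cast hR
  have hlR : 0 < Real.log R := Real.log_pos hR1
  set f1 : ℕ → ℝ := fun m => if m ∈ Ls n Q R then (m : ℝ) ^ (-s) else 0 with hf1
  set f2 : ℕ → ℝ := fun m => if m ∈ Q.primeFactors then 1 else 0 with hf2
  have s1 : HasSum f1 (∑ p ∈ Ls n Q R, (p : ℝ) ^ (-s)) := by
    have : HasSum f1 (∑ b ∈ Ls n Q R, f1 b) := hasSum_sum_of_ne_finset_zero (by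
      intro b hb; simp only [hf1]; rw [if_neg hb])
    convert this using 1
    apply sum_congr rfl
    intro p hp
    simp only [hf1]; rw [if_pos hp]
  have s2 : HasSum f2 (#Q.primeFactors : ℝ) := by
    have : HasSum f2 (∑ b ∈ Q.primeFactors, f2 b) := hasSum_sum_of_ne_finset_zero (by
      intro b hb; simp only [hf2]; rw [if_neg hb])
    convert this using 1
    rw [sum_congr rfl (g := fun _ => (1 : ℝ))]
    · simp
    · intro p hp
      simp only [hf2]; rw [if_pos hp]
  have s3 := hhs.hasSum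
  have s4 : HasSum (fun m : ℕ => 1 / Real.log R * (rr n m * (m : ℝ) ^ (-s)))
      (1 / Real.log R * RR n s) := (summable_rr n hs).hasSum.mul_left _
  have s5 := ((s1.add s2).add s3).add s4
  have hle : ∀ m : ℕ, gg n m * (m : ℝ) ^ (-s) ≤
      ((f1 m + f2 m) + h m) + 1 / Real.log R * (rr n m * (m : ℝ) ^ (-s)) := by
    intro m
    have p1 : 0 ≤ f1 m := by simp only [hf1]; split_ifs <;> positivity
    have p2 : 0 ≤ f2 m := by simp only [hf2]; split_ifs <;> norm_num
    have p3 := hh0 m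
    have p4 : 0 ≤ 1 / Real.log R * (rr n m * (m : ℝ) ^ (-s)) := by
      have := rr_nonneg n m
      positivity
    rcases Nat.lt_or_ge m 2 with hm | hm
    · have : gg n m = 0 := by
        unfold gg
        interval_cases m <;> simp
      rw [this, zero_mul]
      linarith
    have hm0 : (0 : ℝ) < m := by exact_mod_cast (by omega : 0 < m)
    have hm1 : (1 : ℝ) ≤ m := by exact_mod_cast (by omega : 1 ≤ m)
    have hms : (m : ℝ) ^ (-s) ≤ (m : ℝ)⁻¹ := by
      rw [← Real.rpow_neg_one]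
      exact Real.rpow_le_rpow_of_exponent_le hm1 (by linarith)
    by_cases hp : m.Prime
    · by_cases hn : n ∣ m - 1
      · rw [gg_prime n m hp hn, one_mul]
        by_cases hQm : m ∣ Q
        · have : f2 m = 1 := by
            simp only [hf2]
            rw [if_pos (Nat.mem_primeFactors.mpr ⟨hp, hQm, hQ⟩)]
          have : (m : ℝ) ^ (-s) ≤ 1 := by
            refine hms.trans ?_
            exact inv_le_one_of_one_le₀ hm1
          linarith
        · by_cases hmR : m ≤ R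
          · have : f1 m = (m : ℝ) ^ (-s) := by
              simp only [hf1]
              rw [if_pos ((mem_Ls n Q R m).mpr ⟨hmR, hp, hn, hQm⟩)]
            linarith
          · have h1 : (m : ℝ) ^ (-s) ≤ 1 / Real.log R * (rr n m * (m : ℝ) ^ (-s)) := by
              rw [rr_prime n m hp hn, ← mul_assoc]
              have h2 : 1 ≤ 1 / Real.log R * Real.log m := by
                rw [one_div, inv_mul_eq_div, le_div_iff₀ hlR, one_mul]
                apply Real.log_le_log (by linarith)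
                exact_mod_cast (by omega : R ≤ m)
              exact le_mul_of_one_le_left (by positivity) h2
            linarith
      · have : gg n m = 0 := by
          unfold gg
          rw [rr_zero n m (by omega) hn, zero_div]
        rw [this, zero_mul]
        linarith
    · have h1 : gg n m * (m : ℝ) ^ (-s) ≤ h m := by
        simp only [hh]
        rw [if_neg hp]
        unfold gg
        have hlm : Real.log 2 ≤ Real.log m := Real.log_le_log (by norm_num) (by exact_mod_cast hm)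
        calc rr n m / Real.log m * (m : ℝ) ^ (-s) ≤ rr n m / Real.log 2 * (m : ℝ)⁻¹ := by
              apply mul_le_mul _ hms (by positivity) (div_nonneg (rr_nonneg n m) hlog2.le)
              exact div_le_div_of_nonneg_left (rr_nonneg n m) hlog2 hlm
          _ = _ := by rw [div_eq_mul_inv, div_eq_mul_inv]; ring
      linarith
  have h6 := hasSum_le hle (summable_gg n hs).hasSum s5
  unfold GG
  linarith

end Pool.Agent.T9h29.CY
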