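import Mathlib
import Pool.Agent.T9h29.CY.LowA

set_option autoImplicit false

/-! # Rankin's trick -/

namespace Pool.Agent.T9h29.CY

open Finset Filter Topology

/-- the finite Euler product -/
noncomputable def ZZ (D : ℝ) (S : Finset ℕ) (s : ℝ) : ℝ := ∏ p ∈ S, (1 + D * (p : ℝ) ^ (-s))

lemma ZZ_expand (D : ℝ) (S : Finset ℕ) (s : ℝ) :
    ZZ D S s = ∑ T ∈ S.powerset, ∏ p ∈ T, (D * (p : ℝ) ^ (-s)) := by
  unfold ZZ
  rw [prod_one_add]

lemma term_le (D : ℝ) (hD : 0 ≤ D) (T : Finset ℕ) (hT : ∀ p ∈ T, 1 ≤ p) (s s' : ℝ) (hs : s' ≤ s)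
    (R : ℕ) (hR : 1 ≤ R) (h : R < ∏ p ∈ T, p) :
    ∏ p ∈ T, (D * (p : ℝ) ^ (-s)) ≤ (R : ℝ) ^ (-(s - s')) * ∏ p ∈ T, (D * (p : ℝ) ^ (-s')) := by
  rw [prod_mul_distrib, prod_mul_distrib]
  have h1 : ∀ u : ℝ, ∏ p ∈ T, (p : ℝ) ^ u = ((∏ p ∈ T, p : ℕ) : ℝ) ^ u := by
    intro u
    push_cast
    rw [Real.finsetProd_rpow]
    intro p _; exact Nat.cast_nonneg p
  rw [h1, h1]
  have h2 : (0 : ℝ) ≤ ∏ _p ∈ T, D := prod_nonneg fun _ _ => hD
  have hP : (1 : ℝ) ≤ ((∏ p ∈ T, p : ℕ) : ℝ) := by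
    exact_mod_cast (by omega : 1 ≤ ∏ p ∈ T, p)
  have h3 : ((∏ p ∈ T, p : ℕ) : ℝ) ^ (-s) =
      ((∏ p ∈ T, p : ℕ) : ℝ) ^ (-(s - s')) * ((∏ p ∈ T, p : ℕ) : ℝ) ^ (-s') := by
    rw [← Real.rpow_add (by linarith)]
    congr 1; ring
  have h4 : ((∏ p ∈ T, p : ℕ) : ℝ) ^ (-(s - s')) ≤ (R : ℝ) ^ (-(s - s')) := by
    apply Real.rpow_le_rpow_of_nonpos
    · exact_mod_cast (by omega : 0 < R)
    · exact_mod_cast h.le
    · linarith
  rw [h3]
  have h5 : 0 ≤ ((∏ p ∈ T, p : ℕ) : ℝ) ^ (-s') := by positivity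
  calc (∏ _p ∈ T, D) * (((∏ p ∈ T, p : ℕ) : ℝ) ^ (-(s - s')) * ((∏ p ∈ T, p : ℕ) : ℝ) ^ (-s'))
      ≤ (∏ _p ∈ T, D) * ((R : ℝ) ^ (-(s - s')) * ((∏ p ∈ T, p : ℕ) : ℝ) ^ (-s')) := by gcongr
    _ = _ := by ring

open Classical in
/-- the truncated sum -/
noncomputable def FF (D : ℝ) (S : Finset ℕ) (R : ℕ) : ℝ :=
  ∑ T ∈ S.powerset.filter (fun T => ∏ p ∈ T, p ≤ R), ∏ p ∈ T, (D / (p : ℝ))

lemma rankin (D : ℝ) (hD : 0 ≤ D) (S : Finset ℕ) (hS : ∀ p ∈ S, 1 ≤ p) (s s' : ℝ) (hs1 : 1 ≤ s)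
    (hs : s' ≤ s) (R : ℕ) (hR : 1 ≤ R) :
    ZZ D S s - (R : ℝ) ^ (-(s - s')) * ZZ D S s' ≤ FF D S R := by
  classical
  rw [ZZ_expand, ZZ_expand]
  rw [← sum_filter_add_sum_filter_not S.powerset (fun T => ∏ p ∈ T, p ≤ R)
    (fun T => ∏ p ∈ T, (D * (p : ℝ) ^ (-s)))]
  have h1 : ∑ T ∈ S.powerset.filter (fun T => ∏ p ∈ T, p ≤ R), ∏ p ∈ T, (D * (p : ℝ) ^ (-s)) ≤
      FF D S R := by
    unfold FF
    apply sum_le_sum
    intro T hT
    rw [mem_filter, mem_powerset] at hT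
    apply Finset.prod_le_prod
    · intro p _; positivity
    · intro p hp
      have hp1 : (1 : ℝ) ≤ p := by exact_mod_cast hS p (hT.1 hp)
      rw [div_eq_mul_inv]
      apply mul_le_mul_of_nonneg_left _ hD
      rw [← Real.rpow_neg_one]
      exact Real.rpow_le_rpow_of_exponent_le hp1 (by linarith)
  have h2 : ∑ T ∈ S.powerset.filter (fun T => ¬ ∏ p ∈ T, p ≤ R), ∏ p ∈ T, (D * (p : ℝ) ^ (-s)) ≤
      (R : ℝ) ^ (-(s - s')) * ∑ T ∈ S.powerset, ∏ p ∈ T, (D * (p : ℝ) ^ (-s')) := by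
    rw [mul_sum]
    refine le_trans (sum_le_sum fun T hT => ?_) (sum_le_sum_of_subset_of_nonneg
      (filter_subset (fun T => ¬ ∏ p ∈ T, p ≤ R) S.powerset) fun T _ _ => ?_)
    · rw [mem_filter, mem_powerset] at hT
      exact term_le D hD T (fun p hp => hS p (hT.1 hp)) s s' hs R hR (by omega)
    · exact mul_nonneg (by positivity) (prod_nonneg fun p _ => by positivity)
  linarith

lemma sum_inv_sq (S : Finset ℕ) : ∑ p ∈ S, (1 / (p : ℝ)) ^ 2 ≤ ∑' p : ℕ, (1 / (p : ℝ)) ^ 2 := by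
  have h1 : Summable (fun p : ℕ => (1 / (p : ℝ)) ^ 2) := by
    simp_rw [div_pow, one_pow]
    exact Real.summable_one_div_nat_pow.mpr (by norm_num)
  exact h1.sum_le_tsum _ fun p _ => by positivity

lemma exp_sub_sq_le (x : ℝ) (hx : 0 ≤ x) : Real.exp (x - x ^ 2) ≤ 1 + x := by
  have h1 : 0 < 1 + x := by linarith
  rw [← Real.le_log_iff_exp_le h1]
  refine le_trans ?_ (Real.one_sub_inv_le_log_of_pos h1)
  have h2 : 1 - (1 + x)⁻¹ = x / (1 + x) := by field_simp; ring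
  rw [h2, le_div_iff₀ h1]
  have : (x - x ^ 2) * (1 + x) = x - x ^ 3 := by ring
  rw [this]
  have : 0 ≤ x ^ 3 := by positivity
  linarith

lemma ZZ_lower (D : ℝ) (hD : 0 ≤ D) (S : Finset ℕ) (hS : ∀ p ∈ S, 1 ≤ p) (s : ℝ) (hs : 1 ≤ s) :
    Real.exp (D * ∑ p ∈ S, (p : ℝ) ^ (-s) - D ^ 2 * ∑' p : ℕ, (1 / (p : ℝ)) ^ 2) ≤ ZZ D S s := by
  have h1 : Real.exp (∑ p ∈ S, (D * (p : ℝ) ^ (-s) - (D * (p : ℝ) ^ (-s)) ^ 2)) ≤ ZZ D S s := by
    rw [Real.exp_sum]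
    unfold ZZ
    apply Finset.prod_le_prod
    · intro p _; positivity
    · intro p _
      exact exp_sub_sq_le _ (by positivity)
  refine le_trans ?_ h1
  rw [Real.exp_le_exp, sum_sub_distrib, ← mul_sum]
  have h2 : ∑ p ∈ S, (D * (p : ℝ) ^ (-s)) ^ 2 ≤ D ^ 2 * ∑' p : ℕ, (1 / (p : ℝ)) ^ 2 := by
    refine le_trans ?_ (mul_le_mul_of_nonneg_left (sum_inv_sq S) (sq_nonneg D))
    rw [mul_sum]
    apply sum_le_sum
    intro p hp
    rw [mul_pow]
    apply mul_le_mul_of_nonneg_left _ (sq_nonneg D)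
    have hp1 : (1 : ℝ) ≤ p := by exact_mod_cast hS p hp
    apply pow_le_pow_left₀ (by positivity)
    rw [one_div, ← Real.rpow_neg_one]
    exact Real.rpow_le_rpow_of_exponent_le hp1 (by linarith)
  linarith

lemma ZZ_upper (D : ℝ) (hD : 0 ≤ D) (S : Finset ℕ) (s : ℝ) :
    ZZ D S s ≤ Real.exp (D * ∑ p ∈ S, (p : ℝ) ^ (-s)) := by
  rw [mul_sum, Real.exp_sum]
  unfold ZZ
  apply Finset.prod_le_prod
  · intro p _; positivity
  · intro p _
    have := Real.add_one_le_exp (D * (p : ℝ) ^ (-s))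
    linarith

theorem FF_lower (n Q : ℕ) [NeZero n] (hQ : Q ≠ 0) : ∃ c : ℝ, 0 < c ∧ ∃ R0 : ℕ, ∀ R ≥ R0,
    c * Real.log R ≤ FF n.totient (Ls n Q R) R := by
  obtain ⟨C1, hC10, hC1⟩ := RR_bound n
  obtain ⟨C2, hC20, hC2⟩ := GG_bound n
  obtain ⟨C3, hC30, hC3⟩ := Ls_lower n Q hQ
  set B : ℝ := ∑' p : ℕ, (1 / (p : ℝ)) ^ 2 with hB
  set D : ℝ := (n.totient : ℝ) with hD
  have hD1 : 1 ≤ D := by
    rw [hD]; exact_mod_cast Nat.totient_pos.mpr (NeZero.pos n)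
  have hD0 : 0 < D := by linarith
  set K1 : ℝ := D * C2 + D * C3 + D * (1 + C1) + D ^ 2 * B with hK1
  set K2 : ℝ := D * C2 with hK2
  obtain ⟨A, hA1, hA⟩ : ∃ A : ℝ, 1 ≤ A ∧ Real.exp (1 - A) * Real.exp K2 ≤
      Real.exp (-K1) / (2 * A) := by
    have h1 := Real.tendsto_pow_mul_exp_neg_atTop_nhds_zero 1
    have h2 : 0 < Real.exp (-K1) / (2 * Real.exp 1 * Real.exp K2) := by positivity
    obtain ⟨A, hA⟩ := ((h1.eventually_lt_const h2).and (eventually_ge_atTop 1)).exists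
    refine ⟨A, hA.2, ?_⟩
    have hA0 : 0 < A := by linarith [hA.2]
    have h3 := hA.1.le
    rw [pow_one, le_div_iff₀ (by positivity)] at h3
    rw [le_div_iff₀ (by positivity), sub_eq_add_neg, Real.exp_add]
    linarith
  have hA0 : 0 < A := by linarith
  refine ⟨Real.exp (-K1) / (2 * A), by positivity, ⌈Real.exp A⌉₊ + 2, fun R hR => ?_⟩
  have hR1 : 1 < R := by omega
  have hRA : Real.exp A ≤ R := by
    refine (Nat.le_ceil _).trans ?_
    exact_mod_cast (by omega : ⌈Real.exp A⌉₊ ≤ R)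
  have hR0 : (0 : ℝ) < R := by exact_mod_cast (by omega : 0 < R)
  set L := Real.log R with hL
  have hLA : A ≤ L := by rw [hL, Real.le_log_iff_exp_le hR0]; exact hRA
  have hL0 : 0 < L := by linarith
  have hL1 : 1 ≤ L := by linarith
  have hSp : ∀ p ∈ Ls n Q R, 1 ≤ p := by
    intro p hp
    rw [mem_Ls] at hp
    exact hp.2.1.one_le
  have hAL : 0 < A / L := by positivity
  have hAL1 : A / L ≤ 1 := (div_le_one hL0).mpr hLA
  have h1L : 0 < 1 / L := by positivity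
  have h1L1 : 1 / L ≤ 1 := (div_le_one hL0).mpr hL1
  -- lower bound at s
  have ha : Real.exp (-K1) * (L / A) ≤ ZZ D (Ls n Q R) (1 + A / L) := by
    refine le_trans ?_ (ZZ_lower D hD0.le _ hSp (1 + A / L) (by linarith))
    have e1 := hC3 R hR1 (1 + A / L) (by linarith)
    have e2 := (abs_le.mp (hC2 (1 + A / L) (by linarith) (by linarith))).1
    have e3 := (abs_le.mp (hC1 (1 + A / L) (by linarith) (by linarith))).2
    rw [add_sub_cancel_left] at e2 e3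
    have e4 : 1 / Real.log R * RR n (1 + A / L) ≤ 1 + C1 := by
      rw [← hL]
      have e5 : RR n (1 + A / L) ≤ D⁻¹ / (A / L) + C1 := by linarith
      have e6 : 1 / L * RR n (1 + A / L) ≤ 1 / L * (D⁻¹ / (A / L) + C1) :=
        mul_le_mul_of_nonneg_left e5 h1L.le
      have e7 : 1 / L * (D⁻¹ / (A / L) + C1) = D⁻¹ * (1 / A) + 1 / L * C1 := by
        field_simp
      have e8 : D⁻¹ ≤ 1 := inv_le_one_of_one_le₀ hD1
      have e9 : 1 / A ≤ 1 := (div_le_one hA0).mpr hA1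
      have e10 : D⁻¹ * (1 / A) ≤ 1 * 1 := mul_le_mul e8 e9 (by positivity) zero_le_one
      have e11 : 1 / L * C1 ≤ 1 * C1 := mul_le_mul_of_nonneg_right h1L1 hC10
      linarith
    have e5 : -C2 - D⁻¹ * Real.log (A / L) - C3 - (1 + C1) ≤
        ∑ p ∈ Ls n Q R, (p : ℝ) ^ (-(1 + A / L)) := by linarith
    have e6 := mul_le_mul_of_nonneg_left e5 hD0.le
    have e7 : D * (-C2 - D⁻¹ * Real.log (A / L) - C3 - (1 + C1)) - D ^ 2 * B =
        Real.log (L / A) + -K1 := by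
      have : Real.log (L / A) = -Real.log (A / L) := by
        rw [← Real.log_inv, inv_div]
      rw [this, hK1]
      field_simp
      ring
    calc Real.exp (-K1) * (L / A) = Real.exp (Real.log (L / A) + -K1) := by
          rw [Real.exp_add, Real.exp_log (by positivity), mul_comm]
      _ ≤ _ := by
          rw [Real.exp_le_exp, ← e7]
          linarith
  have hb : ZZ D (Ls n Q R) (1 + 1 / L) ≤ L * Real.exp K2 := by
    refine (ZZ_upper D hD0.le _ _).trans ?_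
    have e1 := Ls_upper n Q R (s := 1 + 1 / L) (by linarith)
    have e2 := (abs_le.mp (hC2 (1 + 1 / L) (by linarith) (by linarith))).2
    rw [add_sub_cancel_left] at e2
    have e3 : ∑ p ∈ Ls n Q R, (p : ℝ) ^ (-(1 + 1 / L)) ≤ C2 - D⁻¹ * Real.log (1 / L) := by
      linarith
    have e4 := mul_le_mul_of_nonneg_left e3 hD0.le
    have e5 : D * (C2 - D⁻¹ * Real.log (1 / L)) = Real.log L + K2 := by
      rw [Real.log_div one_ne_zero hL0.ne', Real.log_one, hK2]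
      field_simp
      ring
    rw [e5] at e4
    calc Real.exp (D * ∑ p ∈ Ls n Q R, (p : ℝ) ^ (-(1 + 1 / L))) ≤
          Real.exp (Real.log L + K2) := Real.exp_le_exp.mpr e4
      _ = _ := by rw [Real.exp_add, Real.exp_log hL0]
  have hc : (R : ℝ) ^ (-((1 + A / L) - (1 + 1 / L))) = Real.exp (1 - A) := by
    rw [Real.rpow_def_of_pos hR0, ← hL]
    congr 1
    field_simp
    ring
  have hr := rankin D hD0.le (Ls n Q R) hSp (1 + A / L) (1 + 1 / L) (by linarith) (by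
    have : 1 / L ≤ A / L := div_le_div_of_nonneg_right hA1 hL0.le
    linarith) R (by omega)
  rw [hc] at hr
  refine le_trans ?_ hr
  have h3 : Real.exp (1 - A) * ZZ D (Ls n Q R) (1 + 1 / L) ≤ Real.exp (-K1) / (2 * A) * L := by
    calc Real.exp (1 - A) * ZZ D (Ls n Q R) (1 + 1 / L) ≤ Real.exp (1 - A) * (L * Real.exp K2) :=
          mul_le_mul_of_nonneg_left hb (Real.exp_pos _).le
      _ = (Real.exp (1 - A) * Real.exp K2) * L := by ring
      _ ≤ _ := mul_le_mul_of_nonneg_right hA hL0.le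
  have h4 : Real.exp (-K1) * (L / A) = 2 * (Real.exp (-K1) / (2 * A) * L) := by
    field_simp
  linarith

end Pool.Agent.T9h29.CY
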