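import Mathlib
import Pool.Agent.Helper923.PPS.Selberg
import Pool.Agent.R361.QF.Low2
import Pool.Agent.T9h29.CY.LowB
import Pool.Agent.T9h29.CY.Zer

set_option autoImplicit false

/-! # The sieve of dimension one attached to the norm form -/

namespace Pool.Agent.T9h29.CY

open Finset ArithmeticFunction
open Pool.Agent.Helper923.PPS (selS selW)

lemma den_pos (D p : ℕ) (hD : 0 < D) (hp : 2 ≤ p) : 0 < den D p := by
  have h2 : (2 : ℝ) ≤ p := by exact_mod_cast hp
  have h0 : 0 < 1 / (p : ℝ) := by positivity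
  have h1 : 1 / (p : ℝ) ≤ 1 / 2 := one_div_le_one_div_of_le (by norm_num) h2
  unfold den
  have : (1 - 1 / (p : ℝ)) ^ D < 1 := pow_lt_one₀ (by linarith) (by linarith) hD.ne'
  linarith

lemma den_lt_one (D p : ℕ) (hp : 2 ≤ p) : den D p < 1 := by
  have h2 : (2 : ℝ) ≤ p := by exact_mod_cast hp
  have h1 : 1 / (p : ℝ) ≤ 1 / 2 := one_div_le_one_div_of_le (by norm_num) h2
  unfold den
  have : 0 < (1 - 1 / (p : ℝ)) ^ D := pow_pos (by linarith) D
  linarith

/-- `1/p ≤ den` -/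
lemma den_ge (D p : ℕ) (hD : 0 < D) (hp : 2 ≤ p) : 1 / (p : ℝ) ≤ den D p := by
  have h2 : (2 : ℝ) ≤ p := by exact_mod_cast hp
  have h0 : 0 < 1 / (p : ℝ) := by positivity
  have h1 : 1 / (p : ℝ) ≤ 1 / 2 := one_div_le_one_div_of_le (by norm_num) h2
  unfold den
  have : (1 - 1 / (p : ℝ)) ^ D ≤ (1 - 1 / (p : ℝ)) ^ 1 :=
    pow_le_pow_of_le_one (by linarith) (by linarith) hD
  rw [pow_one] at this
  linarith

/-- the sieve with `ν(p) = 1 - (1 - 1/p)^D` -/
noncomputable def sw (D : ℕ) (hD : 0 < D) (P : ℕ) (hP : Squarefree P) : BoundingSieve where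
  support := ∅
  prodPrimes := P
  prodPrimes_squarefree := hP
  weights := 0
  weights_nonneg := fun _ => le_rfl
  totalMass := 1
  nu := prodPrimeFactors (den D)
  nu_mult := IsMultiplicative.prodPrimeFactors _
  nu_pos_of_prime := by
    intro p hp _
    rw [prodPrimeFactors_apply hp.ne_zero, hp.primeFactors, prod_singleton]
    exact den_pos D p hD hp.two_le
  nu_lt_one_of_prime := by
    intro p hp _
    rw [prodPrimeFactors_apply hp.ne_zero, hp.primeFactors, prod_singleton]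
    exact den_lt_one D p hp.two_le

variable (D : ℕ) (hD : 0 < D)

lemma sw_nu (P : ℕ) (hP : Squarefree P) (a : ℕ) (ha : a ≠ 0) :
    (sw D hD P hP).nu a = ∏ p ∈ a.primeFactors, den D p := by
  change prodPrimeFactors (den D) a = _
  rw [prodPrimeFactors_apply ha]

lemma sw_nu_prime (P : ℕ) (hP : Squarefree P) (p : ℕ) (hp : p.Prime) :
    (sw D hD P hP).nu p = den D p := by
  rw [sw_nu D hD P hP p hp.ne_zero, hp.primeFactors, prod_singleton]

lemma den_term (p : ℕ) (hp : 2 ≤ p) : (D : ℝ) / p ≤ den D p * (1 - den D p)⁻¹ := by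
  have h2 : (2 : ℝ) ≤ p := by exact_mod_cast hp
  have h0 : 0 < 1 / (p : ℝ) := by positivity
  have h1 : 1 / (p : ℝ) ≤ 1 / 2 := one_div_le_one_div_of_le (by norm_num) h2
  set x := 1 / (p : ℝ) with hx
  have e1 : 1 - den D p = (1 - x) ^ D := by unfold den; ring
  rw [e1]
  have h3 : 0 < (1 - x) ^ D := pow_pos (by linarith) D
  have e2 : den D p * ((1 - x) ^ D)⁻¹ = ((1 - x)⁻¹) ^ D - 1 := by
    unfold den
    rw [← hx, inv_pow]
    field_simp
  rw [e2]
  have h4 : 1 + x ≤ (1 - x)⁻¹ := by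
    rw [← one_div, le_div_iff₀ (by linarith)]
    nlinarith
  have h5 : (1 + x) ^ D ≤ ((1 - x)⁻¹) ^ D := pow_le_pow_left₀ (by linarith) h4 D
  have h6 := one_add_mul_le_pow (a := x) (by linarith) D
  have h7 : (D : ℝ) / p = D * x := by rw [hx]; ring
  linarith

lemma sw_terms (P : ℕ) (hP : Squarefree P) (a : ℕ) (ha : Squarefree a) :
    ∏ p ∈ a.primeFactors, ((D : ℝ) / p) ≤ (sw D hD P hP).selbergTerms a := by
  rw [BoundingSieve.selbergTerms_apply, sw_nu D hD P hP a ha.ne_zero, ← prod_mul_distrib]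
  apply Finset.prod_le_prod
  · intro p _; positivity
  · intro p hp
    have hpp := Nat.prime_of_mem_primeFactors hp
    rw [sw_nu_prime D hD P hP p hpp]
    exact den_term D p hpp.two_le

/-- the product of the primes -/
noncomputable def Pq (n Q R : ℕ) : ℕ := ∏ p ∈ Ls n Q R, p

lemma Ls_prime (n Q R : ℕ) : ∀ p ∈ Ls n Q R, p.Prime := fun p hp => ((mem_Ls n Q R p).mp hp).2.1

lemma Pq_sqfree (n Q R : ℕ) : Squarefree (Pq n Q R) :=
  Pool.Agent.R361.QF.sqfree_prod_primes _ (Ls_prime n Q R)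

lemma Pq_prime (n Q R p : ℕ) (hp : p.Prime) : p ∣ Pq n Q R ↔ p ≤ R ∧ n ∣ p - 1 ∧ ¬ p ∣ Q := by
  unfold Pq
  rw [hp.prime.dvd_finsetProd_iff]
  constructor
  · rintro ⟨q, hq, hpq⟩
    rw [mem_Ls] at hq
    have := (Nat.prime_dvd_prime_iff_eq hp hq.2.1).mp hpq
    subst this
    exact ⟨hq.1, hq.2.2⟩
  · rintro ⟨h1, h2⟩
    exact ⟨p, by rw [mem_Ls]; exact ⟨h1, hp, h2⟩, dvd_rfl⟩

lemma FF_le_selS (n Q R : ℕ) : FF D (Ls n Q R) R ≤
    selS (sw D hD (Pq n Q R) (Pq_sqfree n Q R)) R := by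
  classical
  unfold FF selS
  set S := Ls n Q R with hS
  have hprime : ∀ T ∈ S.powerset.filter (fun T => ∏ p ∈ T, p ≤ R), ∀ p ∈ T, p.Prime := by
    intro T hT p hp
    rw [mem_filter, mem_powerset] at hT
    exact Ls_prime n Q R p (hT.1 hp)
  have hpf : ∀ T ∈ S.powerset.filter (fun T => ∏ p ∈ T, p ≤ R),
      (∏ p ∈ T, p).primeFactors = T := by
    intro T hT
    exact Nat.primeFactors_prod (hprime T hT)
  have hinj : Set.InjOn (fun T : Finset ℕ => ∏ p ∈ T, p)
      (S.powerset.filter (fun T => ∏ p ∈ T, p ≤ R) : Finset (Finset ℕ)) := by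
    intro T hT T' hT' h
    have h1 := hpf T hT
    have h2 := hpf T' hT'
    simp only at h
    rw [← h1, ← h2, h]
  calc ∑ T ∈ S.powerset.filter (fun T => ∏ p ∈ T, p ≤ R), ∏ p ∈ T, ((D : ℝ) / (p : ℝ))
      ≤ ∑ T ∈ S.powerset.filter (fun T => ∏ p ∈ T, p ≤ R),
        (sw D hD (Pq n Q R) (Pq_sqfree n Q R)).selbergTerms (∏ p ∈ T, p) := by
        apply sum_le_sum
        intro T hT
        have h1 := sw_terms D hD (Pq n Q R) (Pq_sqfree n Q R) (∏ p ∈ T, p)
          (Pool.Agent.R361.QF.sqfree_prod_primes T (hprime T hT))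
        rwa [hpf T hT] at h1
    _ = ∑ a ∈ (S.powerset.filter (fun T => ∏ p ∈ T, p ≤ R)).image (fun T => ∏ p ∈ T, p),
        (sw D hD (Pq n Q R) (Pq_sqfree n Q R)).selbergTerms a := by
        rw [sum_image (fun T hT T' hT' h => hinj hT hT' h)]
    _ ≤ _ := by
        apply sum_le_sum_of_subset_of_nonneg
        · intro a ha
          rw [mem_image] at ha
          obtain ⟨T, hT, rfl⟩ := ha
          rw [mem_filter, mem_powerset] at hT
          rw [mem_filter, Nat.mem_divisors]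
          refine ⟨⟨?_, (Pq_sqfree n Q R).ne_zero⟩, by exact_mod_cast hT.2⟩
          change _ ∣ Pq n Q R
          exact prod_dvd_prod_of_subset _ _ _ hT.1
        · intro a ha _
          rw [mem_filter, Nat.mem_divisors] at ha
          exact (BoundingSieve.selbergTerms_pos ha.1.1).le

theorem selS_low (n Q : ℕ) [NeZero n] (hQ : Q ≠ 0) : ∃ c : ℝ, 0 < c ∧ ∃ R0 : ℕ, ∀ R ≥ R0,
    c * Real.log R ≤ selS (sw n.totient (Nat.totient_pos.mpr (NeZero.pos n)) (Pq n Q R)
      (Pq_sqfree n Q R)) R := by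
  obtain ⟨c, hc, R0, h⟩ := FF_lower n Q hQ
  exact ⟨c, hc, R0, fun R hR => (h R hR).trans (FF_le_selS _ _ n Q R)⟩

lemma nu_inv (P : ℕ) (hP : Squarefree P) (m : ℕ) (hm : m ∣ P) : ((sw D hD P hP).nu m)⁻¹ ≤ m := by
  have hms := hP.squarefree_of_dvd hm
  have h2 : (m : ℝ) = ∏ p ∈ m.primeFactors, (p : ℝ) := by
    rw [← Nat.cast_prod, Nat.prod_primeFactors_of_squarefree hms]
  rw [sw_nu D hD P hP m hms.ne_zero, ← prod_inv_distrib, h2]
  apply Finset.prod_le_prod
  · intro p hp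
    exact (inv_pos.mpr (den_pos D p hD (Nat.prime_of_mem_primeFactors hp).two_le)).le
  · intro p hp
    have hp2 := (Nat.prime_of_mem_primeFactors hp).two_le
    have h3 : (0 : ℝ) < p := by exact_mod_cast (by omega : 0 < p)
    have h4 := den_ge D p hD hp2
    have h5 := inv_anti₀ (by positivity) h4
    rwa [one_div, inv_inv] at h5

section

variable {n : ℕ} [NeZero n] {R : Type} [CommRing R] (Y : Cyc n R) [IsDomain R]

/-- the number of zeros of the norm form modulo a product of split primes -/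
lemma Cyc.zr_formula (P : ℕ) (hP : Squarefree P) (hsplit : ∀ p : ℕ, p.Prime → p ∣ P → n ∣ p - 1)
    (L : ℕ) (hL : L ∣ P) [NeZero L] :
    (Y.zr L : ℝ) = (L : ℝ) ^ n.totient *
      (sw n.totient (Nat.totient_pos.mpr (NeZero.pos n)) P hP).nu L := by
  have key : ∀ s : Finset ℕ, (∀ p ∈ s, p.Prime ∧ p ∣ P) → ∀ L : ℕ, L = ∏ p ∈ s, p →
      ∀ hN : NeZero L, (Y.zr L : ℝ) = (L : ℝ) ^ n.totient * ∏ p ∈ s, den n.totient p := by
    intro s
    induction s using Finset.induction_on with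
    | empty =>
      intro _ L hL hN
      rw [prod_empty] at hL
      subst hL
      rw [Y.zr_one]
      simp
    | insert p s hp ih =>
      intro hs L hL hN
      rw [prod_insert hp] at hL
      have hpp := (hs p (mem_insert_self _ _)).1
      have hs' : ∀ q ∈ s, q.Prime ∧ q ∣ P := fun q hq => hs q (mem_insert_of_mem hq)
      have hcop : p.Coprime (∏ q ∈ s, q) := by
        apply Nat.Coprime.prod_right
        intro q hq
        exact (Nat.coprime_primes hpp (hs' q hq).1).mpr (fun h => hp (h ▸ hq))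
      have hfp : Fact p.Prime := ⟨hpp⟩
      have hNp : NeZero p := ⟨hpp.ne_zero⟩
      have hNs : NeZero (∏ q ∈ s, q) := ⟨prod_ne_zero_iff.mpr fun q hq => (hs' q hq).1.ne_zero⟩
      subst hL
      rw [Y.zr_mul p (∏ q ∈ s, q) hcop]
      push_cast
      rw [ih hs' _ rfl hNs, prod_insert hp,
        Y.zr_prime p (hsplit p hpp (hs p (mem_insert_self _ _)).2)]
      push_cast
      ring
  have hL0 : L ≠ 0 := NeZero.ne L
  have hLs : Squarefree L := hP.squarefree_of_dvd hL
  rw [key L.primeFactors (fun p hp => ⟨Nat.prime_of_mem_primeFactors hp,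
    (Nat.dvd_of_mem_primeFactors hp).trans hL⟩) L
    (Nat.prod_primeFactors_of_squarefree hLs).symm inferInstance, sw_nu _ _ P hP L hL0]

end

end Pool.Agent.T9h29.CY
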