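import Mathlib
import Pool.Agent.R361.QF.Bound
import Pool.Agent.T9h29.CY.Sv

set_option autoImplicit false

/-! # The sieve twisted by characters of the ring -/

namespace Pool.Agent.T9h29.CY

open Finset ArithmeticFunction
open Pool.Agent.Helper923.PPS (selS selW selW_eq_zero abs_selW_le mainSum_selW selS_pos selW_one)
open Pool.Agent.R361.QF (cm cm_apply cm_prime cm_mul cm_congr)
open scoped ComplexConjugate

/-- a system of characters `ψ q` of the ring modulo the primes `q ∤ Q`, of exact order `d` -/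
structure QE {n : ℕ} [NeZero n] {R : Type} [CommRing R] (Y : Cyc n R) (d Q : ℕ)
    (ψ : ℕ → R → ℂ) : Prop where
  one : ∀ q : ℕ, q.Prime → ¬ q ∣ Q → ψ q 1 = 1
  mul : ∀ q : ℕ, q.Prime → ∀ α β, ψ q (α * β) = ψ q α * ψ q β
  per : ∀ q : ℕ, q.Prime → Pr q (ψ q)
  val : ∀ q : ℕ, q.Prime → ∀ α, ψ q α = 0 ∨ ψ q α ^ d = 1
  zero : ∀ q : ℕ, q.Prime → q ∣ Q → ∀ α, ψ q α = 0
  gen : ∀ q : ℕ, q.Prime → ¬ q ∣ Q → ∃ β : R, ¬ (q : ℤ) ∣ Y.nm β ∧ IsPrimitiveRoot (ψ q β) d

section

variable {n : ℕ} [NeZero n] {R : Type} [CommRing R] {Y : Cyc n R} {d Q : ℕ} {ψ : ℕ → R → ℂ}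

lemma QE.powj (h : QE Y d Q ψ) (j : ℕ) (hj : j.Coprime d) (hj0 : j ≠ 0) :
    QE Y d Q (fun q α => ψ q α ^ j) where
  one q hq hqQ := by rw [h.one q hq hqQ, one_pow]
  mul q hq α β := by rw [h.mul q hq, mul_pow]
  per q hq α β hab := by
    change ψ q α ^ j = ψ q β ^ j
    rw [h.per q hq α β hab]
  val q hq α := by
    rcases h.val q hq α with h1 | h1
    · left; rw [h1, zero_pow hj0]
    · right; rw [← pow_mul, mul_comm, pow_mul, h1, one_pow]
  zero q hq hqQ α := by rw [h.zero q hq hqQ, zero_pow hj0]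
  gen q hq hqQ := by
    obtain ⟨β, h1, h2⟩ := h.gen q hq hqQ
    exact ⟨β, h1, h2.pow_of_coprime j hj⟩

lemma QE.norm_le (h : QE Y d Q ψ) (hd : 0 < d) (α : R) (m : ℕ) :
    ‖cm (fun q => ψ q α) m‖ ≤ 1 := by
  rcases Nat.eq_zero_or_pos m with rfl | hn
  · simp
  · rw [cm_apply _ m hn.ne', norm_prod]
    apply Finset.prod_le_one
    · intro q _; exact norm_nonneg _
    · intro q hq
      rw [norm_pow]
      apply pow_le_one₀ (norm_nonneg _)
      rcases h.val q (Nat.prime_of_mem_primeFactors hq) α with h1 | h1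
      · rw [h1]; simp
      · have : ‖ψ q α‖ ^ d = 1 := by rw [← norm_pow, h1, norm_one]
        exact ((pow_eq_one_iff_of_nonneg (norm_nonneg _) hd.ne').mp this).le

lemma QE.cm_mul' (h : QE Y d Q ψ) (α β : R) (m : ℕ) :
    cm (fun q => ψ q (α * β)) m = cm (fun q => ψ q α) m * cm (fun q => ψ q β) m := by
  rw [← cm_mul]
  apply cm_congr
  intro q hq
  exact h.mul q (Nat.prime_of_mem_primeFactors hq) α β

lemma int_dvd_cast {m L : ℕ} (h : m ∣ L) : ((m : ℤ) : R) ∣ ((L : ℤ) : R) := by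
  obtain ⟨k, rfl⟩ := h
  push_cast
  exact dvd_mul_right _ _

lemma QE.cm_per (h : QE Y d Q ψ) (m L : ℕ) (hL : m ∣ L) :
    Pr L (fun α : R => cm (fun q => ψ q α) m) := by
  intro α β h1
  apply cm_congr
  intro q hq
  exact h.per q (Nat.prime_of_mem_primeFactors hq) α β
    ((int_dvd_cast ((Nat.dvd_of_mem_primeFactors hq).trans hL)).trans h1)

variable [IsDomain R]

/-- an element congruent to a given one modulo `q` and to `1` modulo the rest -/
lemma QE.exists_beta (h : QE Y d Q ψ) (q : ℕ) (hq : q.Prime) (hqQ : ¬ q ∣ Q) (L : ℕ)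
    (hL : L ≠ 0) :
    ∃ β : R, IsCoprime (Y.nm β) (L : ℤ) ∧ IsPrimitiveRoot (ψ q β) d ∧
      ∀ p : ℕ, p.Prime → p ∣ L → p ≠ q → ¬ p ∣ Q → ψ p β = 1 := by
  obtain ⟨β0, hβ0, hβ0'⟩ := h.gen q hq hqQ
  obtain ⟨a, L', hL', hLL'⟩ := Nat.exists_eq_pow_mul_and_not_dvd hL q hq.ne_one
  have hcop : Nat.Coprime q L' := (Nat.Prime.coprime_iff_not_dvd hq).mpr hL'
  obtain ⟨t, ht1, ht2⟩ := Nat.chineseRemainder hcop 1 0
  have ht1' : (q : ℤ) ∣ (t : ℤ) - 1 := by
    have := (Nat.modEq_iff_dvd.mp ht1.symm)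
    exact_mod_cast this
  have ht2' : (L' : ℤ) ∣ (t : ℤ) := by
    have := Nat.modEq_zero_iff_dvd.mp ht2
    exact_mod_cast this
  set β : R := 1 + ((t : ℤ) : R) * (β0 - 1) with hβ
  have hq1 : ((q : ℤ) : R) ∣ β - β0 := by
    obtain ⟨k, hk⟩ := ht1'
    refine ⟨(k : R) * (β0 - 1), ?_⟩
    have h1 : (((t : ℤ) - 1 : ℤ) : R) = (((q : ℤ) * k : ℤ) : R) := by rw [hk]
    push_cast at h1
    rw [hβ]
    push_cast
    linear_combination (β0 - 1) * h1
  have hl1 : ((L' : ℤ) : R) ∣ β - 1 := by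
    obtain ⟨k, hk⟩ := ht2'
    refine ⟨(k : R) * (β0 - 1), ?_⟩
    have h1 : (((t : ℤ) : ℤ) : R) = (((L' : ℤ) * k : ℤ) : R) := by rw [hk]
    push_cast at h1
    rw [hβ]
    push_cast
    linear_combination (β0 - 1) * h1
  refine ⟨β, ?_, ?_, ?_⟩
  · rw [hLL']
    push_cast
    apply IsCoprime.mul_right
    · apply IsCoprime.pow_right
      rw [isCoprime_comm, (Nat.prime_iff_prime_int.mp hq).coprime_iff_not_dvd]
      intro h1
      exact hβ0 ((Y.nm_per_iff q β β0 hq1).mp h1)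
    · have h2 := Y.nm_per L' β 1 hl1
      rw [map_one] at h2
      obtain ⟨k, hk⟩ := h2
      exact ⟨1, -k, by linear_combination hk⟩
  · rw [h.per q hq β β0 hq1]
    exact hβ0'
  · intro p hp hpL hpq hpQ
    have hpL' : p ∣ L' := by
      rw [hLL'] at hpL
      rcases hp.dvd_mul.mp hpL with h1 | h1
      · exact absurd ((Nat.prime_dvd_prime_iff_eq hp hq).mp (hp.dvd_of_dvd_pow h1)) hpq
      · exact h1
    rw [h.per p hp β 1 ((int_dvd_cast hpL').trans hl1)]
    exact h.one p hp hpQ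

/-- the twisted function with a divisibility condition -/
noncomputable def tw (Y : Cyc n R) (ψ : ℕ → R → ℂ) (m k k' : ℕ) (α : R) : ℂ :=
  open Classical in
  (if (m : ℤ) ∣ Y.nm α then (1 : ℂ) else 0) *
    (cm (fun q => ψ q α) k * conj (cm (fun q => ψ q α) k'))

lemma tw_norm (h : QE Y d Q ψ) (hd : 0 < d) (m k k' : ℕ) (α : R) :
    ‖tw Y ψ m k k' α‖ ≤ 1 := by
  unfold tw
  have h2 := h.norm_le hd α k
  have h3 := h.norm_le hd α k'
  have h4 : ‖cm (fun q => ψ q α) k * conj (cm (fun q => ψ q α) k')‖ ≤ 1 := by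
    rw [norm_mul, RCLike.norm_conj]
    calc _ ≤ 1 * (1 : ℝ) := mul_le_mul h2 h3 (norm_nonneg _) zero_le_one
      _ = 1 := by norm_num
  split_ifs
  · rw [one_mul]; exact h4
  · rw [zero_mul, norm_zero]; exact zero_le_one

lemma tw_per (h : QE Y d Q ψ) (m k k' : ℕ) : Pr (m * k * k') (tw Y ψ m k k') := by
  intro α β h1
  unfold tw
  have e1 : (m : ℤ) ∣ Y.nm α ↔ (m : ℤ) ∣ Y.nm β := by
    apply Y.nm_per_iff
    exact (int_dvd_cast (Dvd.dvd.mul_right (dvd_mul_right m k) k')).trans h1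
  have e2 := h.cm_per k (m * k * k') (Dvd.dvd.mul_right (dvd_mul_left k m) k') α β h1
  have e3 := h.cm_per k' (m * k * k') (dvd_mul_left k' _) α β h1
  simp only at e2 e3
  rw [e2, e3]
  simp only [e1]

lemma tw_comp (h : QE Y d Q ψ) (hd : 0 < d) (m k k' : ℕ) [NeZero (m * k * k')]
    (hn : k ≠ 0) (hn' : k' ≠ 0)
    (hnQ : k.Coprime Q) (hnQ' : k'.Coprime Q)
    (hne : ∃ q, q.Prime ∧ ¬ k.factorization q ≡ k'.factorization q [MOD d]) :
    Y.cp (m * k * k') (tw Y ψ m k k') = 0 := by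
  obtain ⟨q, hq, hqne⟩ := hne
  have hqn : q ∣ k ∨ q ∣ k' := by
    by_contra hcon
    push Not at hcon
    apply hqne
    rw [Nat.factorization_eq_zero_of_not_dvd hcon.1, Nat.factorization_eq_zero_of_not_dvd hcon.2]
  have hqQ : ¬ q ∣ Q := by
    intro h1
    rcases hqn with h2 | h2
    · exact Nat.Prime.not_coprime_iff_dvd.mpr ⟨q, hq, h2, h1⟩ hnQ
    · exact Nat.Prime.not_coprime_iff_dvd.mpr ⟨q, hq, h2, h1⟩ hnQ'
  obtain ⟨β, hβ1, hβ2, hβ3⟩ := h.exists_beta q hq hqQ (m * k * k') (NeZero.ne _)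
  set u := ψ q β with hu
  have hun : ‖u‖ = 1 := by
    have : ‖u‖ ^ d = 1 := by rw [← norm_pow, hβ2.pow_eq_one, norm_one]
    exact (pow_eq_one_iff_of_nonneg (norm_nonneg _) hd.ne').mp this
  have hcmβ : ∀ l : ℕ, l ≠ 0 → l ∣ m * k * k' → l.Coprime Q →
      cm (fun q => ψ q β) l = u ^ l.factorization q := by
    intro l hl hld hlQ
    rw [cm_apply _ l hl]
    by_cases hqk : q ∈ l.primeFactors
    · rw [prod_eq_single q]
      · intro p hp hpq
        have hpp := Nat.prime_of_mem_primeFactors hp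
        have hpk := Nat.dvd_of_mem_primeFactors hp
        rw [hβ3 p hpp (hpk.trans hld) hpq, one_pow]
        intro hpQ
        exact Nat.Prime.not_coprime_iff_dvd.mpr ⟨p, hpp, hpk, hpQ⟩ hlQ
      · intro h1; exact absurd hqk h1
    · have h0 : l.factorization q = 0 := by
        rw [← Finsupp.notMem_support_iff]; exact hqk
      rw [h0, pow_zero]
      apply prod_eq_one
      intro p hp
      have hpp := Nat.prime_of_mem_primeFactors hp
      have hpk := Nat.dvd_of_mem_primeFactors hp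
      rw [hβ3 p hpp (hpk.trans hld) (fun h1 => hqk (h1 ▸ hp)), one_pow]
      intro hpQ
      exact Nat.Prime.not_coprime_iff_dvd.mpr ⟨p, hpp, hpk, hpQ⟩ hlQ
  have hβn := hcmβ k hn (Dvd.dvd.mul_right (dvd_mul_left k m) k') hnQ
  have hβn' := hcmβ k' hn' (dvd_mul_left k' _) hnQ'
  apply Y.cp_zero (m * k * k') _ (tw_per h m k k') β hβ1
    (u ^ k.factorization q * conj (u ^ k'.factorization q))
  · intro h1
    apply hqne
    have huu : conj u * u = 1 := by rw [Complex.conj_mul', hun]; norm_num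
    have h2 : u ^ k.factorization q = u ^ k'.factorization q := by
      calc u ^ k.factorization q = u ^ k.factorization q * (conj u * u) ^ k'.factorization q := by
            rw [huu, one_pow, mul_one]
        _ = (u ^ k.factorization q * conj (u ^ k'.factorization q)) * u ^ k'.factorization q := by
            rw [mul_pow, map_pow]; ring
        _ = _ := by rw [h1, one_mul]
    have h4 : u ≠ 0 := by
      intro h5; rw [h5, norm_zero] at hun; norm_num at hun
    have ho : d = orderOf (Units.mk0 u h4) := by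
      rw [← orderOf_units, Units.val_mk0]
      exact hβ2.eq_orderOf
    rw [ho]
    apply pow_eq_pow_iff_modEq.mp
    apply Units.ext
    rw [Units.val_pow_eq_pow_val, Units.val_pow_eq_pow_val, Units.val_mk0]
    exact h2
  · intro α
    unfold tw
    have e1 : (m : ℤ) ∣ Y.nm (β * α) ↔ (m : ℤ) ∣ Y.nm α := by
      rw [map_mul]
      have hcop : IsCoprime (Y.nm β) (m : ℤ) := by
        apply hβ1.of_isCoprime_of_dvd_right
        exact_mod_cast Dvd.dvd.mul_right (dvd_mul_right m k) k'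
      constructor
      · intro h1; exact hcop.symm.dvd_of_dvd_mul_left h1
      · intro h1; exact Dvd.dvd.mul_left h1 _
    rw [h.cm_mul' β α k, h.cm_mul' β α k', hβn, hβn', map_mul (starRingEnd ℂ)]
    by_cases h5 : (m : ℤ) ∣ Y.nm α
    · rw [if_pos (e1.mpr h5), if_pos h5]; ring
    · rw [if_neg (fun h6 => h5 (e1.mp h6)), if_neg h5]; ring

/-- the sieve weight -/
noncomputable def wt (Y : Cyc n R) (D : Finset ℕ) (w : ℕ → ℝ) (α : R) : ℝ :=
  open Classical in (∑ m ∈ D.filter (fun m : ℕ => (m : ℤ) ∣ Y.nm α), w m) ^ 2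

lemma wt_expand (Y : Cyc n R) (D : Finset ℕ) (w : ℕ → ℝ) (k k' : ℕ) (y : ℕ) :
    ∑ z ∈ bx n.totient y, (wt Y D w (Y.el z) : ℂ) *
      cm (fun q => ψ q (Y.el z)) k * conj (cm (fun q => ψ q (Y.el z)) k') =
    ∑ m ∈ D, ∑ m' ∈ D, ((w m * w m' : ℝ) : ℂ) *
      ∑ z ∈ bx n.totient y, tw Y ψ (m.lcm m') k k' (Y.el z) := by
  classical
  have h1 : ∀ z ∈ bx n.totient y, (wt Y D w (Y.el z) : ℂ) *
      cm (fun q => ψ q (Y.el z)) k * conj (cm (fun q => ψ q (Y.el z)) k') =
      ∑ m ∈ D, ∑ m' ∈ D, ((w m * w m' : ℝ) : ℂ) * tw Y ψ (m.lcm m') k k' (Y.el z) := by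
    intro z _
    unfold wt
    rw [sum_filter, sq, sum_mul_sum]
    push_cast
    rw [sum_mul, sum_mul]
    apply sum_congr rfl
    intro m _
    rw [sum_mul, sum_mul]
    apply sum_congr rfl
    intro m' _
    unfold tw
    have e1 : (((m.lcm m' : ℕ)) : ℤ) ∣ Y.nm (Y.el z) ↔
        (m : ℤ) ∣ Y.nm (Y.el z) ∧ (m' : ℤ) ∣ Y.nm (Y.el z) := by
      rw [Int.natCast_dvd, Int.natCast_dvd, Int.natCast_dvd, Nat.lcm_dvd_iff]
    by_cases h2 : (m : ℤ) ∣ Y.nm (Y.el z)
    · by_cases h3 : (m' : ℤ) ∣ Y.nm (Y.el z)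
      · rw [if_pos h2, if_pos h3, if_pos (e1.mpr ⟨h2, h3⟩)]; ring
      · rw [if_neg h3, if_neg (fun h4 => h3 (e1.mp h4).2)]; simp
    · rw [if_neg h2, if_neg (fun h4 => h2 (e1.mp h4).1)]; simp
  rw [sum_congr rfl h1, sum_comm]
  apply sum_congr rfl
  intro m _
  rw [sum_comm]
  apply sum_congr rfl
  intro m' _
  rw [mul_sum]

/-- the implied constant -/
noncomputable def kD (n : ℕ) : ℝ := n.totient * 2 ^ n.totient

theorem corr_bound (h : QE Y d Q ψ) (hd : 0 < d) (D : Finset ℕ) (w : ℕ → ℝ) (z : ℕ)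
    (hD : ∀ m ∈ D, 0 < m) (hw : ∀ m ∈ D, |w m| ≤ m) (hwR : ∀ m ∈ D, z < m → w m = 0)
    (k k' : ℕ) (hn : k ≠ 0) (hn' : k' ≠ 0) (hnQ : k.Coprime Q) (hnQ' : k'.Coprime Q)
    (hne : ∃ q, q.Prime ∧ ¬ k.factorization q ≡ k'.factorization q [MOD d])
    (y : ℕ) (hY : z ^ 2 * k * k' ≤ 2 * y + 1) :
    ‖∑ v ∈ bx n.totient y, (wt Y D w (Y.el v) : ℂ) *
      cm (fun q => ψ q (Y.el v)) k * conj (cm (fun q => ψ q (Y.el v)) k')‖ ≤
      kD n * (2 * y + 1) ^ n.totient / (2 * y + 1) * (k * k') * (z : ℝ) ^ 6 := by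
  rw [wt_expand]
  set M : ℝ := kD n * (2 * y + 1) ^ n.totient / (2 * y + 1) with hM
  have hM0 : 0 ≤ M := by rw [hM, kD]; positivity
  have h1 : ∀ m ∈ D, ∀ m' ∈ D, ‖((w m * w m' : ℝ) : ℂ) *
      ∑ v ∈ bx n.totient y, tw Y ψ (m.lcm m') k k' (Y.el v)‖ ≤
      M * (k * k') * ((|w m| * m) * (|w m'| * m')) := by
    intro m hm m' hm'
    rw [norm_mul, Complex.norm_real, Real.norm_eq_abs, abs_mul]
    by_cases hz : w m * w m' = 0
    · have : |w m| * |w m'| = 0 := by rw [← abs_mul, hz, abs_zero]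
      rw [this, zero_mul]
      positivity
    · have hmR : m ≤ z := by
        by_contra hcon
        exact hz (by rw [hwR m hm (by omega), zero_mul])
      have hmR' : m' ≤ z := by
        by_contra hcon
        exact hz (by rw [hwR m' hm' (by omega), mul_zero])
      have hlcm : m.lcm m' ≤ m * m' := Nat.le_of_dvd (Nat.mul_pos (hD m hm) (hD m' hm'))
        (Nat.lcm_dvd (dvd_mul_right _ _) (dvd_mul_left _ _))
      have hlcm0 : 0 < m.lcm m' := Nat.lcm_pos (hD m hm) (hD m' hm')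
      have hNZ : NeZero (m.lcm m' * k * k') := ⟨by positivity⟩
      have hL : m.lcm m' * k * k' ≤ 2 * y + 1 := by
        refine le_trans ?_ hY
        apply Nat.mul_le_mul_right
        apply Nat.mul_le_mul_right
        refine hlcm.trans ?_
        rw [sq]
        exact Nat.mul_le_mul hmR hmR'
      have h2 := Y.bx_cp (m.lcm m' * k * k') y hL (tw Y ψ (m.lcm m') k k')
        (tw_per h _ k k') (fun α => tw_norm h hd _ k k' α)
      rw [tw_comp h hd (m.lcm m') k k' hn hn' hnQ hnQ' hne, mul_zero, sub_zero] at h2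
      have h3 : ((m.lcm m' * k * k' : ℕ) : ℝ) ≤ (m * m') * (k * k') := by
        have : m.lcm m' * k * k' ≤ (m * m') * (k * k') := by
          rw [mul_assoc]
          exact Nat.mul_le_mul_right _ hlcm
        exact_mod_cast this
      have h4 : (n.totient : ℝ) * 2 ^ n.totient * (2 * y + 1) ^ n.totient *
          (((m.lcm m' * k * k' : ℕ) : ℝ) / (2 * y + 1)) = M * ((m.lcm m' * k * k' : ℕ) : ℝ) := by
        rw [hM, kD]; ring
      rw [h4] at h2
      calc |w m| * |w m'| * ‖∑ v ∈ bx n.totient y, tw Y ψ (m.lcm m') k k' (Y.el v)‖ ≤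
            |w m| * |w m'| * (M * ((m * m') * (k * k'))) := by
            apply mul_le_mul_of_nonneg_left _ (by positivity)
            exact h2.trans (mul_le_mul_of_nonneg_left h3 hM0)
        _ = _ := by ring
  calc ‖∑ m ∈ D, ∑ m' ∈ D, ((w m * w m' : ℝ) : ℂ) *
        ∑ v ∈ bx n.totient y, tw Y ψ (m.lcm m') k k' (Y.el v)‖
      ≤ ∑ m ∈ D, ∑ m' ∈ D, M * (k * k') * ((|w m| * m) * (|w m'| * m')) := by
        refine (norm_sum_le _ _).trans (sum_le_sum fun m hm => ?_)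
        exact (norm_sum_le _ _).trans (sum_le_sum fun m' hm' => h1 m hm m' hm')
    _ = M * (k * k') * (∑ m ∈ D, |w m| * m) ^ 2 := by
        rw [sq, sum_mul_sum, mul_sum]
        apply sum_congr rfl
        intro m _
        rw [mul_sum]
    _ ≤ M * (k * k') * ((z : ℝ) ^ 3) ^ 2 := by
        apply mul_le_mul_of_nonneg_left _ (by positivity)
        apply pow_le_pow_left₀ (sum_nonneg fun m _ => by positivity)
        exact Pool.Agent.R361.QF.sum_w_bound D w z hD hw hwR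
    _ = _ := by ring

theorem main_bound (P : ℕ) (hP : Squarefree P)
    (hsplit : ∀ p : ℕ, p.Prime → p ∣ P → n ∣ p - 1) (w : ℕ → ℝ) (z : ℕ)
    (hw : ∀ m ∈ P.divisors, |w m| ≤ m) (hwR : ∀ m ∈ P.divisors, z < m → w m = 0)
    (y : ℕ) (hY : z ^ 2 ≤ 2 * y + 1) :
    ∑ v ∈ bx n.totient y, wt Y P.divisors w (Y.el v) ≤
      (2 * y + 1) ^ n.totient *
        (sw n.totient (Nat.totient_pos.mpr (NeZero.pos n)) P hP).mainSum
          (BoundingSieve.lambdaSquared w) +
        kD n * (2 * y + 1) ^ n.totient / (2 * y + 1) * (z : ℝ) ^ 6 := by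
  classical
  set sv := sw n.totient (Nat.totient_pos.mpr (NeZero.pos n)) P hP with hsv
  set D := P.divisors with hDdef
  have hD : ∀ m ∈ D, 0 < m := fun m hm => Nat.pos_of_mem_divisors hm
  set M : ℝ := 2 * y + 1 with hM
  have hM0 : 0 < M := by positivity
  set K : ℝ := kD n * M ^ n.totient / M with hK
  have hK0 : 0 ≤ K := by rw [hK, kD]; positivity
  have hexp : ∑ v ∈ bx n.totient y, wt Y D w (Y.el v) =
      ∑ m ∈ D, ∑ m' ∈ D, (w m * w m') * ∑ v ∈ bx n.totient y,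
        (if ((m.lcm m' : ℕ) : ℤ) ∣ Y.nm (Y.el v) then (1 : ℝ) else 0) := by
    have h1 : ∀ v ∈ bx n.totient y, wt Y D w (Y.el v) =
        ∑ m ∈ D, ∑ m' ∈ D, (w m * w m') *
          (if ((m.lcm m' : ℕ) : ℤ) ∣ Y.nm (Y.el v) then (1 : ℝ) else 0) := by
      intro v _
      unfold wt
      rw [sum_filter, sq, sum_mul_sum]
      apply sum_congr rfl
      intro m _
      apply sum_congr rfl
      intro m' _
      have e1 : (((m.lcm m' : ℕ)) : ℤ) ∣ Y.nm (Y.el v) ↔
          (m : ℤ) ∣ Y.nm (Y.el v) ∧ (m' : ℤ) ∣ Y.nm (Y.el v) := by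
        rw [Int.natCast_dvd, Int.natCast_dvd, Int.natCast_dvd, Nat.lcm_dvd_iff]
      by_cases h2 : (m : ℤ) ∣ Y.nm (Y.el v)
      · by_cases h3 : (m' : ℤ) ∣ Y.nm (Y.el v)
        · rw [if_pos h2, if_pos h3, if_pos (e1.mpr ⟨h2, h3⟩)]; ring
        · rw [if_neg h3, if_neg (fun h4 => h3 (e1.mp h4).2)]; simp
      · rw [if_neg h2, if_neg (fun h4 => h2 (e1.mp h4).1)]; simp
    rw [sum_congr rfl h1, sum_comm]
    apply sum_congr rfl
    intro m _
    rw [sum_comm]
    apply sum_congr rfl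
    intro m' _
    rw [mul_sum]
  have hterm : ∀ m ∈ D, ∀ m' ∈ D, (w m * w m') * ∑ v ∈ bx n.totient y,
        (if ((m.lcm m' : ℕ) : ℤ) ∣ Y.nm (Y.el v) then (1 : ℝ) else 0) ≤
      M ^ n.totient * (sv.nu m * w m * sv.nu m' * w m' * (sv.nu (m.gcd m'))⁻¹) +
      K * ((|w m| * m) * (|w m'| * m')) := by
    intro m hm m' hm'
    have hmP : m ∣ P := Nat.dvd_of_mem_divisors hm
    have hmP' : m' ∣ P := Nat.dvd_of_mem_divisors hm'
    have hlP : m.lcm m' ∣ P := Nat.lcm_dvd hmP hmP'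
    have hgP : m.gcd m' ∣ P := (Nat.gcd_dvd_left m m').trans hmP
    have hlcm0 : 0 < m.lcm m' := Nat.lcm_pos (hD m hm) (hD m' hm')
    have hNZ : NeZero (m.lcm m') := ⟨hlcm0.ne'⟩
    have hnulcm : sv.nu (m.lcm m') = sv.nu m * sv.nu m' * (sv.nu (m.gcd m'))⁻¹ := by
      rw [sv.nu_mult.map_lcm]
      · rw [div_eq_mul_inv]
      · exact (BoundingSieve.nu_pos_of_dvd_prodPrimes (s := sv) hgP).ne'
    by_cases hz : w m * w m' = 0
    · rw [hz, zero_mul]
      have h4 : sv.nu m * w m * sv.nu m' * w m' * (sv.nu (m.gcd m'))⁻¹ =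
          (w m * w m') * (sv.nu m * sv.nu m' * (sv.nu (m.gcd m'))⁻¹) := by
        ring
      rw [h4, hz, zero_mul, mul_zero, zero_add]
      positivity
    · have hmR : m ≤ z := by
        by_contra hcon
        exact hz (by rw [hwR m hm (by omega), zero_mul])
      have hmR' : m' ≤ z := by
        by_contra hcon
        exact hz (by rw [hwR m' hm' (by omega), mul_zero])
      have hlcm : m.lcm m' ≤ m * m' := Nat.le_of_dvd (Nat.mul_pos (hD m hm) (hD m' hm'))
        (Nat.lcm_dvd (dvd_mul_right _ _) (dvd_mul_left _ _))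
      have hL : m.lcm m' ≤ 2 * y + 1 := by
        refine le_trans ?_ hY
        refine hlcm.trans ?_
        rw [sq]
        exact Nat.mul_le_mul hmR hmR'
      set S : ℝ := ∑ v ∈ bx n.totient y,
        (if ((m.lcm m' : ℕ) : ℤ) ∣ Y.nm (Y.el v) then (1 : ℝ) else 0) with hS
      have h2 := Y.bx_cp (m.lcm m') y hL
        (fun α => if ((m.lcm m' : ℕ) : ℤ) ∣ Y.nm α then (1 : ℂ) else 0) ?_ ?_
      · rw [Y.cp_dvd] at h2
        have h3 : (∑ v ∈ bx n.totient y, (fun α : R =>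
            if ((m.lcm m' : ℕ) : ℤ) ∣ Y.nm α then (1 : ℂ) else 0) (Y.el v)) = (S : ℂ) := by
          rw [hS]
          push_cast
          apply sum_congr rfl
          intro v _
          split_ifs <;> simp
        rw [h3] at h2
        have h4 : (S : ℂ) - ((((2 * y + 1 : ℝ) / (m.lcm m' : ℕ)) ^ n.totient : ℝ) : ℂ) *
            (Y.zr (m.lcm m') : ℂ) =
            ((S - (M / (m.lcm m' : ℕ)) ^ n.totient * (Y.zr (m.lcm m') : ℝ) : ℝ) : ℂ) := by
          rw [hM]; push_cast; ring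
        rw [h4, Complex.norm_real, Real.norm_eq_abs,
          Y.zr_formula P hP hsplit (m.lcm m') hlP] at h2
        have hl0 : ((m.lcm m' : ℕ) : ℝ) ≠ 0 := by exact_mod_cast hlcm0.ne'
        have h5 : (M / (m.lcm m' : ℕ)) ^ n.totient *
            (((m.lcm m' : ℕ) : ℝ) ^ n.totient * sv.nu (m.lcm m')) =
            M ^ n.totient * sv.nu (m.lcm m') := by
          rw [div_pow]
          field_simp
        rw [← hsv, h5] at h2
        have h55 : (n.totient : ℝ) * 2 ^ n.totient * M ^ n.totient *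
            (((m.lcm m' : ℕ) : ℝ) / M) = K * (m.lcm m' : ℕ) := by
          rw [hK, kD]; ring
        rw [h55] at h2
        have h6 : (w m * w m') * S ≤ (w m * w m') * (M ^ n.totient * sv.nu (m.lcm m')) +
            |w m * w m'| * (K * (m.lcm m' : ℕ)) := by
          have h7 : (w m * w m') * (S - M ^ n.totient * sv.nu (m.lcm m')) ≤
              |w m * w m'| * |S - M ^ n.totient * sv.nu (m.lcm m')| := by
            rw [← abs_mul]; exact le_abs_self _
          have h8 := mul_le_mul_of_nonneg_left h2 (abs_nonneg (w m * w m'))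
          linarith
        refine h6.trans (add_le_add (le_of_eq ?_) ?_)
        · rw [hnulcm]; ring
        · rw [abs_mul]
          have h9 : ((m.lcm m' : ℕ) : ℝ) ≤ m * m' := by exact_mod_cast hlcm
          calc |w m| * |w m'| * (K * (m.lcm m' : ℕ)) ≤
                |w m| * |w m'| * (K * (m * m')) := by gcongr
            _ = _ := by ring
      · intro α β h3
        simp only [Y.nm_per_iff (m.lcm m') α β h3]
      · intro α
        split_ifs <;> simp
  rw [hexp, BoundingSieve.mainSum_lambdaSquared_eq_sum_sum_mul]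
  calc _ ≤ ∑ m ∈ D, ∑ m' ∈ D, (M ^ n.totient * (sv.nu m * w m * sv.nu m' * w m' *
        (sv.nu (m.gcd m'))⁻¹) + K * ((|w m| * m) * (|w m'| * m'))) :=
        sum_le_sum fun m hm => sum_le_sum fun m' hm' => hterm m hm m' hm'
    _ = M ^ n.totient * ∑ m ∈ D, ∑ m' ∈ D, (sv.nu m * w m * sv.nu m' * w m' *
        (sv.nu (m.gcd m'))⁻¹) + K * (∑ m ∈ D, |w m| * m) ^ 2 := by
        rw [sq (∑ m ∈ D, |w m| * m), sum_mul_sum, mul_sum, mul_sum, ← sum_add_distrib]
        apply sum_congr rfl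
        intro m _
        rw [mul_sum, mul_sum, ← sum_add_distrib]
    _ ≤ _ := by
        apply add_le_add le_rfl
        have h1 := pow_le_pow_left₀ (sum_nonneg fun m _ => by positivity)
          (Pool.Agent.R361.QF.sum_w_bound D w z hD hw hwR) 2
        calc K * (∑ m ∈ D, |w m| * m) ^ 2 ≤ K * ((z : ℝ) ^ 3) ^ 2 :=
              mul_le_mul_of_nonneg_left h1 hK0
          _ = _ := by ring

end

end Pool.Agent.T9h29.CY
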