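import Mathlib
import Pool.Agent.T9h29.CY.Alm
import Pool.Agent.T9h29.CY.Tw

set_option autoImplicit false

/-! # From weights to primes -/

namespace Pool.Agent.T9h29.CY

open Finset Filter Topology
open Pool.Agent.R361.AC (tendsto_log_nat log_pow_le)
open scoped ComplexConjugate

open Classical in
theorem bad_countJ {ι : Type*} (h : ℕ) (hh : 0 < h)
    (Q : ℕ) (hQ : 0 < Q) (J : Finset ℕ) (hJ : ∀ j ∈ J, j.Coprime (2 * h)) (hJ1 : 1 ∈ J)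
    (Ψ : ι → ℕ →*₀ ℂ)
    (hΨ : ∀ a q, q.Prime → Ψ a q = 0 ∨ (Ψ a q) ^ (2 * h) = 1)
    (hΨQ : ∀ a q, q.Prime → q ∣ Q → Ψ a q = 0)
    (A : ℕ → Finset ι) (W : ℕ → ι → ℝ) (hW : ∀ x a, 0 ≤ W x a)
    (N : ℕ → ℕ) (hN : Tendsto N atTop atTop)
    (C : ℝ) (hC0 : 0 < C) (hC : ∀ᶠ x : ℕ in atTop, ∑ a ∈ A x, W x a ≤ C * (x / Real.log x))
    (e : ℕ → ℝ) (he0 : ∀ x, 0 ≤ e x)
    (he : ∀ θ : ℝ, 0 < θ → ∀ᶠ x : ℕ in atTop,
      (1 + Real.log (N x)) ^ 2 * e x ≤ θ * (x / Real.log x))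
    (hcorr : ∀ j ∈ J, ∀ᶠ x in atTop, ∀ n n', 1 ≤ n → n ≤ N x → 1 ≤ n' → n' ≤ N x → n.Coprime Q →
      n'.Coprime Q → (∃ q, q.Prime ∧ ¬ n.factorization q ≡ n'.factorization q [MOD 2 * h]) →
      ‖∑ a ∈ A x, (W x a : ℂ) * (Ψ a n) ^ j * conj ((Ψ a n') ^ j)‖ ≤ e x)
    (T : Set ℝ) (hT0 : ∀ t ∈ T, 0 < t) (hTf : ∀ R, (T ∩ Set.Iic R).Finite)
    (P : Set ℕ) (I : ℕ → ι) (hI : Set.InjOn I P)
    (hIA : ∀ᶠ x in atTop, ∀ p ∈ P, x < p ^ 2 → p ≤ x → I p ∈ A x ∧ 1 ≤ W x (I p))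
    (hI0 : ∀ᶠ x in atTop, ∀ p ∈ P, x < p ^ 2 → p ≤ x →
      ∀ q, q.Prime → ¬ q ∣ Q → q ≤ N x → Ψ (I p) q ≠ 0)
    (B : ℕ → Prop)
    (happ : ∀ R η : ℝ, 0 < η → ∀ᶠ x : ℕ in atTop, ∃ Exc : Finset ℕ,
      (#Exc : ℝ) ≤ (x : ℝ) ^ (3 / 4 : ℝ) ∧ ∀ p ∈ P, x < p ^ 2 → p ≤ x → p ∉ Exc → B p →
        (∃ j ∈ J, R ≤ ‖Dj Ψ (N x) j (I p)‖) ∨
          ∃ t ∈ T, |∏ j ∈ J, ‖Dj Ψ (N x) j (I p)‖ - t| ≤ η)
    (ε : ℝ) (hε : 0 < ε) :
    ∀ᶠ x : ℕ in atTop,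
      (#((range (x + 1)).filter (fun p => p ∈ P ∧ B p)) : ℝ) ≤ ε * (x / Real.log x) := by
  have elog : ∀ᶠ x : ℕ in atTop, 1 ≤ Real.log x := tendsto_log_nat.eventually_ge_atTop 1
  have hM : ∀ᶠ x : ℕ in atTop, 0 < (x : ℝ) / Real.log x := by
    filter_upwards [elog, eventually_ge_atTop 1] with x hx hx1
    have : (0 : ℝ) < x := by exact_mod_cast hx1
    positivity
  obtain ⟨R0, hR0, η, hη, y, hmain⟩ := almostJ h hh Q hQ J hJ hJ1 Ψ hΨ hΨQ A W hW N hN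
    (fun x => (x : ℝ) / Real.log x) hM C hC0 hC e he0 he hcorr T hT0 hTf (ε / 2) (by positivity)
  filter_upwards [hmain, happ R0 η hη, hIA, hI0, hN.eventually_ge_atTop y, elog,
    eventually_ge_atTop 1, log_pow_le 1 (6 / ε) (1 / 4) (by norm_num) (by positivity)] with
    x h1 h2 h3 h4 h5 h6 h7 h8
  obtain ⟨Exc, hExc, happx⟩ := h2
  have hx0 : (0 : ℝ) < x := by exact_mod_cast h7
  have hL0 : 0 < Real.log x := by linarith
  set S := (range (x + 1)).filter (fun p => p ∈ P ∧ B p) with hS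
  set G := S.filter (fun p => x < p ^ 2 ∧ p ∉ Exc) with hG
  set R := (range (Nat.sqrt x + 1)) with hR
  have hsub : S ⊆ (R ∪ Exc) ∪ G := by
    intro p hp
    rw [mem_union, mem_union]
    by_cases c1 : p ∈ Exc
    · exact Or.inl (Or.inr c1)
    by_cases c2 : x < p ^ 2
    · exact Or.inr (mem_filter.mpr ⟨hp, c2, c1⟩)
    · left; left
      rw [hR, mem_range]
      push Not at c2
      rw [sq] at c2
      have := Nat.le_sqrt.mpr c2
      omega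
  have hcard : (#S : ℝ) ≤ (#R : ℝ) + #Exc + #G := by
    have c1 : #S ≤ #((R ∪ Exc) ∪ G) := card_le_card hsub
    have c2 := card_union_le (R ∪ Exc) G
    have c3 := card_union_le R Exc
    have : #S ≤ #R + #Exc + #G := by omega
    exact_mod_cast this
  have hRc : (#R : ℝ) ≤ 2 * (x : ℝ) ^ (3 / 4 : ℝ) := by
    rw [hR, card_range]
    have c1 : (Nat.sqrt x : ℝ) ≤ (x : ℝ) ^ (3 / 4 : ℝ) := by
      have c2 : (Nat.sqrt x : ℝ) ≤ Real.sqrt x := Real.nat_sqrt_le_real_sqrt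
      refine c2.trans ?_
      rw [Real.sqrt_eq_rpow]
      apply Real.rpow_le_rpow_of_exponent_le (by exact_mod_cast h7) (by norm_num)
    have c2 : 1 ≤ (x : ℝ) ^ (3 / 4 : ℝ) :=
      Real.one_le_rpow (by exact_mod_cast h7) (by norm_num)
    push_cast
    linarith
  have hGc : (#G : ℝ) ≤ ε / 2 * (x / Real.log x) := by
    refine le_trans ?_ h1
    have hGP : ∀ p ∈ G, p ∈ P ∧ B p ∧ p ≤ x ∧ x < p ^ 2 ∧ p ∉ Exc := by
      intro p hp
      rw [hG, mem_filter, hS, mem_filter, mem_range] at hp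
      exact ⟨hp.1.2.1, hp.1.2.2, by omega, hp.2.1, hp.2.2⟩
    have hinj : Set.InjOn I (G : Set ℕ) := fun p hp p' hp' hpp =>
      hI (hGP p hp).1 (hGP p' hp').1 hpp
    calc (#G : ℝ) = ∑ _p ∈ G, (1 : ℝ) := by simp
      _ ≤ ∑ p ∈ G, W x (I p) := by
          apply sum_le_sum
          intro p hp
          obtain ⟨g1, g2, g3, g4, g5⟩ := hGP p hp
          exact (h3 p g1 g4 g3).2
      _ = ∑ a ∈ G.image I, W x a := by
          rw [sum_image (fun p hp p' hp' hpp => hinj hp hp' hpp)]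
      _ ≤ _ := by
          apply sum_le_sum_of_subset_of_nonneg
          · intro a ha
            rw [mem_image] at ha
            obtain ⟨p, hp, rfl⟩ := ha
            obtain ⟨g1, g2, g3, g4, g5⟩ := hGP p hp
            rw [mem_filter]
            refine ⟨(h3 p g1 g4 g3).1, ?_, happx p g1 g4 g3 g5 g2⟩
            intro q hq hqQ hqy
            exact h4 p g1 g4 g3 q hq hqQ (hqy.trans h5)
          · intro a _ _
            exact hW x a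
  have hx34 : 3 * (x : ℝ) ^ (3 / 4 : ℝ) ≤ ε / 2 * (x / Real.log x) := by
    rw [pow_one] at h8
    have c1 : (x : ℝ) ^ (1 / 4 : ℝ) * (x : ℝ) ^ (3 / 4 : ℝ) = x := by
      rw [← Real.rpow_add hx0]; norm_num
    rw [← mul_div_assoc, le_div_iff₀ hL0]
    have c2 : 6 / ε * Real.log x * (x : ℝ) ^ (3 / 4 : ℝ) ≤ x := by
      nth_rw 3 [← c1]
      exact mul_le_mul_of_nonneg_right h8 (by positivity)
    have c3 : ε / 2 * (6 / ε * Real.log x * (x : ℝ) ^ (3 / 4 : ℝ)) ≤ ε / 2 * x :=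
      mul_le_mul_of_nonneg_left c2 (by positivity)
    refine le_trans (le_of_eq ?_) c3
    field_simp
    ring
  calc (#S : ℝ) ≤ #R + #Exc + #G := hcard
    _ ≤ 3 * (x : ℝ) ^ (3 / 4 : ℝ) + ε / 2 * (x / Real.log x) := by linarith
    _ ≤ ε * (x / Real.log x) := by linarith

end Pool.Agent.T9h29.CY
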