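import Mathlib
import Pool.Agent.T9h29.CY.Cnt

set_option autoImplicit false

/-! # The generic counting theorem -/

namespace Pool.Agent.T9h29.CY

open Finset ArithmeticFunction Filter Topology
open Pool.Agent.Helper923.PPS (selS selW selW_eq_zero abs_selW_le mainSum_selW selS_pos selW_one)
open Pool.Agent.R361.QF (cm cm_apply cm_prime cm_mul cm_congr)
open Pool.Agent.R361.AC (tendsto_log_nat log_pow_le)
open scoped ComplexConjugate

/-- the length of the sums -/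
noncomputable def Nn (D x : ℕ) : ℕ := ⌊(x : ℝ) ^ (1 / (40 * D) : ℝ)⌋₊

/-- half the side of the box -/
noncomputable def Yn (D x : ℕ) : ℕ := ⌊(x : ℝ) ^ (1 / D : ℝ)⌋₊

section

variable (D : ℕ) (hD : 0 < D)

lemma Nn_le (x : ℕ) : (Nn D x : ℝ) ≤ (x : ℝ) ^ (1 / (40 * D) : ℝ) := Nat.floor_le (by positivity)

lemma lt_Nn (x : ℕ) : (x : ℝ) ^ (1 / (40 * D) : ℝ) < Nn D x + 1 := Nat.lt_floor_add_one _

include hD in
lemma Nn_tendsto : Tendsto (Nn D) atTop atTop := by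
  apply tendsto_nat_floor_atTop.comp
  have h0 : (0 : ℝ) < D := by exact_mod_cast hD
  exact (tendsto_rpow_atTop (by positivity)).comp tendsto_natCast_atTop_atTop

lemma Yn_bound (x : ℕ) (hx : 1 ≤ x) : (2 * (Yn D x : ℝ) + 1) ≤ 3 * (x : ℝ) ^ (1 / D : ℝ) := by
  have h1 : (Yn D x : ℝ) ≤ (x : ℝ) ^ (1 / D : ℝ) := Nat.floor_le (by positivity)
  have h2 : 1 ≤ (x : ℝ) ^ (1 / D : ℝ) := Real.one_le_rpow (by exact_mod_cast hx) (by positivity)
  linarith

lemma Yn_lower (x : ℕ) (hx : 1 ≤ x) : (x : ℝ) ^ (1 / D : ℝ) ≤ 2 * (Yn D x : ℝ) + 1 := by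
  have h1 : (x : ℝ) ^ (1 / D : ℝ) < Yn D x + 1 := Nat.lt_floor_add_one _
  have : (0 : ℝ) ≤ Yn D x := Nat.cast_nonneg _
  linarith

lemma Nn_pow (x k : ℕ) : (Nn D x : ℝ) ^ k ≤ (x : ℝ) ^ (k / (40 * D) : ℝ) := by
  calc (Nn D x : ℝ) ^ k ≤ ((x : ℝ) ^ (1 / (40 * D) : ℝ)) ^ k :=
        pow_le_pow_left₀ (Nat.cast_nonneg _) (Nn_le D x) k
    _ = _ := by
        rw [← Real.rpow_natCast, ← Real.rpow_mul (Nat.cast_nonneg _)]
        congr 1; ring

include hD in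
lemma Yn_pow (x : ℕ) (hx : 1 ≤ x) : (2 * (Yn D x : ℝ) + 1) ^ D ≤ 3 ^ D * x := by
  have h0 : (D : ℝ) ≠ 0 := by exact_mod_cast hD.ne'
  have h1 : (2 * (Yn D x : ℝ) + 1) ^ D ≤ (3 * (x : ℝ) ^ (1 / D : ℝ)) ^ D :=
    pow_le_pow_left₀ (by positivity) (Yn_bound D x hx) D
  refine h1.trans (le_of_eq ?_)
  rw [mul_pow]
  congr 1
  rw [← Real.rpow_natCast, ← Real.rpow_mul (Nat.cast_nonneg _), one_div, inv_mul_cancel₀ h0,
    Real.rpow_one]

include hD in
lemma Nn4 (x : ℕ) (hx : 1 ≤ x) : (Nn D x) ^ 4 ≤ 2 * Yn D x + 1 := by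
  have h0 : (0 : ℝ) < D := by exact_mod_cast hD
  have h1 : ((Nn D x : ℝ)) ^ 4 ≤ 2 * (Yn D x : ℝ) + 1 := by
    refine (Nn_pow D x 4).trans (le_trans ?_ (Yn_lower D x hx))
    apply Real.rpow_le_rpow_of_exponent_le (by exact_mod_cast hx)
    push_cast
    rw [div_le_div_iff₀ (by positivity) h0]
    nlinarith
  exact_mod_cast h1

include hD in
/-- the error term -/
lemma err_bound (x : ℕ) (hx : 1 ≤ x) :
    (2 * (Yn D x : ℝ) + 1) ^ D / (2 * (Yn D x : ℝ) + 1) * (Nn D x : ℝ) ^ 8 ≤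
      3 ^ D * (x : ℝ) ^ (1 - 4 / (5 * D) : ℝ) := by
  have h0 : (0 : ℝ) < D := by exact_mod_cast hD
  have hx0 : (0 : ℝ) < x := by exact_mod_cast hx
  have h1 : 0 < (x : ℝ) ^ (1 / D : ℝ) := by positivity
  have h2 : (2 * (Yn D x : ℝ) + 1) ^ D / (2 * (Yn D x : ℝ) + 1) ≤
      3 ^ D * x / (x : ℝ) ^ (1 / D : ℝ) :=
    div_le_div₀ (by positivity) (Yn_pow D hD x hx) h1 (Yn_lower D x hx)
  calc (2 * (Yn D x : ℝ) + 1) ^ D / (2 * (Yn D x : ℝ) + 1) * (Nn D x : ℝ) ^ 8 ≤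
        (3 ^ D * x / (x : ℝ) ^ (1 / D : ℝ)) * (x : ℝ) ^ ((8 : ℕ) / (40 * D) : ℝ) :=
        mul_le_mul h2 (Nn_pow D x 8) (by positivity) (by positivity)
    _ = 3 ^ D * ((x : ℝ) ^ (1 : ℝ) * (x : ℝ) ^ (-(1 / D) : ℝ) *
        (x : ℝ) ^ ((8 : ℕ) / (40 * D) : ℝ)) := by
        rw [Real.rpow_one, Real.rpow_neg hx0.le]; ring
    _ = _ := by
        rw [← Real.rpow_add hx0, ← Real.rpow_add hx0]
        congr 2
        push_cast
        field_simp
        ring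

include hD in
lemma err_small (K θ : ℝ) (hK : 0 < K) (hθ : 0 < θ) : ∀ᶠ x : ℕ in atTop,
    (1 + Real.log (Nn D x)) ^ 2 * (K * (x : ℝ) ^ (1 - 4 / (5 * D) : ℝ)) ≤
      θ * (x / Real.log x) := by
  have h0 : (0 : ℝ) < D := by exact_mod_cast hD
  filter_upwards [tendsto_log_nat.eventually_ge_atTop 1,
    (Nn_tendsto D hD).eventually_ge_atTop 1, eventually_ge_atTop 1,
    log_pow_le 3 (4 * K / θ) (4 / (5 * D)) (by positivity) (by positivity)] with x hx1 hx2 hx3 hx4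
  have hx0 : (0 : ℝ) < x := by exact_mod_cast hx3
  set L := Real.log x with hL
  have hL0 : 0 < L := by linarith
  have h1 : Real.log (Nn D x) ≤ L := by
    apply Real.log_le_log (by exact_mod_cast hx2)
    refine (Nn_le D x).trans ?_
    calc (x : ℝ) ^ (1 / (40 * D) : ℝ) ≤ (x : ℝ) ^ (1 : ℝ) := by
          apply Real.rpow_le_rpow_of_exponent_le (by exact_mod_cast hx3)
          have h1D : (1 : ℝ) ≤ D := by exact_mod_cast hD
          rw [div_le_one (by positivity)]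
          linarith
      _ = x := Real.rpow_one _
  have h2 : 0 ≤ Real.log (Nn D x) := Real.log_natCast_nonneg _
  have h3 : (1 + Real.log (Nn D x)) ^ 2 ≤ (2 * L) ^ 2 :=
    pow_le_pow_left₀ (by linarith) (by linarith) 2
  rw [← mul_div_assoc, le_div_iff₀ hL0]
  have h4 : 4 * K / θ * L ^ 3 * (x : ℝ) ^ (1 - 4 / (5 * D) : ℝ) ≤ x := by
    calc 4 * K / θ * L ^ 3 * (x : ℝ) ^ (1 - 4 / (5 * D) : ℝ) ≤
          (x : ℝ) ^ (4 / (5 * D) : ℝ) * (x : ℝ) ^ (1 - 4 / (5 * D) : ℝ) :=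
          mul_le_mul_of_nonneg_right hx4 (by positivity)
      _ = (x : ℝ) ^ (1 : ℝ) := by rw [← Real.rpow_add hx0]; congr 1; ring
      _ = x := Real.rpow_one _
  calc (1 + Real.log (Nn D x)) ^ 2 * (K * (x : ℝ) ^ (1 - 4 / (5 * D) : ℝ)) * L ≤
        (2 * L) ^ 2 * (K * (x : ℝ) ^ (1 - 4 / (5 * D) : ℝ)) * L := by gcongr
    _ = θ * (4 * K / θ * L ^ 3 * (x : ℝ) ^ (1 - 4 / (5 * D) : ℝ)) := by field_simp; ring
    _ ≤ θ * x := mul_le_mul_of_nonneg_left h4 hθ.le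

lemma Nn_lt {x p : ℕ} (hD : 0 < D) (hx : 1 ≤ x) (h : x < p ^ 2) : Nn D x < p := by
  have hx1 : (1 : ℝ) ≤ x := by exact_mod_cast hx
  have hD1 : (1 : ℝ) ≤ D := by exact_mod_cast hD
  have h1 : (Nn D x : ℝ) ≤ (x : ℝ) ^ (1 / 2 : ℝ) := by
    refine (Nn_le D x).trans (Real.rpow_le_rpow_of_exponent_le hx1 ?_)
    rw [div_le_div_iff₀ (by positivity) (by norm_num)]
    linarith
  have h2 : (x : ℝ) ^ (1 / 2 : ℝ) < p := by
    rw [← Real.sqrt_eq_rpow, Real.sqrt_lt' (by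
      rcases Nat.eq_zero_or_pos p with rfl | hp
      · simp at h
      · exact_mod_cast hp)]
    exact_mod_cast h
  exact_mod_cast h1.trans_lt h2

end

theorem gen_count {n : ℕ} [NeZero n] {R : Type} [CommRing R] [IsDomain R] (Y : Cyc n R)
    (h : ℕ) (hh : 0 < h) (Q : ℕ) (hQ : 0 < Q)
    (J : Finset ℕ) (hJ : ∀ j ∈ J, j.Coprime (2 * h)) (hJ1 : 1 ∈ J)
    (ψ : ℕ → R → ℂ) (hψ : QE Y (2 * h) Q ψ)
    (σ : ℕ → ℂ) (hσ : ∀ q, σ q ^ (2 * h) = 1)
    (P : Set ℕ) (hP : ∀ p ∈ P, p.Prime) (I : ℕ → R) (k : ℕ) (hk0 : 0 < k)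
    (hkQ : ∀ q : ℕ, q.Prime → q ∣ k → q ∣ Q)
    (hI : ∀ p ∈ P, (Y.nm (I p)).natAbs = k * p)
    (hbox : ∀ x : ℕ, ∀ p ∈ P, p ≤ x → ∀ i, |Y.b.repr (I p) i| ≤ Yn n.totient x)
    (hI0 : ∀ p ∈ P, ∀ q : ℕ, q.Prime → ¬ q ∣ Q → q ≠ p → ψ q (I p) ≠ 0)
    (T : Set ℝ) (hT0 : ∀ t ∈ T, 0 < t) (hTf : ∀ R, (T ∩ Set.Iic R).Finite)
    (Bd : ℕ → Prop)
    (happ : ∀ R0 η : ℝ, 0 < η → ∀ᶠ x : ℕ in atTop, ∃ Exc : Finset ℕ,
      (#Exc : ℝ) ≤ (x : ℝ) ^ (3 / 4 : ℝ) ∧ ∀ p ∈ P, x < p ^ 2 → p ≤ x → p ∉ Exc → Bd p →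
        (∃ j ∈ J, R0 ≤ ‖∑ m ∈ Icc 1 (Nn n.totient x),
          (cm (fun q => σ q * ψ q (I p)) m) ^ j / m‖) ∨
        ∃ t ∈ T, |∏ j ∈ J, ‖∑ m ∈ Icc 1 (Nn n.totient x),
          (cm (fun q => σ q * ψ q (I p)) m) ^ j / m‖ - t| ≤ η)
    (ε : ℝ) (hε : 0 < ε) :
    ∀ᶠ x : ℕ in atTop,
      (Nat.card {p : ℕ | p ≤ x ∧ p ∈ P ∧ Bd p} : ℝ) ≤ ε * (x / Real.log x) := by
  classical
  set D := n.totient with hDdef
  have hD : 0 < D := Nat.totient_pos.mpr (NeZero.pos n)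
  have hDr : (0 : ℝ) < D := by exact_mod_cast hD
  have hkD : 0 < kD n := by unfold kD; positivity
  obtain ⟨c1, hc1, R1, hsel⟩ := selS_low n Q hQ.ne'
  have hd : 0 < 2 * h := by omega
  have hJ0 : ∀ j ∈ J, j ≠ 0 := by
    rintro j hj rfl
    have := hJ 0 hj
    rw [Nat.coprime_zero_left] at this
    omega
  -- notation
  set N : ℕ → ℕ := Nn D with hNdef
  set s : ℕ → BoundingSieve := fun x => sw D hD (Pq n Q (N x)) (Pq_sqfree n Q (N x)) with hs
  set w : ℕ → ℕ → ℝ := fun x => selW (s x) (N x) with hw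
  set DD : ℕ → Finset ℕ := fun x => (Pq n Q (N x)).divisors with hDD
  set W : ℕ → (Fin n.totient → ℤ) → ℝ := fun x z => wt Y (DD x) (w x) (Y.el z) with hWd
  set Ψ : (Fin n.totient → ℤ) → ℕ →*₀ ℂ := fun z => cm (fun q => σ q * ψ q (Y.el z)) with hΨd
  set e : ℕ → ℝ := fun x => (kD n * 3 ^ D) * (x : ℝ) ^ (1 - 4 / (5 * D) : ℝ) with he
  have hNt : Tendsto N atTop atTop := Nn_tendsto D hD
  -- growth facts
  have elog : ∀ᶠ x : ℕ in atTop, 1 ≤ Real.log x := tendsto_log_nat.eventually_ge_atTop 1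
  have eN1 : ∀ᶠ x : ℕ in atTop, 1 ≤ N x := hNt.eventually_ge_atTop 1
  -- the weights
  have hwD : ∀ x, 1 ≤ N x → ∀ m ∈ DD x, |w x m| ≤ m := by
    intro x hx m hm
    have hmP : m ∣ (s x).prodPrimes := Nat.dvd_of_mem_divisors hm
    have h1 := abs_selW_le (s x) (N x : ℝ) (by exact_mod_cast hx) hmP
    exact h1.trans (nu_inv D hD _ (Pq_sqfree n Q (N x)) m hmP)
  have hwR : ∀ x, ∀ m ∈ DD x, N x < m → w x m = 0 := by
    intro x m _ hm
    exact selW_eq_zero (s x) (N x : ℝ) (by exact_mod_cast hm)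
  have hDpos : ∀ x, ∀ m ∈ DD x, 0 < m := fun x m hm => Nat.pos_of_mem_divisors hm
  have herr : ∀ x : ℕ, 1 ≤ x → kD n * (2 * (Yn D x : ℝ) + 1) ^ D / (2 * (Yn D x : ℝ) + 1) *
      (N x : ℝ) ^ 8 ≤ e x := by
    intro x hx
    have h1 := mul_le_mul_of_nonneg_left (err_bound D hD x hx) hkD.le
    simp only [he]
    calc _ = kD n * ((2 * (Yn D x : ℝ) + 1) ^ D / (2 * (Yn D x : ℝ) + 1) * (N x : ℝ) ^ 8) := by
          ring
      _ ≤ _ := h1
      _ = _ := by ring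
  have he' : ∀ θ : ℝ, 0 < θ → ∀ᶠ x : ℕ in atTop,
      (1 + Real.log (N x)) ^ 2 * e x ≤ θ * (x / Real.log x) := fun θ hθ =>
    err_small D hD (kD n * 3 ^ D) θ (by positivity) hθ
  have hmain : ∀ᶠ x : ℕ in atTop, ∑ a ∈ bx n.totient (Yn D x), W x a ≤
      (3 ^ D * (80 * D) / c1 + 1) * (x / Real.log x) := by
    filter_upwards [elog, eN1, eventually_ge_atTop 1, he' 1 one_pos,
      hNt.eventually_ge_atTop R1,
      tendsto_log_nat.eventually_ge_atTop (80 * D * Real.log 2)] with x hx1 hx2 hx3 hx4 hx5 hx6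
    have hx0 : (0 : ℝ) < x := by exact_mod_cast hx3
    have hL0 : 0 < Real.log x := by linarith
    have h1 := main_bound (Y := Y) (Pq n Q (N x)) (Pq_sqfree n Q (N x))
      (fun p hp hpP => ((Pq_prime n Q (N x) p hp).mp hpP).2.1) (w x) (N x)
      (hwD x hx2) (hwR x) (Yn D x) (by
        have h2 := Nn4 D hD x hx3
        have h3 : (N x) ^ 2 ≤ (N x) ^ 4 := Nat.pow_le_pow_right hx2 (by norm_num)
        exact h3.trans h2)
    refine h1.trans ?_
    have h2 : (sw n.totient (Nat.totient_pos.mpr (NeZero.pos n)) (Pq n Q (N x))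
        (Pq_sqfree n Q (N x))).mainSum (BoundingSieve.lambdaSquared (w x)) =
        (selS (s x) (N x))⁻¹ := mainSum_selW (s x) (N x : ℝ) (by exact_mod_cast hx2)
    rw [h2]
    have h5 : (2 * (Yn D x : ℝ) + 1) ^ D ≤ 3 ^ D * x := Yn_pow D hD x hx3
    have h6 : 1 / (40 * D) * Real.log x ≤ Real.log 2 + Real.log (N x) := by
      have h7 : (x : ℝ) ^ (1 / (40 * D) : ℝ) ≤ 2 * N x := by
        have h8 := (lt_Nn D x).le
        have h9 : (1 : ℝ) ≤ N x := by exact_mod_cast hx2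
        change _ ≤ (N x : ℝ) + 1 at h8
        linarith
      have h8 := Real.log_le_log (by positivity) h7
      rwa [Real.log_rpow hx0, Real.log_mul (by norm_num)
        (by exact_mod_cast (by omega : N x ≠ 0))] at h8
    have h7 : c1 / (80 * D) * Real.log x ≤ selS (s x) (N x) := by
      refine le_trans ?_ (hsel (N x) hx5)
      have h8 : Real.log 2 ≤ 1 / (80 * D) * Real.log x := by
        rw [one_div, inv_mul_eq_div, le_div_iff₀ (by positivity)]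
        linarith
      have h9 : 1 / (80 * D) * Real.log x + 1 / (80 * D) * Real.log x =
          1 / (40 * D) * Real.log x := by
        field_simp
        ring
      have h10 : 1 / (80 * D) * Real.log x ≤ Real.log (N x) := by linarith
      calc c1 / (80 * D) * Real.log x = c1 * (1 / (80 * D) * Real.log x) := by ring
        _ ≤ _ := mul_le_mul_of_nonneg_left h10 hc1.le
    have h8 : 0 < c1 / (80 * D) * Real.log x := by positivity
    have h9 : (selS (s x) (N x))⁻¹ ≤ (c1 / (80 * D) * Real.log x)⁻¹ := inv_anti₀ h8 h7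
    have h10 : (2 * (Yn D x : ℝ) + 1) ^ D * (selS (s x) (N x))⁻¹ ≤
        3 ^ D * (80 * D) / c1 * (x / Real.log x) := by
      calc (2 * (Yn D x : ℝ) + 1) ^ D * (selS (s x) (N x))⁻¹ ≤
            (3 ^ D * x) * (c1 / (80 * D) * Real.log x)⁻¹ :=
            mul_le_mul h5 h9 (inv_nonneg.mpr (h8.le.trans h7)) (by positivity)
        _ = _ := by field_simp
    have h11 : kD n * (2 * (Yn D x : ℝ) + 1) ^ D / (2 * (Yn D x : ℝ) + 1) * (N x : ℝ) ^ 6 ≤
        1 * (x / Real.log x) := by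
      refine le_trans ?_ ((herr x hx3).trans ?_)
      · apply mul_le_mul_of_nonneg_left _ (by positivity)
        exact pow_le_pow_right₀ (by exact_mod_cast hx2) (by norm_num)
      · refine le_trans ?_ hx4
        have h12 : 0 ≤ Real.log (N x) := Real.log_natCast_nonneg _
        exact le_mul_of_one_le_left (by simp only [he]; positivity)
          (one_le_pow₀ (by linarith))
    have h13 : (3 ^ D * (80 * D) / c1 + 1) * ((x : ℝ) / Real.log x) =
        3 ^ D * (80 * D) / c1 * (x / Real.log x) + 1 * (x / Real.log x) := by ring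
    rw [h13]
    exact add_le_add h10 h11
  have hσ1 : ∀ k, ‖cm σ k‖ ≤ 1 := by
    intro k
    apply Pool.Agent.R361.AC.norm_le_one (cm σ) (2 * h) hd
    intro q hq
    right
    rw [cm_prime σ q hq]
    exact hσ q
  have hcorr : ∀ j ∈ J, ∀ᶠ x in atTop, ∀ m m', 1 ≤ m → m ≤ N x → 1 ≤ m' → m' ≤ N x →
      m.Coprime Q →
      m'.Coprime Q → (∃ q, q.Prime ∧ ¬ m.factorization q ≡ m'.factorization q [MOD 2 * h]) →
      ‖∑ a ∈ bx n.totient (Yn D x), (W x a : ℂ) * (Ψ a m) ^ j * conj ((Ψ a m') ^ j)‖ ≤ e x := by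
    intro j hj
    filter_upwards [eN1, eventually_ge_atTop 1] with x hx2 hx3 m m' hn1 hn2 hn1' hn2' hnQ hnQ' hne
    have hx0 : (0 : ℝ) < x := by exact_mod_cast hx3
    have h1 := corr_bound (hψ.powj j (hJ j hj) (hJ0 j hj)) hd (DD x) (w x) (N x) (hDpos x)
      (hwD x hx2) (hwR x) m m' (by omega) (by omega) hnQ hnQ' hne (Yn D x) (by
        refine le_trans ?_ (Nn4 D hD x hx3)
        calc (N x) ^ 2 * m * m' ≤ (N x) ^ 2 * N x * N x := by gcongr
          _ = (N x) ^ 4 := by ring)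
    have hpowcm : ∀ (z : Fin n.totient → ℤ) (l : ℕ),
        cm (fun q => ψ q (Y.el z) ^ j) l = (cm (fun q => ψ q (Y.el z)) l) ^ j := by
      intro z l
      rcases Nat.eq_zero_or_pos l with rfl | hl
      · simp [hJ0 j hj]
      · rw [cm_apply _ l hl.ne', cm_apply _ l hl.ne', ← prod_pow]
        exact prod_congr rfl fun q _ => by rw [← pow_mul, ← pow_mul, mul_comm]
    have h2 : ∑ a ∈ bx n.totient (Yn D x), (W x a : ℂ) * (Ψ a m) ^ j * conj ((Ψ a m') ^ j) =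
        ((cm σ m) ^ j * conj ((cm σ m') ^ j)) * ∑ z ∈ bx n.totient (Yn D x),
          (wt Y (DD x) (w x) (Y.el z) : ℂ) *
          cm (fun q => ψ q (Y.el z) ^ j) m * conj (cm (fun q => ψ q (Y.el z) ^ j) m') := by
      rw [mul_sum]
      apply sum_congr rfl
      intro z _
      simp only [hΨd, hWd]
      rw [cm_mul, cm_mul, hpowcm, hpowcm, mul_pow, mul_pow, map_mul]
      ring
    rw [h2, norm_mul, norm_mul, RCLike.norm_conj, norm_pow, norm_pow]
    have h4 : ‖cm σ m‖ ^ j * ‖cm σ m'‖ ^ j ≤ 1 := by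
      calc _ ≤ 1 * (1 : ℝ) := mul_le_mul (pow_le_one₀ (norm_nonneg _) (hσ1 m))
            (pow_le_one₀ (norm_nonneg _) (hσ1 m')) (by positivity) zero_le_one
        _ = 1 := by norm_num
    refine (mul_le_of_le_one_left (norm_nonneg _) h4).trans (h1.trans ?_)
    refine le_trans ?_ (herr x hx3)
    have h6 : (m : ℝ) * m' ≤ (N x : ℝ) ^ 2 := by
      have h7 : (m : ℝ) ≤ N x := by exact_mod_cast hn2
      have h8 : (m' : ℝ) ≤ N x := by exact_mod_cast hn2'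
      rw [sq]
      exact mul_le_mul h7 h8 (Nat.cast_nonneg _) (Nat.cast_nonneg _)
    calc kD n * (2 * (Yn D x : ℝ) + 1) ^ D / (2 * (Yn D x : ℝ) + 1) * (m * m') * (N x : ℝ) ^ 6 ≤
          kD n * (2 * (Yn D x : ℝ) + 1) ^ D / (2 * (Yn D x : ℝ) + 1) * (N x : ℝ) ^ 2 *
            (N x : ℝ) ^ 6 := by gcongr
      _ = _ := by ring
  -- the primes
  set I' : ℕ → (Fin n.totient → ℤ) := fun p i => Y.b.repr (I p) i with hI'
  have hel : ∀ p, Y.el (I' p) = I p := fun p => Y.el_repr (I p)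
  have hIA : ∀ᶠ x in atTop, ∀ p ∈ P, x < p ^ 2 → p ≤ x →
      I' p ∈ bx n.totient (Yn D x) ∧ 1 ≤ W x (I' p) := by
    filter_upwards [eN1, eventually_ge_atTop 1] with x hx2 hx3 p hpP hxp hpx
    have hpp := hP p hpP
    have hNp : N x < p := Nn_lt D hD hx3 hxp
    constructor
    · rw [mem_bx]
      exact hbox x p hpP hpx
    · simp only [hWd]
      rw [hel]
      unfold wt
      have h1 : (DD x).filter (fun m : ℕ => (m : ℤ) ∣ Y.nm (I p)) = {1} := by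
        ext m
        rw [mem_filter, mem_singleton]
        constructor
        · rintro ⟨hm1, hm2⟩
          rw [Int.natCast_dvd, hI p hpP] at hm2
          by_contra hm
          obtain ⟨q, hq, hqm⟩ := Nat.exists_prime_and_dvd hm
          have hqP := (Pq_prime n Q (N x) q hq).mp (hqm.trans (Nat.dvd_of_mem_divisors hm1))
          rcases hq.dvd_mul.mp (hqm.trans hm2) with h3 | h3
          · exact hqP.2.2 (hkQ q hq h3)
          · have := (Nat.prime_dvd_prime_iff_eq hq hpp).mp h3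
            omega
        · rintro rfl
          refine ⟨?_, by simp⟩
          rw [hDD, Nat.mem_divisors]
          exact ⟨one_dvd _, (Pq_sqfree n Q (N x)).ne_zero⟩
      rw [h1, sum_singleton]
      have h2 : w x 1 = 1 := selW_one (s x) (N x : ℝ) (by exact_mod_cast hx2)
      rw [h2]; norm_num
  have hI0' : ∀ᶠ x in atTop, ∀ p ∈ P, x < p ^ 2 → p ≤ x →
      ∀ q, q.Prime → ¬ q ∣ Q → q ≤ N x → Ψ (I' p) q ≠ 0 := by
    filter_upwards [eventually_ge_atTop 1] with x hx3 p hpP hxp hpx q hq hqQ hqN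
    have hNp : N x < p := Nn_lt D hD hx3 hxp
    simp only [hΨd]
    rw [cm_prime _ q hq, hel]
    apply mul_ne_zero
    · intro h0
      have := hσ q
      rw [h0, zero_pow hd.ne'] at this
      exact zero_ne_one this
    · exact hI0 p hpP q hq hqQ (by omega)
  have hinj : Set.InjOn I' P := by
    intro p hp p' hp' hpp
    have h0 : I p = I p' := by rw [← hel p, ← hel p', hpp]
    have h1 := hI p hp
    rw [h0, hI p' hp'] at h1
    exact (Nat.eq_of_mul_eq_mul_left hk0 h1).symm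
  have hfin := bad_countJ h hh Q hQ J hJ hJ1 Ψ ?_ ?_ (fun x => bx n.totient (Yn D x)) W
    (fun x a => sq_nonneg _) N hNt (3 ^ D * (80 * D) / c1 + 1) (by positivity) hmain e
    (fun x => by simp only [he]; positivity) he' hcorr T hT0 hTf P
    I' hinj hIA hI0' Bd ?_ ε hε
  · filter_upwards [hfin] with x hx
    refine le_trans (le_of_eq ?_) hx
    congr 1
    rw [Nat.card_coe_set_eq, ← Set.ncard_coe_finset]
    congr 1
    ext p
    simp only [Set.mem_ofPred_eq, coe_filter, mem_range]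
    constructor
    · rintro ⟨h1, h2, h3⟩; exact ⟨by omega, h2, h3⟩
    · rintro ⟨h1, h2, h3⟩; exact ⟨by omega, h2, h3⟩
  · intro a q hq
    simp only [hΨd]
    rw [cm_prime _ q hq]
    rcases hψ.val q hq (Y.el a) with h1 | h1
    · left; rw [h1, mul_zero]
    · right
      rw [mul_pow, h1, mul_one, hσ]
  · intro a q hq hqQ
    simp only [hΨd]
    rw [cm_prime _ q hq, hψ.zero q hq hqQ, mul_zero]
  · intro R0 η hη
    filter_upwards [happ R0 η hη] with x hx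
    obtain ⟨Exc, h1, h2⟩ := hx
    refine ⟨Exc, h1, fun p hp h3 h4 h5 h6 => ?_⟩
    have h7 := h2 p hp h3 h4 h5 h6
    simp only [Dj, hΨd]
    rw [hel]
    exact h7

end Pool.Agent.T9h29.CY
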