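import Mathlib
import Pool.Agent.T9h29.CY.Gen
import Pool.Agent.T9h29.CY.Gau

set_option autoImplicit false

/-! # Small elements of the primes above `p` -/

namespace Pool.Agent.T9h29.CY

open Finset

lemma Yn_pow_le (D : ℕ) (hD : 0 < D) (p : ℕ) : (Yn D p) ^ D ≤ p := by
  have h1 : (Yn D p : ℝ) ≤ (p : ℝ) ^ (1 / D : ℝ) := Nat.floor_le (by positivity)
  have h2 : (Yn D p : ℝ) ^ D ≤ ((p : ℝ) ^ (1 / D : ℝ)) ^ D :=
    pow_le_pow_left₀ (Nat.cast_nonneg _) h1 D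
  have h0 : (D : ℝ) ≠ 0 := by exact_mod_cast hD.ne'
  rw [← Real.rpow_natCast ((p : ℝ) ^ (1 / D : ℝ)), ← Real.rpow_mul (Nat.cast_nonneg _), one_div,
    inv_mul_cancel₀ h0, Real.rpow_one] at h2
  exact_mod_cast h2

lemma lt_Yn_pow (D : ℕ) (hD : 0 < D) (p : ℕ) : p < (Yn D p + 1) ^ D := by
  have h1 : (p : ℝ) ^ (1 / D : ℝ) < (Yn D p : ℝ) + 1 := Nat.lt_floor_add_one _
  have h2 : ((p : ℝ) ^ (1 / D : ℝ)) ^ D < ((Yn D p : ℝ) + 1) ^ D :=
    pow_lt_pow_left₀ h1 (by positivity) hD.ne'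
  have h0 : (D : ℝ) ≠ 0 := by exact_mod_cast hD.ne'
  rw [← Real.rpow_natCast ((p : ℝ) ^ (1 / D : ℝ)), ← Real.rpow_mul (Nat.cast_nonneg _), one_div,
    inv_mul_cancel₀ h0, Real.rpow_one] at h2
  exact_mod_cast h2

lemma Yn_mono (D : ℕ) {p x : ℕ} (h : p ≤ x) : Yn D p ≤ Yn D x := by
  apply Nat.floor_mono
  apply Real.rpow_le_rpow (Nat.cast_nonneg _) (by exact_mod_cast h) (by positivity)

section

variable {n : ℕ} [NeZero n] {R : Type} [CommRing R] [IsDomain R] (Y : Cyc n R)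

include Y in
lemma Cyc.hom_inj {A : Type} [CommRing A] [IsDomain A] [CharZero A] (f : R →+* A) :
    Function.Injective f := by
  rw [injective_iff_map_eq_zero]
  intro α h
  by_contra hne
  have h1 := Y.map_nm f α
  have h2 : ∏ t, f (Y.sg t α) = 0 := by
    apply prod_eq_zero (mem_univ (1 : (ZMod n)ˣ))
    rw [Y.sg_one_apply, h]
  rw [h2] at h1
  exact Y.nm_ne_zero α hne (by exact_mod_cast h1)

lemma Cyc.hom_prim {A : Type} [CommRing A] [IsDomain A] [CharZero A] (f : R →+* A) :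
    IsPrimitiveRoot (f Y.z) n := Y.prim.map_of_injective (Y.hom_inj f)

lemma Cyc.norm_z (f : R →+* ℂ) : ‖f Y.z‖ = 1 := by
  have h : (f Y.z) ^ n = 1 := by rw [← map_pow, Y.z_pow, map_one]
  have h2 : ‖f Y.z‖ ^ n = 1 := by rw [← norm_pow, h, norm_one]
  exact (pow_eq_one_iff_of_nonneg (norm_nonneg _) (NeZero.ne n)).mp h2

lemma Cyc.norm_small (α : R) (B : ℕ) (h : ∀ i, |Y.b.repr α i| ≤ B) (f : R →+* ℂ) :
    ‖f α‖ ≤ n.totient * B := by
  rw [← Y.b.sum_repr α, map_sum]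
  refine (norm_sum_le _ _).trans ?_
  calc ∑ i, ‖f (Y.b.repr α i • Y.b i)‖ ≤ ∑ _i : Fin n.totient, (B : ℝ) := by
        apply sum_le_sum
        intro i _
        rw [zsmul_eq_mul, map_mul, map_intCast, Y.b_eq, map_pow, norm_mul, norm_pow, Y.norm_z,
          one_pow, mul_one, Complex.norm_intCast]
        exact_mod_cast h i
    _ = _ := by rw [sum_const, card_univ, Fintype.card_fin, nsmul_eq_mul]

/-- an embedding -/
noncomputable def Cyc.f0 (Y : Cyc n R) : R →+* ℂ :=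
  Y.evp (Complex.isPrimitiveRoot_exp n (NeZero.ne n))

lemma Cyc.nm_small (α : R) (B : ℕ) (h : ∀ i, |Y.b.repr α i| ≤ B) :
    (Y.nm α).natAbs ≤ (n.totient * B) ^ n.totient := by
  have h1 := Y.map_nm Y.f0 α
  have h2 : ‖((Y.nm α : ℤ) : ℂ)‖ ≤ (n.totient * B) ^ n.totient := by
    rw [h1, norm_prod]
    calc ∏ t : (ZMod n)ˣ, ‖Y.f0 (Y.sg t α)‖ ≤ ∏ _t : (ZMod n)ˣ, ((n.totient : ℝ) * B) := by
          apply prod_le_prod (fun _ _ => norm_nonneg _)
          intro t _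
          exact Y.norm_small α B h (Y.f0.comp (Y.sg t))
      _ = _ := by rw [prod_const, card_univ, ZMod.card_units_eq_totient]
  rw [Complex.norm_intCast] at h2
  have h3 : (((Y.nm α).natAbs : ℕ) : ℝ) ≤ (((n.totient * B) ^ n.totient : ℕ) : ℝ) := by
    rw [Nat.cast_natAbs]
    push_cast
    exact_mod_cast h2
  exact_mod_cast h3

theorem Cyc.exists_Pi (p : ℕ) [hp : Fact p.Prime] {y : ZMod p} (hy : IsPrimitiveRoot y n) :
    ∃ α : R, α ≠ 0 ∧ Y.evp hy α = 0 ∧ ∀ i, |Y.b.repr α i| ≤ Yn n.totient p := by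
  classical
  set D := n.totient with hD
  have hD0 : 0 < D := Nat.totient_pos.mpr (NeZero.pos n)
  set B := Yn D p with hB
  obtain ⟨v, w, hvw, h⟩ := Fintype.exists_ne_map_eq_of_card_lt
    (fun v : Fin D → Fin (B + 1) => Y.evp hy (Y.el (fun i => ((v i : ℕ) : ℤ)))) (by
      rw [ZMod.card, Fintype.card_fun, Fintype.card_fin, Fintype.card_fin]
      exact lt_Yn_pow D hD0 p)
  refine ⟨Y.el (fun i => ((v i : ℕ) : ℤ)) - Y.el (fun i => ((w i : ℕ) : ℤ)), ?_, ?_, ?_⟩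
  · intro h0
    apply hvw
    funext i
    have h1 := congrArg (fun α => Y.b.repr α i) (sub_eq_zero.mp h0)
    simp only [Y.repr_el] at h1
    exact Fin.ext (by exact_mod_cast h1)
  · rw [map_sub, sub_eq_zero]
    exact h
  · intro i
    rw [Y.el_sub, Y.repr_el]
    have h1 := (v i).2
    have h2 := (w i).2
    rw [abs_le]
    constructor <;> omega

theorem Cyc.nm_Pi (p : ℕ) [hp : Fact p.Prime] {y : ZMod p} (hy : IsPrimitiveRoot y n) (α : R)
    (h0 : α ≠ 0) (h1 : Y.evp hy α = 0) (h2 : ∀ i, |Y.b.repr α i| ≤ Yn n.totient p) :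
    ∃ k : ℕ, 1 ≤ k ∧ k ≤ n.totient ^ n.totient ∧ (Y.nm α).natAbs = k * p := by
  have h3 : (p : ℤ) ∣ Y.nm α := by
    rw [← ZMod.intCast_zmod_eq_zero_iff_dvd, Y.map_nm (Y.evp hy)]
    apply prod_eq_zero (mem_univ (1 : (ZMod n)ˣ))
    rw [Y.sg_one_apply, h1]
  have h4 : p ∣ (Y.nm α).natAbs := Int.natCast_dvd.mp h3
  obtain ⟨k, hk⟩ := h4
  have hk0 : k ≠ 0 := by
    rintro rfl
    rw [mul_zero, Int.natAbs_eq_zero] at hk
    exact Y.nm_ne_zero α h0 hk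
  refine ⟨k, by omega, ?_, by rw [hk, mul_comm]⟩
  have h5 := Y.nm_small α _ h2
  rw [hk, mul_pow] at h5
  have hD0 : 0 < n.totient := Nat.totient_pos.mpr (NeZero.pos n)
  have h6 := Nat.mul_le_mul_left (n.totient ^ n.totient) (Yn_pow_le n.totient hD0 p)
  have h7 := h5.trans h6
  rw [mul_comm p k] at h7
  exact Nat.le_of_mul_le_mul_right h7 hp.out.pos

end

end Pool.Agent.T9h29.CY
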