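import Mathlib
import Pool.Agent.T9h29.CY.PiC

set_option autoImplicit false

/-! # Jacobi sums divide products of conjugates -/

namespace Pool.Agent.T9h29.CY

open Finset
open scoped ComplexConjugate

lemma sum_pow_mul (p : ℕ) [hp : Fact p.Prime] (a b : ℕ) (h : a + b < p - 1) :
    ∑ x : ZMod p, x ^ a * (1 - x) ^ b = 0 := by
  have h1 : ∀ x : ZMod p, x ^ a * (1 - x) ^ b =
      ∑ j ∈ range (b + 1), ((-1) ^ j * (b.choose j : ZMod p)) * x ^ (a + j) := by
    intro x
    have : (1 - x) = (-x) + 1 := by ring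
    rw [this, add_pow, mul_sum]
    apply sum_congr rfl
    intro j _
    rw [one_pow, neg_pow, pow_add]
    ring
  rw [sum_congr rfl fun x _ => h1 x, sum_comm]
  apply sum_eq_zero
  intro j hj
  rw [mem_range] at hj
  rw [← mul_sum, FiniteField.sum_pow_lt_card_sub_one, mul_zero]
  rw [ZMod.card]
  omega

lemma neg_val_add (n : ℕ) [NeZero n] (a : ZMod n) (h : a ≠ 0) : (-a).val + a.val = n := by
  have h1 := ZMod.neg_val a
  rw [if_neg h] at h1
  have h2 := ZMod.val_lt a
  omega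

section

variable {n : ℕ} [NeZero n] (hn : 1 < n)

include hn in
lemma unit_ne (t : (ZMod n)ˣ) : (t : ZMod n) ≠ 0 := by
  have : Fact (1 < n) := ⟨hn⟩
  exact t.ne_zero

include hn in
lemma Si_neg (i : ZMod n) (hi : i ≠ 0) (hi1 : i ≠ -1) (t : (ZMod n)ˣ) :
    -t ∈ Si n i ↔ t ∉ Si n i := by
  rw [mem_Si, mem_Si, Units.val_neg, neg_neg, neg_mul, neg_neg]
  have ht := unit_ne hn t
  have hti : (t : ZMod n) * i ≠ 0 := by
    intro h
    apply hi
    have := congrArg (fun x => ((t⁻¹ : (ZMod n)ˣ) : ZMod n) * x) h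
    simpa using this
  have h1 := neg_val_add n _ ht
  have h2 := neg_val_add n _ hti
  have h3 : (-(t : ZMod n)).val + (-((t : ZMod n) * i)).val ≠ n := by
    intro h
    have h4 : (((-(t : ZMod n)).val + (-((t : ZMod n) * i)).val : ℕ) : ZMod n) = 0 := by
      rw [h, ZMod.natCast_self]
    push_cast at h4
    rw [ZMod.natCast_zmod_val, ZMod.natCast_zmod_val] at h4
    apply hi1
    have h5 : (t : ZMod n) * (i + 1) = 0 := by linear_combination -h4
    have := congrArg (fun x => ((t⁻¹ : (ZMod n)ˣ) : ZMod n) * x) h5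
    have h6 : i + 1 = 0 := by simpa using this
    exact eq_neg_of_add_eq_zero_left h6
  constructor
  · intro h; omega
  · intro h; omega

include hn in
lemma Si_card (i : ZMod n) (hi : i ≠ 0) (hi1 : i ≠ -1) : 2 * #(Si n i) = n.totient := by
  classical
  have h1 : #(Si n i)ᶜ = #(Si n i) := by
    apply card_bij (fun t _ => -t)
    · intro t ht
      rw [mem_compl] at ht
      exact (Si_neg hn i hi hi1 t).mpr ht
    · intro a _ b _ h; exact neg_injective h
    · intro b hb
      refine ⟨-b, ?_, neg_neg b⟩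
      rw [mem_compl, ← Si_neg hn i hi hi1, neg_neg]
      exact hb
  have h2 := card_add_card_compl (Si n i)
  rw [h1, ZMod.card_units_eq_totient] at h2
  omega

lemma Si_neg_one (hn : 1 < n) : Si n (-1) = univ := by
  ext t
  rw [mem_Si, mul_neg, mul_one, neg_neg]
  have := neg_val_add n _ (unit_ne hn t)
  simp only [mem_univ, iff_true]
  omega

end

section

variable {n : ℕ} [NeZero n] (hn : 1 < n) {R : Type} [CommRing R] [IsDomain R] (Y : Cyc n R)
  {p : ℕ} [hp : Fact p.Prime] {χ : MulChar (ZMod p) R} {g : (ZMod p)ˣ}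
  (hg : ∀ x, x ∈ Subgroup.zpowers g) (hχ : χ g = Y.z) (m : ℕ) (hm : p - 1 = n * m)

include hg in
lemma gen_order : orderOf g = p - 1 := by
  rw [orderOf_eq_card_of_forall_mem_zpowers hg, Nat.card_eq_fintype_card, ZMod.card_units]

include hg hm in
lemma gen_prim : IsPrimitiveRoot ((g : ZMod p) ^ m) n := by
  have h1 : IsPrimitiveRoot (g : ZMod p) (p - 1) := by
    rw [← gen_order hg, ← orderOf_units]
    exact IsPrimitiveRoot.orderOf _
  apply h1.pow _ (by rw [hm, mul_comm])
  have := hp.out.two_le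
  omega

include hg hχ hm in
/-- the reduction of the character -/
lemma char_red (t : (ZMod n)ˣ) (x : ZMod p) (hx : x ≠ 0) :
    Y.evp (pow_val_prim (gen_prim hg m hm) t) (χ x) = (x ^ m) ^ (t : ZMod n).val := by
  obtain ⟨u, rfl⟩ := isUnit_iff_ne_zero.mpr hx
  obtain ⟨j, rfl⟩ := exists_pow_gen hg u
  rw [Units.val_pow_eq_pow_val, map_pow, hχ, map_pow, Y.evp_z]
  ring

include hg hχ hm hn in
lemma jac_zero (t : (ZMod n)ˣ) (i : ZMod n) (hi : i ≠ 0)
    (h : (t : ZMod n).val + ((t : ZMod n) * i).val < n) :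
    Y.evp (pow_val_prim (gen_prim hg m hm) t) (jacobiSum χ (χ ^ i.val)) = 0 := by
  have hp1 := hp.out.two_le
  have hm0 : m ≠ 0 := by rintro rfl; omega
  have ht0 : (t : ZMod n).val ≠ 0 := by
    rw [Ne, ZMod.val_eq_zero]; exact unit_ne hn t
  have hti : (t : ZMod n) * i ≠ 0 := by
    intro h
    apply hi
    have := congrArg (fun x => ((t⁻¹ : (ZMod n)ˣ) : ZMod n) * x) h
    simpa using this
  have hti0 : ((t : ZMod n) * i).val ≠ 0 := by
    rw [Ne, ZMod.val_eq_zero]; exact hti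
  have hi0 : i.val ≠ 0 := by rw [Ne, ZMod.val_eq_zero]; exact hi
  rw [← sum_pow_mul p (m * (t : ZMod n).val) (m * ((t : ZMod n) * i).val) (by
    rw [hm, ← mul_add, mul_comm n m]
    exact Nat.mul_lt_mul_of_pos_left h (Nat.pos_of_ne_zero hm0))]
  unfold jacobiSum
  rw [map_sum]
  apply sum_congr rfl
  intro x _
  rw [map_mul, MulChar.pow_apply' χ hi0, map_pow]
  congr 1
  · by_cases hx : x = 0
    · rw [hx, MulChar.map_zero, map_zero, zero_pow (mul_ne_zero hm0 ht0)]
    · rw [char_red Y hg hχ m hm t x hx, ← pow_mul]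
  · by_cases hx : 1 - x = 0
    · rw [hx, MulChar.map_zero, map_zero, zero_pow hi0, zero_pow (mul_ne_zero hm0 hti0)]
    · rw [char_red Y hg hχ m hm t _ hx, ← pow_mul, pow_mul (1 - x) m]
      apply pow_val_eq (n := n)
      · rw [← pow_mul, mul_comm, ← hm]
        exact ZMod.pow_card_sub_one_eq_one hx
      · push_cast
        simp

include hn in
lemma sg_neg_conj (f : R →+* ℂ) (α : R) : f (Y.sg (-1) α) = conj (f α) := by
  have h : f.comp (Y.sg (-1)) = (starRingEnd ℂ).comp f := by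
    apply Y.ext
    rw [RingHom.comp_apply, RingHom.comp_apply, Y.sg_z, map_pow]
    have hw : f Y.z ≠ 0 := (Y.hom_prim f).ne_zero (NeZero.ne n)
    have h1 : f Y.z * conj (f Y.z) = 1 := by
      rw [Complex.mul_conj', Y.norm_z]; norm_num
    apply mul_left_cancel₀ hw
    rw [h1, ← pow_succ']
    have h2 : (f Y.z) ^ n = 1 := (Y.hom_prim f).pow_eq_one
    rw [← h2]
    apply pow_val_eq h2
    push_cast
    rw [ZMod.natCast_zmod_val]
    simp
  exact RingHom.congr_fun h α

include hn hg hχ in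
lemma jac_norm (i : ZMod n) (hi : i ≠ 0) (hi1 : i ≠ -1) (f : R →+* ℂ) :
    f (jacobiSum χ (χ ^ i.val)) * conj (f (jacobiSum χ (χ ^ i.val))) = p := by
  set c : MulChar (ZMod p) ℂ := χ.ringHomComp f with hc
  have hc2 := comp_pow_iff Y hg hχ f (Y.hom_prim f)
  have hc1 : c ≠ 1 := by
    intro h
    have := (hc2 1).mp (by rw [pow_one]; exact h)
    rw [Nat.dvd_one] at this
    omega
  have hci : c ^ i.val ≠ 1 := by
    intro h
    have := (hc2 _).mp h
    rw [← ZMod.natCast_eq_zero_iff, ZMod.natCast_zmod_val] at this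
    exact hi this
  have hci1 : c * c ^ i.val ≠ 1 := by
    rw [← pow_succ']
    intro h
    have := (hc2 _).mp h
    rw [← ZMod.natCast_eq_zero_iff] at this
    push_cast at this
    rw [ZMod.natCast_zmod_val] at this
    exact hi1 (eq_neg_of_add_eq_zero_left this)
  have h1 := jacobiSum_mul_jacobiSum_inv (F := ZMod p) (F' := ℂ)
    (by rw [ZMod.ringChar_zmod_n, ringChar.eq_zero]; exact hp.out.ne_zero.symm) hc1 hci hci1
  have h2 : jacobiSum c⁻¹ (c ^ i.val)⁻¹ = conj (jacobiSum c (c ^ i.val)) := by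
    unfold jacobiSum
    rw [map_sum]
    apply sum_congr rfl
    intro x _
    rw [map_mul]
    congr 1
    · exact (MulChar.star_apply' c x).symm
    · exact (MulChar.star_apply' (c ^ i.val) (1 - x)).symm
  rw [h2, ZMod.card] at h1
  rw [← jacobiSum_ringHomComp, ← MulChar.ringHomComp_pow]
  exact h1

include hn hg hχ in
lemma jac_sg (i : ZMod n) (hi : i ≠ 0) (hi1 : i ≠ -1) :
    jacobiSum χ (χ ^ i.val) * Y.sg (-1) (jacobiSum χ (χ ^ i.val)) = (p : R) := by
  apply Y.hom_inj Y.f0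
  rw [map_mul, sg_neg_conj hn Y, map_natCast]
  exact jac_norm hn Y hg hχ i hi hi1 Y.f0

include hg hχ hm hn in
/-- the general Jacobi sum divides the product of conjugates -/
lemma exists_kap_gen (α : R) (hα : Y.evp (gen_prim hg m hm) α = 0) (i : ZMod n) (hi : i ≠ 0)
    (hi1 : i ≠ -1) : ∃ κ : R, κ * jacobiSum χ (χ ^ i.val) = Y.PS α i := by
  have hp0 : (p : R) ≠ 0 := by
    intro h
    have h1 : Y.f0 (p : R) = 0 := by rw [h, map_zero]
    rw [map_natCast] at h1
    exact hp.out.ne_zero (by exact_mod_cast h1)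
  set c := jacobiSum χ (χ ^ i.val) with hc
  have hdvd : ((p : ℤ) : R) ∣ Y.PS α i * Y.sg (-1) c := by
    apply Y.ker_inter p _ (gen_prim hg m hm)
    intro t
    rw [map_mul]
    by_cases ht : t ∈ Si n i
    · have : Y.evp (pow_val_prim (gen_prim hg m hm) t) (Y.PS α i) = 0 := by
        unfold Cyc.PS
        rw [map_prod]
        apply prod_eq_zero ht
        rw [← Y.evp_sg (gen_prim hg m hm), Y.sg_sg, mul_inv_cancel, Y.sg_one_apply, hα]
      rw [this, zero_mul]
    · have : Y.evp (pow_val_prim (gen_prim hg m hm) t) (Y.sg (-1) c) = 0 := by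
        rw [← Y.evp_sg (gen_prim hg m hm), Y.sg_sg, Y.evp_sg]
        apply jac_zero hn Y hg hχ m hm _ i hi
        rw [mem_Si] at ht
        push Not at ht
        simpa using ht
      rw [this, mul_zero]
  obtain ⟨κ, hκ⟩ := hdvd
  refine ⟨κ, ?_⟩
  have h1 := jac_sg hn Y hg hχ i hi hi1
  rw [← hc] at h1
  apply mul_left_cancel₀ hp0
  push_cast at hκ
  linear_combination (-c) * hκ + (Y.PS α i) * h1

include hg hχ hm hn in
/-- all quotients, with bounds -/
theorem exists_kap (hneg : χ (-1) = -1) (α : R) (h0 : α ≠ 0)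
    (hα : Y.evp (gen_prim hg m hm) α = 0) (h2 : ∀ i, |Y.b.repr α i| ≤ Yn n.totient p) :
    ∃ κ : ZMod n → R, (∀ i, κ i * cI χ i = Y.PS α i) ∧
      ∀ i, ∀ f : R →+* ℂ, ‖f (κ i)‖ ≤ (n.totient : ℝ) ^ n.totient := by
  classical
  have hD0 : 0 < n.totient := Nat.totient_pos.mpr (NeZero.pos n)
  have hD1 : (1 : ℝ) ≤ (n.totient : ℝ) ^ n.totient := one_le_pow₀ (by exact_mod_cast hD0)
  suffices h : ∀ i : ZMod n, ∃ κ : R, κ * cI χ i = Y.PS α i ∧
      ∀ f : R →+* ℂ, ‖f κ‖ ≤ (n.totient : ℝ) ^ n.totient by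
    choose κ h1 h2 using h
    exact ⟨κ, h1, h2⟩
  intro i
  by_cases hi : i = 0
  · refine ⟨-1, ?_, fun f => ?_⟩
    · rw [hi]
      unfold cI Cyc.PS
      rw [if_pos rfl, Si_zero, prod_empty]
      ring
    · rw [map_neg, map_one, norm_neg, norm_one]
      exact hD1
  by_cases hi1 : i = -1
  · obtain ⟨k, hk1, hk2, hk3⟩ := Y.nm_Pi p (gen_prim hg m hm) α h0 hα h2
    have hps : Y.PS α i = ((Y.nm α : ℤ) : R) := by
      rw [hi1]
      unfold Cyc.PS
      rw [Si_neg_one hn, Y.nm_prod, ← Equiv.prod_comp (Equiv.inv (ZMod n)ˣ)]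
      rfl
    have hcI : cI χ i = (p : R) := by
      unfold cI
      rw [if_neg hi, if_pos hi1, hneg]
      ring
    rcases Int.natAbs_eq (Y.nm α) with h | h
    · refine ⟨((k : ℕ) : R), ?_, fun f => ?_⟩
      · rw [hps, hcI, h, hk3]; push_cast; ring
      · rw [map_natCast, Complex.norm_natCast]
        exact_mod_cast hk2
    · refine ⟨-((k : ℕ) : R), ?_, fun f => ?_⟩
      · rw [hps, hcI, h, hk3]; push_cast; ring
      · rw [map_neg, norm_neg, map_natCast, Complex.norm_natCast]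
        exact_mod_cast hk2
  obtain ⟨κ, hκ⟩ := exists_kap_gen hn Y hg hχ m hm α hα i hi hi1
  refine ⟨κ, ?_, fun f => ?_⟩
  · unfold cI
    rw [if_neg hi, if_neg hi1]
    exact hκ
  · have hpr : (0 : ℝ) < p := by exact_mod_cast hp.out.pos
    have h1 : ‖f (jacobiSum χ (χ ^ i.val))‖ ^ 2 = p := by
      have h3 := jac_norm hn Y hg hχ i hi hi1 f
      rw [Complex.mul_conj'] at h3
      exact_mod_cast h3
    have h3 : ‖f (Y.PS α i)‖ ^ 2 ≤ (n.totient : ℝ) ^ n.totient * p := by
      unfold Cyc.PS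
      rw [map_prod, norm_prod]
      have h4 : ∏ t ∈ Si n i, ‖f (Y.sg t⁻¹ α)‖ ≤
          ((n.totient : ℝ) * Yn n.totient p) ^ #(Si n i) := by
        rw [← prod_const]
        apply prod_le_prod (fun _ _ => norm_nonneg _)
        intro t _
        exact Y.norm_small α _ h2 (f.comp (Y.sg t⁻¹))
      calc (∏ t ∈ Si n i, ‖f (Y.sg t⁻¹ α)‖) ^ 2 ≤
            (((n.totient : ℝ) * Yn n.totient p) ^ #(Si n i)) ^ 2 :=
            pow_le_pow_left₀ (prod_nonneg fun _ _ => norm_nonneg _) h4 2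
        _ = ((n.totient : ℝ) * Yn n.totient p) ^ n.totient := by
            rw [← pow_mul, mul_comm #(Si n i) 2, Si_card hn i hi hi1]
        _ = (n.totient : ℝ) ^ n.totient * (Yn n.totient p : ℝ) ^ n.totient := mul_pow _ _ _
        _ ≤ _ := by
            apply mul_le_mul_of_nonneg_left _ (by positivity)
            exact_mod_cast Yn_pow_le n.totient hD0 p
    rw [← hκ, map_mul, norm_mul, mul_pow, h1] at h3
    have h5 : ‖f κ‖ ^ 2 ≤ (n.totient : ℝ) ^ n.totient := le_of_mul_le_mul_right h3 hpr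
    by_contra hcon
    push Not at hcon
    have h6 : 1 < ‖f κ‖ := hD1.trans_lt hcon
    nlinarith

end

end Pool.Agent.T9h29.CY
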