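import Mathlib
import Pool.Agent.T9h29.CY.Kap
import Pool.Agent.R361.QF.HalfNe
import Pool.Agent.R361.AC.Half

set_option autoImplicit false

/-! # The norm of the half sum -/

namespace Pool.Agent.T9h29.CY

open Finset
open Pool.Agent.R361.AC (oddTo cw half_sum_norm)
open Pool.Agent.R361.QF (half_pow_sum half_ne)

/-- the exponents coprime to `n` -/
def Jn (n : ℕ) : Finset ℕ := (range n).filter (fun k => k.Coprime n)

lemma mem_Jn (n k : ℕ) : k ∈ Jn n ↔ k < n ∧ k.Coprime n := by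
  unfold Jn; rw [mem_filter, mem_range]

lemma Jn_pos {n k : ℕ} (hn : 1 < n) (hk : k ∈ Jn n) : k ≠ 0 := by
  rintro rfl
  rw [mem_Jn, Nat.coprime_zero_left] at hk
  omega

lemma Jn_card (n : ℕ) : #(Jn n) = n.totient := by
  unfold Jn
  rw [Nat.totient]
  congr 1
  apply filter_congr
  intro k _
  exact Nat.coprime_comm

lemma prod_Jn {M : Type*} [CommMonoid M] (n : ℕ) [NeZero n] (F : ℕ → M) :
    ∏ j ∈ Jn n, F j = ∏ t : (ZMod n)ˣ, F (t : ZMod n).val := by
  symm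
  apply prod_bij (fun (t : (ZMod n)ˣ) _ => (t : ZMod n).val)
  · intro t _
    rw [mem_Jn]
    exact ⟨ZMod.val_lt _, ZMod.val_coe_unit_coprime t⟩
  · intro s _ t _ h
    exact Units.ext (ZMod.val_injective n h)
  · intro j hj
    rw [mem_Jn] at hj
    refine ⟨ZMod.unitOfCoprime j hj.2, mem_univ _, ?_⟩
    rw [ZMod.coe_unitOfCoprime, ZMod.val_cast_of_lt hj.1]
  · intro t _; rfl

section

variable {n : ℕ} [NeZero n] (hn : 1 < n) {R : Type} [CommRing R] [IsDomain R] (Y : Cyc n R)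
  {p : ℕ} [hp : Fact p.Prime] {χ : MulChar (ZMod p) R} {g : (ZMod p)ˣ}
  (hg : ∀ x, x ∈ Subgroup.zpowers g) (hχ : χ g = Y.z) (m : ℕ) (hm : p - 1 = n * m)

include hg hχ in
lemma chi_z (x : ZMod p) (hx : x ≠ 0) : ∃ i : ℕ, χ x = Y.z ^ i := by
  obtain ⟨u, rfl⟩ := isUnit_iff_ne_zero.mpr hx
  obtain ⟨i, rfl⟩ := exists_pow_gen hg u
  exact ⟨i, by rw [Units.val_pow_eq_pow_val, map_pow, hχ]⟩

include hg hχ in
lemma sg_chi (hn : 1 < n) (t : (ZMod n)ˣ) (x : ZMod p) :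
    Y.sg t (χ x) = (χ x) ^ (t : ZMod n).val := by
  have ht0 : (t : ZMod n).val ≠ 0 := by
    rw [Ne, ZMod.val_eq_zero]; exact unit_ne hn t
  by_cases hx : x = 0
  · rw [hx, MulChar.map_zero, map_zero, zero_pow ht0]
  · obtain ⟨i, hi⟩ := chi_z Y hg hχ x hx
    rw [hi, map_pow, Y.sg_z]
    ring

include hg hχ hm in
lemma chi_neg (h : ℕ) (hnh : n = 2 * h) (hmo : m % 2 = 1) : χ (-1) = -1 := by
  have hp2 := hp.out.two_le
  have ho := gen_order hg
  have hh : 0 < h := by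
    rcases Nat.eq_zero_or_pos h with rfl | h0
    · exact absurd hnh (by rw [mul_zero]; exact NeZero.ne n)
    · exact h0
  have h1 : (g : ZMod p) ^ (h * m) = -1 := by
    have e1 : ((g : ZMod p) ^ (h * m)) * ((g : ZMod p) ^ (h * m)) = 1 := by
      rw [← pow_add, ← Units.val_pow_eq_pow_val]
      have : h * m + h * m = p - 1 := by rw [hm, hnh]; ring
      rw [this, ← ho, pow_orderOf_eq_one, Units.val_one]
    rcases mul_self_eq_one_iff.mp e1 with h2 | h2
    · exfalso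
      have h3 : g ^ (h * m) = 1 := by
        apply Units.ext
        rw [Units.val_pow_eq_pow_val, h2, Units.val_one]
      have h4 := orderOf_dvd_of_pow_eq_one h3
      rw [ho, hm, hnh] at h4
      have h5 : 0 < h * m := by
        apply Nat.mul_pos hh; omega
      have := Nat.le_of_dvd h5 h4
      nlinarith
    · exact h2
  have h2 : Y.z ^ h = -1 := by
    have e1 : (Y.z ^ h) * (Y.z ^ h) = 1 := by
      rw [← pow_add, ← two_mul, ← hnh, Y.z_pow]
    rcases mul_self_eq_one_iff.mp e1 with h3 | h3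
    · exfalso
      have h4 := Y.prim.dvd_of_pow_eq_one _ h3
      have := Nat.le_of_dvd hh h4
      omega
    · exact h3
  rw [← h1, map_pow, hχ, pow_mul, h2]
  exact Odd.neg_one_pow (Nat.odd_iff.mpr hmo)

/-- the half sum -/
noncomputable def Sh {R : Type} [CommRing R] (χ : MulChar (ZMod p) R) : R :=
  ∑ a ∈ Icc 1 ((p - 1) / 2), χ (a : ZMod p)

include hg hχ in
lemma prod_S (hn : 1 < n) (f : R →+* ℂ) :
    ∏ j ∈ Jn n, ‖∑ a ∈ Icc 1 ((p - 1) / 2), ((χ.ringHomComp f) ^ j) (a : ZMod p)‖ =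
      ((Y.nm (Sh χ)).natAbs : ℝ) := by
  rw [prod_Jn, Nat.cast_natAbs]
  have h1 := Y.map_nm f (Sh χ)
  have h2 : ‖((Y.nm (Sh χ) : ℤ) : ℂ)‖ = ((|Y.nm (Sh χ)| : ℤ) : ℝ) := by
    rw [Complex.norm_intCast]; push_cast; rfl
  rw [← h2, h1, norm_prod]
  apply prod_congr rfl
  intro t _
  have ht0 : (t : ZMod n).val ≠ 0 := by
    rw [Ne, ZMod.val_eq_zero]; exact unit_ne hn t
  congr 1
  unfold Sh
  rw [map_sum, map_sum]
  apply sum_congr rfl
  intro a _
  rw [sg_chi Y hg hχ hn, map_pow, MulChar.pow_apply' _ ht0, MulChar.ringHomComp_apply]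

/-- the bad exponents -/
noncomputable def Bk (n p : ℕ) : Finset ℕ :=
  (range n).filter (fun k => k.Coprime n ∧ (p : ℤ) ∣ (bernoulli (1 + k * ((p - 1) / n))).num)

lemma Bk_sub (n p : ℕ) : Bk n p ⊆ Jn n := by
  intro k hk
  unfold Bk at hk
  rw [mem_filter, mem_range] at hk
  rw [mem_Jn]
  exact ⟨hk.1, hk.2.1⟩

include hn hg hχ hm in
lemma nm_S_dvd (hm2 : 2 ≤ m) : (p : ℤ) ^ #(Bk n p) ∣ Y.nm (Sh χ) := by
  classical
  have hp2 := hp.out.two_le
  have hmq : (p - 1) / n = m := by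
    rw [hm]; exact Nat.mul_div_cancel_left _ (NeZero.pos n)
  have hprim := gen_prim hg m hm
  have hcop : ∀ k ∈ Bk n p, k.Coprime n := fun k hk => ((mem_Jn n k).mp (Bk_sub n p hk)).2
  set φ : ℕ → (R →+* ZMod p) := fun k => if hk : k.Coprime n then
    Y.evp (pow_val_prim hprim (ZMod.unitOfCoprime k hk)) else Y.evp hprim with hφ
  have hφz : ∀ k ∈ Bk n p, φ k Y.z = ((g : ZMod p) ^ m) ^ k := by
    intro k hk
    have hlt : k < n := ((mem_Jn n k).mp (Bk_sub n p hk)).1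
    simp only [hφ]
    rw [dif_pos (hcop k hk), Y.evp_z, ZMod.coe_unitOfCoprime, ZMod.val_cast_of_lt hlt]
  have hinj : Set.InjOn φ (Bk n p) := by
    intro a ha b hb hab
    have h1 := hφz a ha
    rw [hab, hφz b hb] at h1
    have hla := ((mem_Jn n a).mp (Bk_sub n p ha)).1
    have hlb := ((mem_Jn n b).mp (Bk_sub n p hb)).1
    exact (hprim.pow_inj hlb hla h1).symm
  rw [← card_image_of_injOn hinj]
  apply Y.nm_dvd
  intro ψ hψ
  rw [mem_image] at hψ
  obtain ⟨k, hk, rfl⟩ := hψ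
  have hlt : k < n := ((mem_Jn n k).mp (Bk_sub n p hk)).1
  have hk0 := Jn_pos hn (Bk_sub n p hk)
  have hkb : (p : ℤ) ∣ (bernoulli (m * k + 1)).num := by
    have h1 := hk
    unfold Bk at h1
    rw [mem_filter, hmq] at h1
    rw [add_comm, mul_comm]
    exact h1.2.2
  have hmk1 : 1 ≤ m * k := Nat.mul_pos (by omega) (Nat.pos_of_ne_zero hk0)
  have hmk2 : m * k + 3 ≤ p := by
    have h1 : m * (k + 1) ≤ m * n := Nat.mul_le_mul_left m hlt
    rw [mul_comm m n, ← hm, mul_add, mul_one] at h1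
    omega
  have h1 := half_pow_sum p (by omega) (m * k) hmk1 hmk2 hkb
  unfold Sh
  rw [map_sum, ← h1]
  apply sum_congr rfl
  intro a ha
  rw [mem_Icc] at ha
  have ha0 : (a : ZMod p) ≠ 0 := by
    rw [Ne, ZMod.natCast_eq_zero_iff]
    intro hd
    have := Nat.le_of_dvd (by omega) hd
    omega
  simp only [hφ]
  rw [dif_pos (hcop k hk), char_red Y hg hχ m hm _ _ ha0, ZMod.coe_unitOfCoprime,
    ZMod.val_cast_of_lt hlt, ← pow_mul]

include hn hg hχ hm in
/-- the exact value of the product of the cotangent sums -/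
theorem prod_F (h : ℕ) (hnh : n = 2 * h) (hh : 2 ≤ h) (hmo : m % 2 = 1) (hm2 : 2 ≤ m)
    (hB : n.totient ≤ 2 * #(Bk n p)) (f : R →+* ℂ) :
    ∃ N : ℕ, 1 ≤ N ∧ ∏ j ∈ Jn n, ‖∑ k ∈ oddTo (p - 1),
      ((χ.ringHomComp f) ^ j) (k : ZMod p) * (cw p k : ℂ)‖ = (Real.pi / 2) ^ n.totient * N := by
  have hp2 := hp.out.two_le
  have hpodd : p % 2 = 1 := by
    have : p - 1 = 2 * (h * m) := by rw [hm, hnh]; ring
    omega
  set c := χ.ringHomComp f with hc
  have hneg := chi_neg Y hg hχ m hm h hnh hmo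
  have hcodd : ∀ j ∈ Jn n, DirichletCharacter.Odd (c ^ j) := by
    intro j hj
    have hj1 := ((mem_Jn n j).mp hj).2
    have hjodd : j % 2 = 1 := by
      by_contra hcon
      have h2 : 2 ∣ j := by omega
      have h3 : 2 ∣ n := ⟨h, hnh⟩
      exact Nat.Prime.not_coprime_iff_dvd.mpr ⟨2, Nat.prime_two, h2, h3⟩ hj1
    unfold DirichletCharacter.Odd
    rw [MulChar.pow_apply' _ (by omega), hc, MulChar.ringHomComp_apply, hneg, map_neg, map_one]
    exact Odd.neg_one_pow (Nat.odd_iff.mpr hjodd)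
  have hnm0 : Y.nm (Sh χ) ≠ 0 := by
    apply Y.nm_ne_zero
    intro h0
    have h1 : (1 : ℕ) ∈ Jn n := by rw [mem_Jn]; exact ⟨hn, Nat.coprime_one_left n⟩
    have h2 := half_ne hpodd (c ^ 1) (hcodd 1 h1)
    apply h2
    have h3 : f (Sh χ) = 0 := by rw [h0, map_zero]
    rw [← h3]
    unfold Sh
    rw [map_sum]
    apply sum_congr rfl
    intro a _
    rw [pow_one, hc, MulChar.ringHomComp_apply]
  obtain ⟨D', hD'⟩ := Nat.totient_even (n := n) (by omega)
  have hdvd : (p : ℤ) ^ D' ∣ Y.nm (Sh χ) :=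
    (pow_dvd_pow _ (by omega)).trans (nm_S_dvd hn Y hg hχ m hm hm2)
  have hdvd' : p ^ D' ∣ (Y.nm (Sh χ)).natAbs := by
    rw [← Int.natCast_dvd]; exact_mod_cast hdvd
  obtain ⟨N, hN⟩ := hdvd'
  have hN0 : N ≠ 0 := by
    rintro rfl
    rw [mul_zero, Int.natAbs_eq_zero] at hN
    exact hnm0 hN
  refine ⟨N, by omega, ?_⟩
  have hpr : (0 : ℝ) < p := by exact_mod_cast hp.out.pos
  have hpi := Real.pi_pos
  have h1 := prod_S Y hg hχ hn f
  rw [← hc, hN] at h1
  have h2 : (∏ j ∈ Jn n, ‖∑ k ∈ oddTo (p - 1), (c ^ j) (k : ZMod p) * (cw p k : ℂ)‖) ^ 2 =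
      ((Real.pi / 2) ^ n.totient * N) ^ 2 := by
    rw [← prod_pow, prod_congr rfl fun j hj => (half_sum_norm p hpodd (c ^ j) (hcodd j hj)).symm,
      prod_mul_distrib, prod_const, Jn_card, prod_pow, h1]
    rw [hD']
    push_cast
    have e1 : (Real.pi ^ 2 / (4 * p)) * p = Real.pi ^ 2 / 4 := by field_simp
    have e2 : (Real.pi / 2) ^ (D' + D') = (Real.pi ^ 2 / 4) ^ D' := by
      rw [← two_mul, pow_mul]
      congr 1
      ring
    have e3 : (Real.pi ^ 2 / (4 * p)) ^ (D' + D') * ((p : ℝ) ^ D' * N) ^ 2 =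
        (((Real.pi ^ 2 / (4 * p)) * p) ^ D' * N) ^ 2 := by
      rw [mul_pow (Real.pi ^ 2 / (4 * p)) (p : ℝ)]
      ring
    rw [e2, e3, e1]
  exact (pow_left_inj₀ (prod_nonneg fun _ _ => norm_nonneg _) (by positivity) two_ne_zero).mp h2

end

end Pool.Agent.T9h29.CY
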