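import Mathlib
import Pool.Agent.R361.QF.Apx
import Pool.Agent.T9h29.CY.Hs

set_option autoImplicit false

/-! # Removing the primes dividing `Q` -/

namespace Pool.Agent.T9h29.CY

open Finset Filter Topology
open Pool.Agent.R361.AC (oddTo cw)
open Pool.Agent.R361.QF (cm cm_apply cm_prime cm_mul cm_congr cm_eq_hom dh dh_apply cm_zero_of_dvd)

/-- the sum over odd integers coprime to the primes in `s` -/
noncomputable def As (f : ℕ →*₀ ℂ) (s : Finset ℕ) (N : ℕ) : ℂ :=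
  ∑ m ∈ (oddTo N).filter (fun m => ∀ q ∈ s, ¬ q ∣ m), f m / m

lemma As_empty (f : ℕ →*₀ ℂ) (N : ℕ) : As f ∅ N = ∑ m ∈ oddTo N, f m / m := by
  unfold As
  congr 1
  apply filter_true_of_mem
  intro m _ q hq
  simp at hq

lemma As_insert (f : ℕ →*₀ ℂ) (s : Finset ℕ) (q : ℕ) (hq : q.Prime) (hq2 : q ≠ 2) (hqs : q ∉ s)
    (hs : ∀ r ∈ s, r.Prime) (N : ℕ) :
    As f (insert q s) N = As f s N - f q / q * As f s (N / q) := by
  have hq0 : (q : ℂ) ≠ 0 := by exact_mod_cast hq.ne_zero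
  have hqodd : q % 2 = 1 := hq.eq_two_or_odd.resolve_left hq2
  rw [eq_sub_iff_add_eq]
  unfold As
  rw [← sum_filter_add_sum_filter_not ((oddTo N).filter (fun m => ∀ q ∈ s, ¬ q ∣ m))
    (fun m => ¬ q ∣ m)]
  congr 1
  · apply sum_congr _ (fun _ _ => rfl)
    ext m
    simp only [mem_filter, mem_insert, forall_eq_or_imp]
    tauto
  · rw [mul_sum]
    apply sum_bij (fun m _ => q * m)
    · intro m hm
      simp only [mem_filter, oddTo, mem_Icc, not_not] at hm ⊢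
      obtain ⟨⟨⟨h1, h2⟩, h3⟩, h4⟩ := hm
      refine ⟨⟨⟨⟨Nat.mul_pos hq.pos h1, ?_⟩, ?_⟩, ?_⟩, dvd_mul_right _ _⟩
      · calc q * m ≤ q * (N / q) := Nat.mul_le_mul_left q h2
          _ ≤ N := Nat.mul_div_le N q
      · rw [Nat.mul_mod, hqodd, h3]
      · intro r hr hrd
        rcases (hs r hr).dvd_mul.mp hrd with h5 | h5
        · have := (Nat.prime_dvd_prime_iff_eq (hs r hr) hq).mp h5
          exact hqs (this ▸ hr)
        · exact h4 r hr h5
    · intro a _ b _ hab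
      exact Nat.eq_of_mul_eq_mul_left hq.pos hab
    · intro b hb
      simp only [mem_filter, oddTo, mem_Icc, not_not] at hb
      obtain ⟨⟨⟨⟨h1, h2⟩, h3⟩, h4⟩, ⟨m, rfl⟩⟩ := hb
      refine ⟨m, ?_, rfl⟩
      simp only [mem_filter, oddTo, mem_Icc]
      refine ⟨⟨⟨Nat.pos_of_mul_pos_left h1, ?_⟩, ?_⟩, ?_⟩
      · rw [Nat.le_div_iff_mul_le hq.pos, mul_comm]; exact h2
      · rw [Nat.mul_mod, hqodd] at h3
        omega
      · intro r hr hrd
        exact h4 r hr (Dvd.dvd.mul_left hrd q)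
    · intro m _
      rw [map_mul]
      push_cast
      rw [mul_div_mul_comm]

lemma As_close (f : ℕ →*₀ ℂ) (hf : ∀ m, ‖f m‖ ≤ 1) (F : ℂ) (e : ℝ) (N0 N1 : ℕ)
    (h : ∀ N, N0 ≤ N → N ≤ N1 → ‖F - ∑ m ∈ oddTo N, f m / m‖ ≤ e) (s : Finset ℕ)
    (hs : ∀ q ∈ s, q.Prime ∧ q ≠ 2) :
    ∀ N, N0 * ∏ q ∈ s, q ≤ N → N ≤ N1 → ‖As f s N - F * ∏ q ∈ s, (1 - f q / q)‖ ≤ 2 ^ #s * e := by
  classical
  induction s using Finset.induction_on with
  | empty =>
    intro N hN1 hN2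
    rw [prod_empty, mul_one] at hN1
    rw [As_empty, prod_empty, mul_one, card_empty, pow_zero, one_mul, norm_sub_rev]
    exact h N hN1 hN2
  | insert q s hqs ih =>
    intro N hN1 hN2
    have hs' : ∀ q ∈ s, q.Prime ∧ q ≠ 2 := fun r hr => hs r (mem_insert_of_mem hr)
    obtain ⟨hq, hq2⟩ := hs q (mem_insert_self _ _)
    rw [prod_insert hqs] at hN1
    have h1 := ih hs' N (by
      refine le_trans ?_ hN1
      apply Nat.mul_le_mul_left
      exact Nat.le_mul_of_pos_left _ hq.pos) hN2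
    have h2 := ih hs' (N / q) (by
      rw [Nat.le_div_iff_mul_le hq.pos]
      refine le_trans (le_of_eq ?_) hN1
      ring) ((Nat.div_le_self N q).trans hN2)
    have h3 : 0 ≤ 2 ^ #s * e := (norm_nonneg _).trans h1
    rw [As_insert f s q hq hq2 hqs (fun r hr => (hs' r hr).1), prod_insert hqs,
      card_insert_of_notMem hqs]
    have h4 : As f s N - f q / q * As f s (N / q) - F * ((1 - f q / q) * ∏ x ∈ s, (1 - f x / x)) =
        (As f s N - F * ∏ x ∈ s, (1 - f x / x)) -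
          f q / q * (As f s (N / q) - F * ∏ x ∈ s, (1 - f x / x)) := by ring
    rw [h4]
    have h5 : ‖f q / q‖ ≤ 1 := by
      rw [norm_div, Complex.norm_natCast]
      apply div_le_one_of_le₀ _ (Nat.cast_nonneg _)
      refine (hf q).trans ?_
      exact_mod_cast hq.one_lt.le
    refine (norm_sub_le _ _).trans ?_
    rw [norm_mul]
    calc _ ≤ 2 ^ #s * e + 1 * (2 ^ #s * e) :=
          add_le_add h1 (mul_le_mul h5 h2 (norm_nonneg _) zero_le_one)
      _ = _ := by ring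

lemma cm_sum {p : ℕ} (hp1 : 1 < p) (c : DirichletCharacter ℂ p) (Q : ℕ) (hQ : Q ≠ 0) (h2 : 2 ∣ Q)
    (Φ : ℕ → ℂ) (hΦ0 : ∀ q : ℕ, q.Prime → q ∣ Q → Φ q = 0) (N : ℕ)
    (hΦ : ∀ q : ℕ, q.Prime → ¬ q ∣ Q → q ≤ N → Φ q = c (q : ZMod p)) (j : ℕ) (hj : j ≠ 0) :
    ∑ m ∈ Icc 1 N, (cm Φ m) ^ j / m = As (dh hp1 (c ^ j)) (Q.primeFactors.erase 2) N := by
  unfold As
  have hsub : (oddTo N).filter (fun m => ∀ q ∈ Q.primeFactors.erase 2, ¬ q ∣ m) =
      (Icc 1 N).filter (fun m => ∀ q ∈ Q.primeFactors, ¬ q ∣ m) := by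
    ext m
    simp only [oddTo, mem_filter, mem_Icc, mem_erase, Nat.mem_primeFactors]
    constructor
    · rintro ⟨⟨h3, h4⟩, h5⟩
      refine ⟨h3, fun q hq => ?_⟩
      by_cases hq2 : q = 2
      · subst hq2; omega
      · exact h5 q ⟨hq2, hq⟩
    · rintro ⟨h3, h4⟩
      have h5 := h4 2 ⟨Nat.prime_two, h2, hQ⟩
      exact ⟨⟨h3, by omega⟩, fun q hq => h4 q hq.2⟩
  rw [hsub, sum_filter]
  apply sum_congr rfl
  intro m hm
  rw [mem_Icc] at hm
  split_ifs with h3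
  · congr 1
    rw [dh_apply, MulChar.pow_apply' _ hj, ← dh_apply hp1 c]
    congr 1
    apply cm_eq_hom
    intro q hq
    have hqp := Nat.prime_of_mem_primeFactors hq
    have hqm := Nat.dvd_of_mem_primeFactors hq
    rw [dh_apply]
    apply hΦ q hqp _ ((Nat.le_of_dvd (by omega) hqm).trans hm.2)
    intro hqQ
    exact h3 q (Nat.mem_primeFactors.mpr ⟨hqp, hqQ, hQ⟩) hqm
  · push Not at h3
    obtain ⟨q, hq, hqm⟩ := h3
    have hqp := Nat.prime_of_mem_primeFactors hq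
    rw [cm_zero_of_dvd Φ q m hqp (hΦ0 q hqp (Nat.dvd_of_mem_primeFactors hq)) hqm, zero_pow hj,
      zero_div]

end Pool.Agent.T9h29.CY
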