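import Mathlib
import Pool.Agent.T9h29.CY.Rem

set_option autoImplicit false

/-! # The target values -/

namespace Pool.Agent.T9h29.CY

open Finset Filter Topology

section

variable (n : ℕ) [NeZero n] (Q : ℕ) (ζ : ℂ)

/-- values at the primes dividing `Q` -/
noncomputable def ex (a : Fin (Q + 1) → Fin n) (q : ℕ) : ℂ :=
  if h : q < Q + 1 then ζ ^ ((a ⟨q, h⟩ : Fin n) : ℕ) else 1

/-- the local factor -/
noncomputable def lcf (a : Fin (Q + 1) → Fin n) : ℝ :=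
  (∏ j ∈ Jn n, ∏ q ∈ Q.primeFactors.erase 2, ‖1 - (ex n Q ζ a q) ^ j / q‖) *
    (Real.pi / 2) ^ n.totient

/-- the target values -/
def Tt : Set ℝ := {t | ∃ (a : Fin (Q + 1) → Fin n) (N : ℕ), 1 ≤ N ∧ t = lcf n Q ζ a * N}

variable (hζ : IsPrimitiveRoot ζ n)

include hζ in
lemma ex_norm (a : Fin (Q + 1) → Fin n) (q : ℕ) : ‖ex n Q ζ a q‖ = 1 := by
  have h1 : ‖ζ‖ = 1 := by
    have h2 : ‖ζ‖ ^ n = 1 := by rw [← norm_pow, hζ.pow_eq_one, norm_one]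
    exact (pow_eq_one_iff_of_nonneg (norm_nonneg _) (NeZero.ne n)).mp h2
  unfold ex
  split_ifs
  · rw [norm_pow, h1, one_pow]
  · exact norm_one

include hζ in
lemma lcf_pos (a : Fin (Q + 1) → Fin n) : 0 < lcf n Q ζ a := by
  unfold lcf
  apply mul_pos _ (by have := Real.pi_pos; positivity)
  apply prod_pos
  intro j _
  apply prod_pos
  intro q hq
  rw [mem_erase, Nat.mem_primeFactors] at hq
  have hq2 : (2 : ℝ) ≤ q := by exact_mod_cast hq.2.1.two_le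
  rw [norm_pos_iff, sub_ne_zero]
  intro h
  have h1 : ‖(ex n Q ζ a q) ^ j / q‖ = 1 := by rw [← h, norm_one]
  rw [norm_div, norm_pow, ex_norm n Q ζ hζ, one_pow, Complex.norm_natCast] at h1
  have h2 : (1 : ℝ) / q ≤ 1 / 2 := one_div_le_one_div_of_le (by norm_num) hq2
  linarith

include hζ in
lemma Tt_pos (t : ℝ) (ht : t ∈ Tt n Q ζ) : 0 < t := by
  obtain ⟨a, N, hN, rfl⟩ := ht
  have : (0 : ℝ) < N := by exact_mod_cast hN
  exact mul_pos (lcf_pos n Q ζ hζ a) this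

include hζ in
lemma Tt_fin (B : ℝ) : (Tt n Q ζ ∩ Set.Iic B).Finite := by
  have h1 : (⋃ a : Fin (Q + 1) → Fin n, (fun N : ℕ => lcf n Q ζ a * (N : ℝ)) ''
      (Set.Iic ⌊B / lcf n Q ζ a⌋₊)).Finite :=
    Set.finite_iUnion fun a => (Set.finite_Iic _).image _
  apply h1.subset
  rintro t ⟨⟨a, N, hN, rfl⟩, hB⟩
  rw [Set.mem_Iic] at hB
  rw [Set.mem_iUnion]
  refine ⟨a, N, ?_, rfl⟩
  rw [Set.mem_Iic]
  apply Nat.le_floor
  rw [le_div_iff₀ (lcf_pos n Q ζ hζ a), mul_comm]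
  exact hB

/-- membership -/
lemma Tt_mem (u : ℕ → ℂ) (hu : ∀ q ∈ Q.primeFactors, ∃ i : ℕ, u q = ζ ^ i)
    (hζn : ζ ^ n = 1) (N : ℕ) (hN : 1 ≤ N) :
    (∏ j ∈ Jn n, ∏ q ∈ Q.primeFactors.erase 2, ‖1 - (u q) ^ j / q‖) *
      ((Real.pi / 2) ^ n.totient * N) ∈ Tt n Q ζ := by
  classical
  have h1 : ∀ q : Fin (Q + 1), ∃ i : Fin n, (q : ℕ) ∈ Q.primeFactors → u q = ζ ^ (i : ℕ) := by
    intro q
    by_cases hq : (q : ℕ) ∈ Q.primeFactors
    · obtain ⟨i, hi⟩ := hu q hq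
      refine ⟨⟨i % n, Nat.mod_lt _ (NeZero.pos n)⟩, fun _ => ?_⟩
      rw [hi]
      conv_lhs => rw [← Nat.mod_add_div i n, pow_add, pow_mul, hζn, one_pow, mul_one]
    · exact ⟨⟨0, NeZero.pos n⟩, fun h => absurd h hq⟩
  choose a ha using h1
  refine ⟨a, N, hN, ?_⟩
  unfold lcf
  rw [← mul_assoc]
  congr 2
  apply prod_congr rfl
  intro j _
  apply prod_congr rfl
  intro q hq
  rw [mem_erase] at hq
  have hqQ : q < Q + 1 := by
    have := Nat.le_of_mem_primeFactors hq.2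
    omega
  have h2 := ha ⟨q, hqQ⟩ hq.2
  unfold ex
  rw [dif_pos hqQ, ← h2]

end

end Pool.Agent.T9h29.CY
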