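import Mathlib
import Pool.Agent.T9h29.CY.Tgt
import Pool.Agent.T9h29.CY.Sym

set_option autoImplicit false

/-! # The data attached to a prime -/

namespace Pool.Agent.T9h29.CY

open Finset Filter Topology
open Pool.Agent.R361.AC (oddTo cw cot_approx)
open Pool.Agent.R361.QF (cm cm_apply cm_prime dh dh_apply)

/-- the data -/
structure Dat {n : ℕ} [NeZero n] {R : Type} [CommRing R] [IsDomain R] (Y : Cyc n R) (p : ℕ)
    [Fact p.Prime] (χ : MulChar (ZMod p) R) (g : (ZMod p)ˣ) (m : ℕ) (α : R) (κ : ZMod n → R)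
    (k : ℕ) : Prop where
  gen : ∀ x, x ∈ Subgroup.zpowers g
  chi : χ g = Y.z
  hm : p - 1 = n * m
  odd : m % 2 = 1
  two : 2 ≤ m
  kap : ∀ i, κ i * cI χ i = Y.PS α i
  box : ∀ i, |Y.b.repr α i| ≤ Yn n.totient p
  nm : (Y.nm α).natAbs = k * p
  k1 : 1 ≤ k
  k2 : k ≤ n.totient ^ n.totient
  kb : ∀ i, ∀ f : R →+* ℂ, ‖f (κ i)‖ ≤ (n.totient : ℝ) ^ n.totient

section

variable {n : ℕ} [NeZero n] {R : Type} [CommRing R] [IsDomain R] (Y : Cyc n R)

lemma exists_dat (h : ℕ) (hnh : n = 2 * h) (p : ℕ) [hp : Fact p.Prime]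
    (hpm : p % (2 * n) = (1 + n) % (2 * n)) (hpn : n + 1 < p) :
    ∃ (χ : MulChar (ZMod p) R) (g : (ZMod p)ˣ) (m : ℕ) (α : R) (κ : ZMod n → R) (k : ℕ),
      Dat Y p χ g m α κ k := by
  have hn0 : 0 < n := NeZero.pos n
  have hn1 : 1 < n := by omega
  obtain ⟨m, hm, hmo, hm2⟩ : ∃ m, p - 1 = n * m ∧ m % 2 = 1 ∧ 2 ≤ m := by
    have h1 : (1 + n) % (2 * n) = 1 + n := Nat.mod_eq_of_lt (by omega)
    rw [h1] at hpm
    have h2 := Nat.div_add_mod p (2 * n)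
    rw [hpm] at h2
    refine ⟨2 * (p / (2 * n)) + 1, ?_, by omega, ?_⟩
    · have h3 : n * (2 * (p / (2 * n)) + 1) = 2 * n * (p / (2 * n)) + n := by ring
      omega
    · by_contra hcon
      have h3 : p / (2 * n) = 0 := by omega
      rw [h3, mul_zero] at h2
      omega
  obtain ⟨g, hg⟩ := (inferInstance : IsCyclic (ZMod p)ˣ).exists_generator
  have hunit : IsUnit Y.z := Y.prim.isUnit (NeZero.ne n)
  have hroot : hunit.unit ∈ rootsOfUnity (Fintype.card (ZMod p)ˣ) R := by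
    rw [mem_rootsOfUnity, ZMod.card_units, hm, pow_mul]
    have : hunit.unit ^ n = 1 := by
      apply Units.ext
      rw [Units.val_pow_eq_pow_val, IsUnit.unit_spec, Y.z_pow, Units.val_one]
    rw [this, one_pow]
  set χ : MulChar (ZMod p) R := MulChar.ofRootOfUnity hroot hg with hχd
  have hχ : χ g = Y.z := by
    rw [hχd, MulChar.ofRootOfUnity_spec, IsUnit.unit_spec]
  have hneg := chi_neg Y hg hχ m hm h hnh hmo
  obtain ⟨α, hα0, hα1, hα2⟩ := Y.exists_Pi p (gen_prim hg m hm)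
  obtain ⟨k, hk1, hk2, hk3⟩ := Y.nm_Pi p (gen_prim hg m hm) α hα0 hα1 hα2
  obtain ⟨κ, hκ1, hκ2⟩ := exists_kap hn1 Y hg hχ m hm hneg α hα0 hα1 hα2
  exact ⟨χ, g, m, α, κ, k, hg, hχ, hm, hmo, hm2, hκ1, hα2, hk3, hk1, hk2, hκ2⟩

end

end Pool.Agent.T9h29.CY
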