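import Mathlib
import Pool.Agent.T9h29.CY.Dat

set_option autoImplicit false

/-! # Approximation by short sums -/

namespace Pool.Agent.T9h29.CY

open Finset Filter Topology
open Pool.Agent.R361.AC (oddTo cw cot_approx tendsto_log_nat)
open Pool.Agent.R361.QF (cm cm_apply cm_prime dh dh_apply)

/-- growth conditions -/
lemma ev_range (D : ℕ) (hD : 0 < D) (M : ℕ) : ∀ᶠ x : ℕ in atTop,
    ⌈(x : ℝ) ^ (1 / (50 * D) : ℝ)⌉₊ * M ≤ Nn D x ∧ (Nn D x : ℝ) ≤ (x : ℝ) ^ (1 / 4 : ℝ) := by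
  have hDr : (1 : ℝ) ≤ D := by exact_mod_cast hD
  have e1 : ∀ᶠ x : ℕ in atTop, (2 * M + 1 : ℝ) ≤ (x : ℝ) ^ (1 / (200 * D) : ℝ) :=
    ((tendsto_rpow_atTop (by positivity : (0 : ℝ) < 1 / (200 * D))).comp
      tendsto_natCast_atTop_atTop).eventually_ge_atTop _
  filter_upwards [e1, eventually_ge_atTop 1] with x hx h1
  have hx1 : (1 : ℝ) ≤ x := by exact_mod_cast h1
  have hx0 : (0 : ℝ) < x := by linarith
  set u := (x : ℝ) ^ (1 / (50 * D) : ℝ) with hu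
  have hu1 : 1 ≤ u := Real.one_le_rpow hx1 (by positivity)
  have h3 : (x : ℝ) ^ (1 / (40 * D) : ℝ) = u * (x : ℝ) ^ (1 / (200 * D) : ℝ) := by
    rw [hu, ← Real.rpow_add hx0]
    congr 1
    field_simp
    norm_num
  have h4 : (2 * M + 1 : ℝ) * u ≤ (x : ℝ) ^ (1 / (40 * D) : ℝ) := by
    rw [h3, mul_comm]
    exact mul_le_mul_of_nonneg_left hx (by linarith)
  have h5 := lt_Nn D x
  have h6 : (⌈u⌉₊ : ℝ) < u + 1 := Nat.ceil_lt_add_one (by linarith)
  constructor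
  · have h7 : ((⌈u⌉₊ * M : ℕ) : ℝ) < (Nn D x : ℝ) + 1 := by
      push_cast
      have hM : (0 : ℝ) ≤ M := Nat.cast_nonneg M
      have h8 : (⌈u⌉₊ : ℝ) * M ≤ (2 * u) * M := mul_le_mul_of_nonneg_right (by linarith) hM
      nlinarith
    have h8 : ⌈u⌉₊ * M < Nn D x + 1 := by exact_mod_cast h7
    omega
  · refine (Nn_le D x).trans (Real.rpow_le_rpow_of_exponent_le hx1 ?_)
    rw [div_le_div_iff₀ (by positivity) (by norm_num)]
    linarith

lemma ev_err (C η : ℝ) (hη : 0 < η) : ∀ᶠ x : ℕ in atTop,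
    C * (8 / (Real.log x) ^ 2) ≤ η := by
  filter_upwards [tendsto_log_nat.eventually_ge_atTop (8 * |C| / η),
    tendsto_log_nat.eventually_ge_atTop 1] with x hx h1
  set L := Real.log x with hL
  have hL0 : 0 < L := by linarith
  have h2 : C * (8 / L ^ 2) ≤ |C| * (8 / L ^ 2) :=
    mul_le_mul_of_nonneg_right (le_abs_self C) (by positivity)
  refine h2.trans ?_
  rw [← mul_div_assoc, div_le_iff₀ (by positivity)]
  rw [div_le_iff₀ hη] at hx
  have h3 : L * η ≤ L ^ 2 * η := by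
    apply mul_le_mul_of_nonneg_right _ hη.le
    nlinarith
  linarith

section

variable {n : ℕ} [NeZero n] {R : Type} [CommRing R] [IsDomain R] (Y : Cyc n R)

/-- the alternatives -/
theorem hap (h : ℕ) (hnh : n = 2 * h) (hh : 2 ≤ h) (Q : ℕ) (hQ : Q ≠ 0) (h2Q : 2 ∣ Q)
    (R0 η : ℝ) (hη : 0 < η) : ∀ᶠ x : ℕ in atTop, ∃ Exc : Finset ℕ,
      (#Exc : ℝ) ≤ (x : ℝ) ^ (3 / 4 : ℝ) ∧ ∀ (p : ℕ) [hp : Fact p.Prime], x < p ^ 2 → p ≤ x →
        p ∉ Exc → n.totient ≤ 2 * #(Bk n p) → ∀ (χ : MulChar (ZMod p) R) (g : (ZMod p)ˣ) (m : ℕ)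
        (α : R) (κ : ZMod n → R) (k : ℕ), Dat Y p χ g m α κ k → ∀ Φ : ℕ → ℂ,
        (∀ q : ℕ, q.Prime → q ∣ Q → Φ q = 0) →
        (∀ q : ℕ, q.Prime → ¬ q ∣ Q → q ≠ p → Φ q = Y.f0 (χ (q : ZMod p))) →
        (∃ j ∈ Jn n, R0 ≤ ‖∑ m ∈ Icc 1 (Nn n.totient x), (cm Φ m) ^ j / m‖) ∨
        ∃ t ∈ Tt n Q (Y.f0 Y.z), |∏ j ∈ Jn n, ‖∑ m ∈ Icc 1 (Nn n.totient x),
          (cm Φ m) ^ j / m‖ - t| ≤ η := by
  classical
  have hn1 : 1 < n := by omega
  set D := n.totient with hDdef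
  have hD : 0 < D := Nat.totient_pos.mpr (NeZero.pos n)
  have hDr : (1 : ℝ) ≤ D := by exact_mod_cast hD
  set s := Q.primeFactors.erase 2 with hs
  have hsp : ∀ q ∈ s, q.Prime ∧ q ≠ 2 := by
    intro q hq
    rw [hs, mem_erase, Nat.mem_primeFactors] at hq
    exact ⟨hq.2.1, hq.1⟩
  set B : ℝ := max R0 0 + 2 with hB
  have hB1 : 1 ≤ B := by have := le_max_right R0 0; linarith
  obtain ⟨x0, hx0⟩ := cot_approx (1 / (50 * D)) (by positivity) (by
    rw [div_lt_one (by positivity)]; linarith)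
  filter_upwards [eventually_ge_atTop x0, ev_range D hD (∏ q ∈ s, q),
    ev_err (2 ^ #s) 1 one_pos, ev_err (D * B ^ D * 2 ^ #s) η hη,
    eventually_ge_atTop (Q ^ 2), eventually_ge_atTop 1] with x hx1 hx2 hx3 hx4 hx5 hx6
  obtain ⟨hlog, Exc, hE, happ⟩ := hx0 x hx1
  refine ⟨Exc, hE, ?_⟩
  intro p hp hxp hpx hpE hBd χ g m α κ k hdat Φ hΦ0 hΦ1
  set f := Y.f0 with hf
  set c : DirichletCharacter ℂ p := χ.ringHomComp f with hc
  set N := Nn D x with hN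
  have hNp : N < p := Nn_lt D hD hx6 hxp
  have hQp : Q < p := by
    by_contra hcon
    push Not at hcon
    have := Nat.pow_le_pow_left hcon 2
    omega
  have hneg := chi_neg Y hdat.gen hdat.chi m hdat.hm h hnh hdat.odd
  have hcodd : ∀ j ∈ Jn n, DirichletCharacter.Odd (c ^ j) := by
    intro j hj
    have hj1 := ((mem_Jn n j).mp hj).2
    have hjodd : j % 2 = 1 := by
      by_contra hcon
      have h2 : 2 ∣ j := by omega
      have h3 : 2 ∣ n := ⟨h, hnh⟩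
      exact Nat.Prime.not_coprime_iff_dvd.mpr ⟨2, Nat.prime_two, h2, h3⟩ hj1
    unfold DirichletCharacter.Odd
    rw [MulChar.pow_apply' _ (by omega), hc, MulChar.ringHomComp_apply, hneg, map_neg, map_one]
    exact Odd.neg_one_pow (Nat.odd_iff.mpr hjodd)
  have hc1 : ∀ j ∈ Jn n, c ^ j ≠ 1 := by
    intro j hj h
    have h1 := hcodd j hj
    rw [h] at h1
    unfold DirichletCharacter.Odd at h1
    rw [MulChar.one_apply (isUnit_one.neg)] at h1
    norm_num at h1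
  set F : ℕ → ℂ := fun j => ∑ k ∈ oddTo (p - 1), (c ^ j) (k : ZMod p) * (cw p k : ℂ) with hF
  set E : ℕ → ℂ := fun j => ∏ q ∈ s, (1 - dh hp.out.one_lt (c ^ j) q / q) with hE'
  set e : ℝ := 2 ^ #s * (8 / (Real.log x) ^ 2) with he
  have hclose : ∀ j ∈ Jn n, ‖∑ m ∈ Icc 1 N, (cm Φ m) ^ j / m - F j * E j‖ ≤ e := by
    intro j hj
    rw [cm_sum hp.out.one_lt c Q hQ h2Q Φ hΦ0 N (fun q hq hqQ hqN => by
      rw [hΦ1 q hq hqQ (by omega), hc, MulChar.ringHomComp_apply]) j (Jn_pos hn1 hj)]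
    apply As_close (dh hp.out.one_lt (c ^ j))
      (fun m => Pool.Agent.R361.QF.norm_char_le (c ^ j) m) (F j) (8 / (Real.log x) ^ 2)
      ⌈(x : ℝ) ^ (1 / (50 * D) : ℝ)⌉₊ N _ s hsp N hx2.1 le_rfl
    intro N' hN1 hN2
    apply happ p hp.out hpx hxp hpE (c ^ j) (hc1 j hj) N'
    · exact (Nat.le_ceil _).trans (by exact_mod_cast hN1)
    · refine le_trans ?_ hx2.2
      exact_mod_cast hN2
  by_cases hbig : ∃ j ∈ Jn n, R0 ≤ ‖∑ m ∈ Icc 1 N, (cm Φ m) ^ j / m‖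
  · left; exact hbig
  right
  push Not at hbig
  obtain ⟨M, hM1, hM2⟩ := prod_F hn1 Y hdat.gen hdat.chi m hdat.hm h hnh hh hdat.odd hdat.two hBd f
  have hmem := Tt_mem n Q (f Y.z) (fun q => f (χ (q : ZMod p))) (by
    intro q hq
    have hq0 : (q : ZMod p) ≠ 0 := by
      rw [Ne, ZMod.natCast_eq_zero_iff]
      intro hd
      have h1 := Nat.le_of_mem_primeFactors hq
      have h2 := Nat.le_of_dvd (Nat.prime_of_mem_primeFactors hq).pos hd
      omega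
    obtain ⟨i, hi⟩ := chi_z Y hdat.gen hdat.chi _ hq0
    exact ⟨i, by rw [hi, map_pow]⟩) (Y.hom_prim f).pow_eq_one M hM1
  refine ⟨_, hmem, ?_⟩
  have hprod : (∏ j ∈ Jn n, ∏ q ∈ s, ‖1 - (f (χ (q : ZMod p))) ^ j / q‖) *
      ((Real.pi / 2) ^ n.totient * M) = ∏ j ∈ Jn n, ‖F j * E j‖ := by
    rw [← hM2, ← prod_mul_distrib]
    apply prod_congr rfl
    intro j hj
    rw [norm_mul, mul_comm]
    congr 1
    simp only [hE']
    rw [norm_prod]
    apply prod_congr rfl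
    intro q _
    rw [dh_apply, MulChar.pow_apply' _ (Jn_pos hn1 hj), hc, MulChar.ringHomComp_apply]
  rw [hprod]
  have he1 : e ≤ 1 := hx3
  have he0 : 0 ≤ e := by rw [he]; positivity
  have hab : ∀ j ∈ Jn n, |‖∑ m ∈ Icc 1 N, (cm Φ m) ^ j / m‖ - ‖F j * E j‖| ≤ e := fun j hj =>
    (abs_norm_sub_norm_le _ _).trans (hclose j hj)
  have h1 := prod_diff' (Jn n) (fun j => ‖∑ m ∈ Icc 1 N, (cm Φ m) ^ j / m‖)
    (fun j => ‖F j * E j‖) B e hB1 (by
      intro j hj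
      rw [abs_of_nonneg (norm_nonneg _)]
      have := hbig j hj
      have h2 := le_max_left R0 0
      linarith) (by
      intro j hj
      rw [abs_of_nonneg (norm_nonneg _)]
      have h3 := (abs_le.mp (hab j hj)).1
      have h4 := hbig j hj
      have h2 := le_max_left R0 0
      linarith) hab
  refine h1.trans (le_trans (le_of_eq ?_) hx4)
  rw [Jn_card, he]
  ring

end

end Pool.Agent.T9h29.CY
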