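import Mathlib
import Pool.Agent.T9h29.CY.Hap

set_option autoImplicit false

/-! # The counting theorem -/

namespace Pool.Agent.T9h29.CY

open Finset Filter Topology
open Pool.Agent.R361.AC (tendsto_log_nat)

lemma card_le_filter (x : ℕ) (S : ℕ → Prop) [DecidablePred S] :
    Nat.card {p : ℕ | p ≤ x ∧ S p} = #((range (x + 1)).filter S) := by
  rw [Nat.card_coe_set_eq, ← Set.ncard_coe_finset]
  congr 1
  ext p
  simp only [Set.mem_ofPred_eq, coe_filter, mem_range]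
  constructor
  · rintro ⟨h1, h2⟩; exact ⟨by omega, h2⟩
  · rintro ⟨h1, h2⟩; exact ⟨by omega, h2⟩

section

variable {n : ℕ} [NeZero n] {R : Type} [CommRing R] [IsDomain R] (Y : Cyc n R)

/-- the class of primes -/
def Pc (n : ℕ) : Set ℕ := {p | p.Prime ∧ p % (2 * n) = (1 + n) % (2 * n) ∧ n + 1 < p}

theorem type_count (h : ℕ) (hnh : n = 2 * h) (hh : 2 ≤ h) (I : ℕ → R) (κ : ZMod n → R) (k : ℕ)
    (P : Set ℕ) (hP : ∀ p ∈ P, ∃ (_ : Fact p.Prime) (χ : MulChar (ZMod p) R) (g : (ZMod p)ˣ)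
      (m : ℕ), Dat Y p χ g m (I p) κ k) (hk0 : 1 ≤ k) (hkD : k ≤ n.totient ^ n.totient)
    (ε : ℝ) (hε : 0 < ε) :
    ∀ᶠ x : ℕ in atTop, (Nat.card {p : ℕ | p ≤ x ∧ p ∈ P ∧ n.totient ≤ 2 * #(Bk n p)} : ℝ) ≤
      ε * (x / Real.log x) := by
  classical
  have hn1 : 1 < n := by omega
  have hζ := Complex.isPrimitiveRoot_exp n (NeZero.ne n)
  obtain ⟨ψ, τ, hsym⟩ := exists_syms Y hζ hn1
  set Q : ℕ := n * (n.totient ^ n.totient).factorial with hQd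
  have hQ : 0 < Q := Nat.mul_pos (NeZero.pos n) (Nat.factorial_pos _)
  have hnQ : ∀ q : ℕ, ¬ q ∣ Q → ¬ q ∣ n := fun q hq hqn => hq (Dvd.dvd.mul_right hqn _)
  have h2Q : 2 ∣ Q := Dvd.dvd.mul_right ⟨h, hnh⟩ _
  have hkQ : ∀ q : ℕ, q.Prime → q ∣ k → q ∣ Q := by
    intro q hq hqk
    apply Dvd.dvd.mul_left
    exact hq.dvd_factorial.mpr ((Nat.le_of_dvd hk0 hqk).trans hkD)
  set ψ' : ℕ → R → ℂ := fun q α => if q.Prime ∧ ¬ q ∣ Q then ψ q α else 0 with hψ'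
  set σ : ℕ → ℂ := fun q => if q.Prime ∧ ¬ q ∣ Q then τ q κ else 1 with hσd
  have hψ1 : ∀ q : ℕ, q.Prime → ¬ q ∣ Q → ∀ α, ψ' q α = ψ q α := by
    intro q hq hqQ α
    simp only [hψ']
    rw [if_pos ⟨hq, hqQ⟩]
  have hψ0 : ∀ q : ℕ, q ∣ Q → ∀ α, ψ' q α = 0 := by
    intro q hqQ α
    simp only [hψ']
    rw [if_neg (fun h => h.2 hqQ)]
  have hQE : QE Y (2 * h) Q ψ' := by
    rw [← hnh]
    refine ⟨?_, ?_, ?_, ?_, ?_, ?_⟩
    · intro q hq hqQ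
      rw [hψ1 q hq hqQ]
      exact (hsym q hq (hnQ q hqQ)).one
    · intro q hq α β
      by_cases hqQ : q ∣ Q
      · rw [hψ0 q hqQ, hψ0 q hqQ, zero_mul]
      · rw [hψ1 q hq hqQ, hψ1 q hq hqQ, hψ1 q hq hqQ]
        exact (hsym q hq (hnQ q hqQ)).mul α β
    · intro q hq α β hab
      by_cases hqQ : q ∣ Q
      · rw [hψ0 q hqQ, hψ0 q hqQ]
      · rw [hψ1 q hq hqQ, hψ1 q hq hqQ]
        exact (hsym q hq (hnQ q hqQ)).per α β hab
    · intro q hq α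
      by_cases hqQ : q ∣ Q
      · left; exact hψ0 q hqQ α
      · rw [hψ1 q hq hqQ]
        exact (hsym q hq (hnQ q hqQ)).val α
    · intro q hq hqQ α
      exact hψ0 q hqQ α
    · intro q hq hqQ
      obtain ⟨β, h1, h2⟩ := (hsym q hq (hnQ q hqQ)).gen
      refine ⟨β, h1, ?_⟩
      rw [hψ1 q hq hqQ]
      exact h2
  have hσ : ∀ q, σ q ^ (2 * h) = 1 := by
    intro q
    rw [← hnh]
    simp only [hσd]
    split_ifs with h1
    · exact (hsym q h1.1 (hnQ q h1.2)).tau κ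
    · rw [one_pow]
  have hPp : ∀ p ∈ P, p.Prime := by
    intro p hp
    obtain ⟨hF, _⟩ := hP p hp
    exact hF.out
  have hnd : ∀ p ∈ P, ∀ q : ℕ, q.Prime → ¬ q ∣ Q → q ≠ p → ¬ (q : ℤ) ∣ Y.nm (I p) := by
    intro p hp q hq hqQ hqp hd
    obtain ⟨hF, χ, g, m, hdat⟩ := hP p hp
    rw [Int.natCast_dvd, hdat.nm] at hd
    rcases hq.dvd_mul.mp hd with h1 | h1
    · exact hqQ (hkQ q hq h1)
    · exact hqp ((Nat.prime_dvd_prime_iff_eq hq hF.out).mp h1)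
  apply gen_count Y h (by omega) Q hQ (Jn n)
    (fun j hj => by rw [← hnh]; exact ((mem_Jn n j).mp hj).2)
    (by rw [mem_Jn]; exact ⟨hn1, Nat.coprime_one_left n⟩)
    ψ' hQE σ hσ P hPp I k hk0 hkQ
    (fun p hp => by obtain ⟨hF, χ, g, m, hdat⟩ := hP p hp; exact hdat.nm)
    (fun x p hp hpx i => by
      obtain ⟨hF, χ, g, m, hdat⟩ := hP p hp
      exact (hdat.box i).trans (by exact_mod_cast Yn_mono n.totient hpx))
    (fun p hp q hq hqQ hqp => by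
      rw [hψ1 q hq hqQ]
      exact (hsym q hq (hnQ q hqQ)).ne _ (hnd p hp q hq hqQ hqp))
    (Tt n Q (Y.f0 Y.z)) (Tt_pos n Q _ (Y.hom_prim Y.f0)) (Tt_fin n Q _ (Y.hom_prim Y.f0))
    (fun p => n.totient ≤ 2 * #(Bk n p)) _ ε hε
  intro R0 η hη
  filter_upwards [hap Y h hnh hh Q hQ.ne' h2Q R0 η hη] with x hx
  obtain ⟨Exc, hE, hx⟩ := hx
  refine ⟨Exc, hE, ?_⟩
  intro p hp hxp hpx hpE hBd
  obtain ⟨hF, χ, g, m, hdat⟩ := hP p hp
  apply hx p hxp hpx hpE hBd χ g m (I p) κ k hdat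
  · intro q hq hqQ
    rw [hψ0 q hqQ, mul_zero]
  · intro q hq hqQ hqp
    have hFq : Fact q.Prime := ⟨hq⟩
    rw [hψ1 q hq hqQ]
    have h1 := (hsym q hq (hnQ q hqQ)).recip p (Ne.symm hqp) χ g hdat.gen hdat.chi (I p) κ
      (hnd p hp q hq hqQ hqp) hdat.kap
    simp only [hσd]
    rw [if_pos ⟨hq, hqQ⟩, ← h1]
    rfl

include Y in
theorem cyc_count (h : ℕ) (hnh : n = 2 * h) (hh : 2 ≤ h) (ε : ℝ) (hε : 0 < ε) :
    ∀ᶠ x : ℕ in atTop, (Nat.card {p : ℕ | p ≤ x ∧ (p.Prime ∧ p % (2 * n) = (1 + n) % (2 * n)) ∧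
      n.totient ≤ 2 * #(Bk n p)} : ℝ) ≤ ε * (x / Real.log x) := by
  classical
  have hex : ∀ p : ℕ, ∃ (α : R) (κ : ZMod n → R) (k : ℕ), p ∈ Pc n →
      ∃ (_ : Fact p.Prime) (χ : MulChar (ZMod p) R) (g : (ZMod p)ˣ) (m : ℕ),
        Dat Y p χ g m α κ k := by
    intro p
    by_cases hp : p ∈ Pc n
    · have hF : Fact p.Prime := ⟨hp.1⟩
      obtain ⟨χ, g, m, α, κ, k, hdat⟩ := exists_dat Y h hnh p hp.2.1 hp.2.2
      exact ⟨α, κ, k, fun _ => ⟨hF, χ, g, m, hdat⟩⟩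
    · exact ⟨0, fun _ => 0, 0, fun h => absurd h hp⟩
  choose I KK kk hdat using hex
  set 𝒦 := (Y.fin ((n.totient : ℝ) ^ n.totient)).toFinset with h𝒦
  set Ty := (Icc 1 (n.totient ^ n.totient)) ×ˢ Fintype.piFinset (fun _ : ZMod n => 𝒦) with hTy
  set P : ℕ × (ZMod n → R) → Set ℕ := fun ty => {p | p ∈ Pc n ∧ (kk p, KK p) = ty} with hPd
  have hmemTy : ∀ p ∈ Pc n, (kk p, KK p) ∈ Ty := by
    intro p hp
    obtain ⟨hF, χ, g, m, hd⟩ := hdat p hp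
    rw [hTy, mem_product, mem_Icc, Fintype.mem_piFinset]
    refine ⟨⟨hd.k1, hd.k2⟩, fun i => ?_⟩
    rw [h𝒦, Set.Finite.mem_toFinset]
    exact hd.kb i
  have hty : ∀ ty ∈ Ty, ∀ᶠ x : ℕ in atTop,
      (Nat.card {p : ℕ | p ≤ x ∧ p ∈ P ty ∧ n.totient ≤ 2 * #(Bk n p)} : ℝ) ≤
        (ε / (2 * (#Ty + 1))) * (x / Real.log x) := by
    intro ty hty
    rw [hTy, mem_product, mem_Icc] at hty
    apply type_count Y h hnh hh I ty.2 ty.1 (P ty) _ hty.1.1 hty.1.2 _ (by positivity)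
    intro p hp
    obtain ⟨hp1, hp2⟩ := hp
    obtain ⟨hF, χ, g, m, hd⟩ := hdat p hp1
    refine ⟨hF, χ, g, m, ?_⟩
    rw [← hp2]
    exact hd
  have hall : ∀ᶠ x : ℕ in atTop, ∀ ty ∈ Ty,
      (Nat.card {p : ℕ | p ≤ x ∧ p ∈ P ty ∧ n.totient ≤ 2 * #(Bk n p)} : ℝ) ≤
        (ε / (2 * (#Ty + 1))) * (x / Real.log x) := by
    rw [Filter.eventually_all_finset]
    exact hty
  have hsmall : ∀ᶠ x : ℕ in atTop, ((n + 2 : ℕ) : ℝ) ≤ ε / 2 * (x / Real.log x) := by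
    filter_upwards [Pool.Agent.R361.AC.log_pow_le 1 (2 * (n + 2 : ℕ) / ε) 1 one_pos
      (by positivity), tendsto_log_nat.eventually_ge_atTop 1] with x hx h1
    rw [pow_one, Real.rpow_one] at hx
    have hL0 : 0 < Real.log x := by linarith
    rw [← mul_div_assoc, le_div_iff₀ hL0]
    have h2 : ε / 2 * (2 * (n + 2 : ℕ) / ε * Real.log x) = ((n + 2 : ℕ) : ℝ) * Real.log x := by
      field_simp
    rw [← h2]
    exact mul_le_mul_of_nonneg_left hx (by positivity)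
  filter_upwards [hall, hsmall, tendsto_log_nat.eventually_ge_atTop 1] with x hx1 hx2 hx3
  have hxl : 0 ≤ (x : ℝ) / Real.log x := by positivity
  rw [card_le_filter x (fun p => (p.Prime ∧ p % (2 * n) = (1 + n) % (2 * n)) ∧
      n.totient ≤ 2 * #(Bk n p))]
  have hsub : (range (x + 1)).filter (fun p => (p.Prime ∧ p % (2 * n) = (1 + n) % (2 * n)) ∧
      n.totient ≤ 2 * #(Bk n p)) ⊆ range (n + 2) ∪ Ty.biUnion (fun ty =>
      (range (x + 1)).filter (fun p => p ∈ P ty ∧ n.totient ≤ 2 * #(Bk n p))) := by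
    intro p hp
    rw [mem_filter, mem_range] at hp
    rw [mem_union, mem_range, mem_biUnion]
    by_cases hpn : p < n + 2
    · left; exact hpn
    · right
      have hpc : p ∈ Pc n := ⟨hp.2.1.1, hp.2.1.2, by omega⟩
      refine ⟨_, hmemTy p hpc, ?_⟩
      rw [mem_filter, mem_range]
      exact ⟨hp.1, ⟨hpc, rfl⟩, hp.2.2⟩
  have h1 : (#((range (x + 1)).filter (fun p => (p.Prime ∧ p % (2 * n) = (1 + n) % (2 * n)) ∧
      n.totient ≤ 2 * #(Bk n p))) : ℝ) ≤ ((n + 2 : ℕ) : ℝ) + ∑ ty ∈ Ty,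
      (#((range (x + 1)).filter (fun p => p ∈ P ty ∧ n.totient ≤ 2 * #(Bk n p))) : ℝ) := by
    have h2 := (card_le_card hsub).trans (card_union_le _ _)
    have h3 := h2.trans (Nat.add_le_add_left card_biUnion_le _)
    rw [card_range] at h3
    exact_mod_cast h3
  refine h1.trans ?_
  have h2 : ∑ ty ∈ Ty,
      (#((range (x + 1)).filter (fun p => p ∈ P ty ∧ n.totient ≤ 2 * #(Bk n p))) : ℝ) ≤
      #Ty * ((ε / (2 * (#Ty + 1))) * (x / Real.log x)) := by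
    rw [← nsmul_eq_mul]
    apply sum_le_card_nsmul
    intro ty hty
    have h3 := hx1 ty hty
    rw [card_le_filter x (fun p => p ∈ P ty ∧ n.totient ≤ 2 * #(Bk n p))] at h3
    exact h3
  have h3 : (#Ty : ℝ) * ((ε / (2 * (#Ty + 1))) * (x / Real.log x)) ≤
      ε / 2 * (x / Real.log x) := by
    rw [← mul_assoc]
    apply mul_le_mul_of_nonneg_right _ hxl
    rw [← mul_div_assoc, div_le_div_iff₀ (by positivity) (by norm_num)]
    nlinarith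
  linarith

end

end Pool.Agent.T9h29.CY
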